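import Pool.Agent.W_f569db_h62.NTDefs

/-! Asymptotics of `Zid` near `s = 1`. -/

namespace Pool.Agent.H62D

open NumberField
open scoped ENNReal

/-- the terms of the Dedekind zeta function -/
noncomputable def NTD_u (F : Type) [Field F] [NumberField F] (s : ℝ) (n : ℕ) : ℝ :=
  if n = 0 then 0 else (Nat.card {I : Ideal (𝓞 F) // Ideal.absNorm I = n} : ℝ) * (n : ℝ) ^ (-s)

theorem NTD_u_nonneg (F : Type) [Field F] [NumberField F] (s : ℝ) (n : ℕ) : 0 ≤ NTD_u F s n := by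
  unfold NTD_u
  split_ifs
  · exact le_rfl
  · positivity

theorem NTD_zeta (F : Type) [Field F] [NumberField F] (s : ℝ) :
    dedekindZeta F (s : ℂ) = ((∑' n, NTD_u F s n : ℝ) : ℂ) := by
  unfold dedekindZeta LSeries
  rw [Complex.ofReal_tsum]
  refine tsum_congr fun n => ?_
  unfold NTD_u
  rw [LSeries.term_def]
  split_ifs with h
  · simp
  · rw [Complex.ofReal_mul, Complex.ofReal_cpow (Nat.cast_nonneg n), Complex.ofReal_neg,
      Complex.cpow_neg, Complex.ofReal_natCast, Complex.ofReal_natCast, div_eq_mul_inv]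

theorem NTD_fiber (F : Type) [Field F] [NumberField F] (s : ℝ) (n : ℕ) :
    ∑' I : {I : {I : Ideal (𝓞 F) // I ≠ ⊥} // Ideal.absNorm I.1 = n},
      ENNReal.ofReal ((Ideal.absNorm I.1.1 : ℝ) ^ (-s)) = ENNReal.ofReal (NTD_u F s n) := by
  have h1 : ∀ I : {I : {I : Ideal (𝓞 F) // I ≠ ⊥} // Ideal.absNorm I.1 = n},
      ENNReal.ofReal ((Ideal.absNorm I.1.1 : ℝ) ^ (-s)) = ENNReal.ofReal ((n : ℝ) ^ (-s)) :=
    fun I => by rw [I.2]
  rw [tsum_congr h1]
  unfold NTD_u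
  split_ifs with h
  · subst h
    have : IsEmpty {I : {I : Ideal (𝓞 F) // I ≠ ⊥} // Ideal.absNorm I.1 = 0} :=
      ⟨fun I => I.1.2 (Ideal.absNorm_eq_zero_iff.1 I.2)⟩
    rw [tsum_empty, ENNReal.ofReal_zero]
  · have hfin : Finite {I : Ideal (𝓞 F) // Ideal.absNorm I = n} :=
      (Ideal.finite_setOfPred_absNorm_eq n).to_subtype
    let e : {I : {I : Ideal (𝓞 F) // I ≠ ⊥} // Ideal.absNorm I.1 = n} ≃
        {I : Ideal (𝓞 F) // Ideal.absNorm I = n} :=
      { toFun := fun I => ⟨I.1.1, I.2⟩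
        invFun := fun I => ⟨⟨I.1, fun h0 => h (by rw [← I.2, h0, Ideal.absNorm_bot])⟩, I.2⟩
        left_inv := fun I => rfl
        right_inv := fun I => rfl }
    rw [← e.symm.tsum_eq]
    have := Fintype.ofFinite {I : Ideal (𝓞 F) // Ideal.absNorm I = n}
    rw [tsum_fintype, Finset.sum_const, Finset.card_univ, nsmul_eq_mul,
      ENNReal.ofReal_mul (Nat.cast_nonneg _), ENNReal.ofReal_natCast, Nat.card_eq_fintype_card]

theorem NTD_Zid (F : Type) [Field F] [NumberField F] (s : ℝ) (hs : Summable (NTD_u F s)) :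
    Zid F s = ENNReal.ofReal (∑' n, NTD_u F s n) := by
  unfold Zid
  rw [ENNReal.ofReal_tsum_of_nonneg (NTD_u_nonneg F s) hs,
    ← (Equiv.sigmaFiberEquiv (fun I : {I : Ideal (𝓞 F) // I ≠ ⊥} => Ideal.absNorm I.1)).tsum_eq,
    ENNReal.tsum_sigma']
  refine tsum_congr fun n => ?_
  exact NTD_fiber F s n

/-- Proof. `NumberField.tendsto_sub_one_mul_dedekindZeta_nhdsGT`: `(s - 1) ζ_F(s) → ρ > 0` as
`s → 1+`, where `ζ_F(s) = LSeries (fun n => card {I // absNorm I = n}) s`. For `s` close to `1` the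
value `ζ_F(s)` is nonzero, so the series (a `tsum`) is summable; its terms are nonnegative reals
`card {I // N I = n} * n ^ (-s)` for `n ≥ 1` (and `0` for `n = 0`), and grouping the nonzero ideals by
their norm (`ENNReal.tsum_sigma'` / `Equiv.sigmaFiberEquiv`; `N I = 0` iff `I = ⊥`; finitely many
ideals of given norm, `Ideal.finite_setOf_absNorm_eq`) gives `Zid F s = ENNReal.ofReal (ζ_F(s)).re`
for these `s`. So `c = ρ / 2`, `C = 2 ρ` work for `s` close to `1`. -/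
theorem Zid_asymp (F : Type) [Field F] [NumberField F] :
    ∃ c C s₀ : ℝ, 0 < c ∧ 0 < C ∧ 1 < s₀ ∧ ∀ s, 1 < s → s < s₀ →
      ENNReal.ofReal (c / (s - 1)) ≤ Zid F s ∧ Zid F s ≤ ENNReal.ofReal (C / (s - 1)) := by
  have hρ := dedekindZeta_residue_pos F
  obtain ⟨ρ, hρe⟩ : ∃ ρ, ρ = dedekindZeta_residue F := ⟨_, rfl⟩
  rw [← hρe] at hρ
  have h1 := tendsto_sub_one_mul_dedekindZeta_nhdsGT F
  rw [← hρe] at h1
  have h2 : Filter.Tendsto (fun s : ℝ => (s - 1) * ∑' n, NTD_u F s n)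
      (nhdsWithin 1 (Set.Ioi 1)) (nhds ρ) := by
    have h3 := (Complex.continuous_re.tendsto _).comp h1
    rw [Complex.ofReal_re] at h3
    refine h3.congr fun s => ?_
    simp only [Function.comp_apply]
    rw [NTD_zeta, ← Complex.ofReal_one, ← Complex.ofReal_sub, ← Complex.ofReal_mul,
      Complex.ofReal_re]
  have h3 : ∀ᶠ s in nhdsWithin (1 : ℝ) (Set.Ioi 1), (s - 1) * ∑' n, NTD_u F s n ∈
      Set.Ioo (ρ / 2) (2 * ρ) := h2.eventually (Ioo_mem_nhds (by linarith) (by linarith))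
  rw [(nhdsGT_basis (1 : ℝ)).eventually_iff] at h3
  obtain ⟨s₀, hs₀, h4⟩ := h3
  refine ⟨ρ / 2, 2 * ρ, s₀, by positivity, by positivity, hs₀, fun s hs hss => ?_⟩
  obtain ⟨h5, h6⟩ := h4 ⟨hs, hss⟩
  have hs1 : 0 < s - 1 := by linarith
  have hsum : Summable (NTD_u F s) := by
    by_contra hn
    rw [tsum_eq_zero_of_not_summable hn, mul_zero] at h5
    linarith
  rw [NTD_Zid F s hsum]
  constructor
  · apply ENNReal.ofReal_le_ofReal
    rw [div_le_iff₀ hs1]
    linarith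
  · apply ENNReal.ofReal_le_ofReal
    rw [le_div_iff₀ hs1]
    linarith

end Pool.Agent.H62D
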