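import Pool.Agent.W_f569db_h62.NTDefs

/-! Ideals as multisets of primes. -/

namespace Pool.Agent.H62D

open NumberField IsDedekindDomain
open scoped ENNReal

theorem NTC_prime {F : Type} [Field F] [NumberField F] (p : HeightOneSpectrum (𝓞 F)) :
    Prime p.asIdeal := Ideal.prime_of_isPrime p.ne_bot p.isPrime

theorem NTC_factors {F : Type} [Field F] [NumberField F] (m : Multiset (HeightOneSpectrum (𝓞 F))) :
    UniqueFactorizationMonoid.normalizedFactors (m.map HeightOneSpectrum.asIdeal).prod =
      m.map HeightOneSpectrum.asIdeal := by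
  refine UniqueFactorizationMonoid.normalizedFactors_prod_of_prime fun p hp => ?_
  rw [Multiset.mem_map] at hp
  obtain ⟨q, -, rfl⟩ := hp
  exact NTC_prime q

theorem NTC_ne_bot {F : Type} [Field F] [NumberField F] (m : Multiset (HeightOneSpectrum (𝓞 F))) :
    (m.map HeightOneSpectrum.asIdeal).prod ≠ ⊥ := by
  induction m using Multiset.induction with
  | empty =>
    rw [Multiset.map_zero, Multiset.prod_zero, Ideal.one_eq_top]
    exact top_ne_bot
  | cons a m ih =>
    rw [Multiset.map_cons, Multiset.prod_cons]
    exact mul_ne_zero a.ne_bot ih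

/-- the correspondence between multisets of primes and nonzero ideals -/
theorem NTC_bij (F : Type) [Field F] [NumberField F] :
    Function.Bijective (fun m : Multiset (HeightOneSpectrum (𝓞 F)) =>
      (⟨(m.map HeightOneSpectrum.asIdeal).prod, NTC_ne_bot m⟩ : {I : Ideal (𝓞 F) // I ≠ ⊥})) := by
  constructor
  · intro m m' h
    have h1 : (m.map HeightOneSpectrum.asIdeal).prod = (m'.map HeightOneSpectrum.asIdeal).prod :=
      congrArg Subtype.val h
    have h2 := NTC_factors m
    rw [h1, NTC_factors m'] at h2
    refine Multiset.map_injective (fun p q hpq => HeightOneSpectrum.ext hpq) h2.symm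
  · rintro ⟨I, hI⟩
    let g : ∀ p ∈ UniqueFactorizationMonoid.normalizedFactors I, HeightOneSpectrum (𝓞 F) :=
      fun p hp => ⟨p, Ideal.isPrime_of_prime (UniqueFactorizationMonoid.prime_of_normalized_factor p hp),
        (UniqueFactorizationMonoid.prime_of_normalized_factor p hp).ne_zero⟩
    refine ⟨(UniqueFactorizationMonoid.normalizedFactors I).pmap g fun p hp => hp, ?_⟩
    refine Subtype.ext ?_
    show (Multiset.map HeightOneSpectrum.asIdeal (Multiset.pmap g _ _)).prod = I
    rw [Multiset.map_pmap, Multiset.pmap_eq_map, Multiset.map_id']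
    exact Ideal.prod_normalizedFactors_eq_self hI

theorem NTC_wt (F : Type) [Field F] [NumberField F] (s : ℝ)
    (m : Multiset (HeightOneSpectrum (𝓞 F))) :
    ENNReal.ofReal ((Ideal.absNorm (m.map HeightOneSpectrum.asIdeal).prod : ℝ) ^ (-s)) =
      (m.map (wt F s)).prod := by
  induction m using Multiset.induction with
  | empty =>
    rw [Multiset.map_zero, Multiset.prod_zero, Multiset.map_zero, Multiset.prod_zero, map_one,
      Nat.cast_one, Real.one_rpow, ENNReal.ofReal_one]
  | cons a m ih =>
    rw [Multiset.map_cons, Multiset.prod_cons, Multiset.map_cons, Multiset.prod_cons, map_mul,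
      Nat.cast_mul, Real.mul_rpow (Nat.cast_nonneg _) (Nat.cast_nonneg _),
      ENNReal.ofReal_mul (Real.rpow_nonneg (Nat.cast_nonneg _) _), ih]
    rfl

/-- Proof. Nonzero ideals of the Dedekind domain `𝓞 F` correspond to multisets of nonzero primes:
`m ↦ (m.map HeightOneSpectrum.asIdeal).prod` is a bijection from `Multiset (HeightOneSpectrum (𝓞 F))`
onto the nonzero ideals (inverse `UniqueFactorizationMonoid.normalizedFactors`), and `Ideal.absNorm`
is multiplicative, as is `x ↦ ENNReal.ofReal (x ^ (-s))` on nonnegative reals. Use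
`Equiv.tsum_eq`. -/
theorem Zid_eq_Zms (F : Type) [Field F] [NumberField F] (s : ℝ) : Zid F s = Zms (wt F s) := by
  unfold Zid Zms
  rw [← Equiv.tsum_eq (Equiv.ofBijective _ (NTC_bij F))]
  exact tsum_congr fun m => NTC_wt F s m

end Pool.Agent.H62D
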