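import Pool.Agent.W_f569db_h62.NTDefs

/-! Primes of higher degree and primes above a thin set. -/

namespace Pool.Agent.H62D

open NumberField IsDedekindDomain
open scoped ENNReal

/-- For every rational prime `p` there are at most `[F : ℚ]` primes `𝔭` of `F` with `p ∈ 𝔭`.

Proof. `Ideal.sum_ramification_inertia` (every term is at least `1`), or any bound
for `primesOver` in Mathlib. -/
theorem card_primes_over_le (F : Type) [Field F] [NumberField F] (p : ℕ) (hp : p.Prime) :
    {P : HeightOneSpectrum (𝓞 F) | (p : 𝓞 F) ∈ P.asIdeal}.encard ≤ Module.finrank ℚ F := by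
  set q : Ideal ℤ := Ideal.span {(p : ℤ)} with hq
  have hp' : Prime (p : ℤ) := Nat.prime_iff_prime_int.1 hp
  have hq0 : q ≠ ⊥ := by
    rw [hq, Ne, Ideal.span_singleton_eq_bot]
    exact hp'.ne_zero
  haveI hqp : q.IsPrime := (Ideal.span_singleton_prime hp'.ne_zero).2 hp'
  haveI hqm : q.IsMaximal := hqp.isMaximal hq0
  have h1 : (fun P : HeightOneSpectrum (𝓞 F) => P.asIdeal) ''
      {P : HeightOneSpectrum (𝓞 F) | (p : 𝓞 F) ∈ P.asIdeal}
      ⊆ (IsDedekindDomain.primesOverFinset q (𝓞 F) : Set (Ideal (𝓞 F))) := by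
    rintro _ ⟨P, hP, rfl⟩
    rw [IsDedekindDomain.coe_primesOverFinset hq0]
    refine ⟨P.isPrime, ⟨?_⟩⟩
    have h2 : q ≤ P.asIdeal.under ℤ := by
      rw [hq, Ideal.span_singleton_le_iff_mem, Ideal.mem_comap]
      simpa using hP
    exact hqm.eq_of_le (Ideal.comap_ne_top _ P.isPrime.ne_top) h2
  have h3 : Function.Injective (fun P : HeightOneSpectrum (𝓞 F) => P.asIdeal) :=
    fun P Q h => HeightOneSpectrum.ext h
  rw [← h3.encard_image]
  refine (Set.encard_le_encard h1).trans ?_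
  rw [Set.encard_coe_eq_coe_finsetCard]
  exact_mod_cast Ideal.card_primesOverFinset_le_finrank (𝓞 F) ℚ F hq0

/-- The norm of a prime is a power of the rational prime contained in it.

Proof. `𝓞 F / 𝔭` is a finite field of some characteristic `p` (so `p ∈ 𝔭`), of cardinality
`p ^ k`, `k ≥ 1` (`FiniteField.card`), and `absNorm 𝔭` is this cardinality
(`Ideal.absNorm_apply`, `Submodule.cardQuot_apply`). -/
theorem absNorm_prime_pow (F : Type) [Field F] [NumberField F] (P : HeightOneSpectrum (𝓞 F)) :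
    ∃ p k : ℕ, p.Prime ∧ 1 ≤ k ∧ Ideal.absNorm P.asIdeal = p ^ k ∧ (p : 𝓞 F) ∈ P.asIdeal := by
  haveI := P.isMaximal
  obtain ⟨p, n, hn, hpP, hp, h⟩ := Ideal.exists_prime_and_absNorm_eq_pow P.asIdeal
  exact ⟨p, n, hp, hn, h, hpP⟩

/-- The bound for the weight of a bad prime. -/
theorem NTE_wt_le (F : Type) [Field F] [NumberField F] (G : Set ℕ) (P : HeightOneSpectrum (𝓞 F))
    (hP : ¬ (Ideal.absNorm P.asIdeal).Prime ∨ Ideal.absNorm P.asIdeal ∈ G) {p k : ℕ}
    (hp : p.Prime) (hk : 1 ≤ k) (h : Ideal.absNorm P.asIdeal = p ^ k) :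
    wt F 1 P ≤ G.indicator (fun l : ℕ => ENNReal.ofReal (1 / (l : ℝ))) p
      + ENNReal.ofReal (1 / (p : ℝ) ^ 2) := by
  have hp1 : (1 : ℝ) ≤ p := by exact_mod_cast hp.one_lt.le
  have hp0 : (0 : ℝ) < p := by linarith
  unfold wt
  rw [h, Real.rpow_neg_one]
  rcases Nat.lt_or_ge k 2 with h2 | h2
  · have hk1 : k = 1 := by omega
    subst hk1
    rw [pow_one] at h
    rw [h] at hP
    have hG : p ∈ G := by
      rcases hP with hP | hP
      · exact absurd hp hP
      · exact hP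
    rw [Set.indicator_of_mem hG, pow_one, one_div]
    exact le_self_add
  · refine le_trans (ENNReal.ofReal_le_ofReal ?_) le_add_self
    rw [one_div]
    push_cast
    exact inv_anti₀ (by positivity) (pow_le_pow_right₀ hp1 h2)

/-- The sum of `N(𝔭)^(-1)` over the primes of degree at least two and the primes of degree one
above a set `G` of rational primes with `∑_{l ∈ G} 1/l < ∞` is finite.

Proof. Map `𝔭` to the rational prime `p ∈ 𝔭` (`absNorm_prime_pow`). If `N 𝔭` is not prime then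
`N 𝔭 = p ^ k ≥ p^2`, so the fibre over `p` contributes at most `[F:ℚ] / p^2`
(`card_primes_over_le`); if `N 𝔭 = p ∈ G` the fibre contributes at most `[F:ℚ] / p`. Sum over `p`. -/
theorem tsum_bad_lt_top (F : Type) [Field F] [NumberField F] (G : Set ℕ)
    (hG : Summable (fun l : G => (1 : ℝ) / (l : ℕ))) :
    ∑' P : {P : HeightOneSpectrum (𝓞 F) //
      ¬ (Ideal.absNorm P.asIdeal).Prime ∨ Ideal.absNorm P.asIdeal ∈ G}, wt F 1 P.1 < ∞ := by
  choose c k hc hk hck hcP using fun P : {P : HeightOneSpectrum (𝓞 F) //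
      ¬ (Ideal.absNorm P.asIdeal).Prime ∨ Ideal.absNorm P.asIdeal ∈ G} => absNorm_prime_pow F P.1
  set B : ℕ → ℝ≥0∞ := fun p => G.indicator (fun l : ℕ => ENNReal.ofReal (1 / (l : ℝ))) p
      + ENNReal.ofReal (1 / (p : ℝ) ^ 2) with hB
  have h1 : ∑' P : {P : HeightOneSpectrum (𝓞 F) //
      ¬ (Ideal.absNorm P.asIdeal).Prime ∨ Ideal.absNorm P.asIdeal ∈ G}, wt F 1 P.1
      ≤ ∑' P : {P : HeightOneSpectrum (𝓞 F) //
      ¬ (Ideal.absNorm P.asIdeal).Prime ∨ Ideal.absNorm P.asIdeal ∈ G}, B (c P) :=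
    ENNReal.tsum_le_tsum fun P => NTE_wt_le F G P.1 P.2 (hc P) (hk P) (hck P)
  have hfib : ∀ p : ℕ, (c ⁻¹' {p}).encard ≤ (Module.finrank ℚ F : ℕ∞) := by
    intro p
    rcases (c ⁻¹' {p}).eq_empty_or_nonempty with h | ⟨P, hP⟩
    · rw [h, Set.encard_empty]
      exact zero_le
    · have hp : p.Prime := by
        have : c P = p := hP
        rw [← this]
        exact hc P
      refine le_trans ?_ (card_primes_over_le F p hp)
      rw [← Subtype.val_injective.encard_image]
      apply Set.encard_le_encard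
      rintro _ ⟨Q, hQ, rfl⟩
      have hQ' : c Q = p := hQ
      show (p : 𝓞 F) ∈ Q.1.asIdeal
      rw [← hQ']
      exact hcP Q
  have h2 : ∑' P : {P : HeightOneSpectrum (𝓞 F) //
      ¬ (Ideal.absNorm P.asIdeal).Prime ∨ Ideal.absNorm P.asIdeal ∈ G}, B (c P)
      ≤ ∑' p : ℕ, (Module.finrank ℚ F : ℝ≥0∞) * B p := by
    rw [← ENNReal.tsum_fiberwise (fun P => B (c P)) c]
    refine ENNReal.tsum_le_tsum fun p => ?_
    have h3 : ∀ P : c ⁻¹' {p}, B (c P.1) = B p := by
      intro P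
      have : c P.1 = p := P.2
      rw [this]
    rw [tsum_congr h3, ENNReal.tsum_set_const]
    gcongr
    have h4 := ENat.toENNReal_le.2 (hfib p)
    simpa using h4
  have h5 : ∑' p : ℕ, B p < ∞ := by
    rw [hB, ENNReal.tsum_add]
    refine ENNReal.add_lt_top.2 ⟨?_, ?_⟩
    · rw [← tsum_subtype G (fun l : ℕ => ENNReal.ofReal (1 / (l : ℝ)))]
      exact hG.tsum_ofReal_lt_top
    · exact (Real.summable_one_div_nat_pow.2 (by norm_num)).tsum_ofReal_lt_top
  refine lt_of_le_of_lt (h1.trans h2) ?_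
  rw [ENNReal.tsum_mul_left]
  exact ENNReal.mul_lt_top (ENNReal.natCast_lt_top _) h5

end Pool.Agent.H62D
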