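import Pool.Agent.W_f569db_h62.NTDefs

/-! From primes of degree one to embeddings into `Q_l`.

Instead of Hensel's lemma we use that for `l` unramified and `𝔭` of degree one above `l` the quotients
`𝓞 F / 𝔭 ^ n` are `ZMod (l ^ n)`, and the universal property of `ℤ_[l]`. -/

namespace Pool.Agent.H62D

open NumberField IsDedekindDomain Polynomial

section NTG

variable {F : Type} [Field F] [NumberField F]

/-- An integer in a prime of norm `l` is divisible by `l`. -/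
theorem ntg_dvd_of_mem {l : ℕ} (hl : l.Prime) {P : Ideal (𝓞 F)} (hP : P ≠ ⊤)
    (hlP : (l : 𝓞 F) ∈ P) {m : ℤ} (hm : (m : 𝓞 F) ∈ P) : (l : ℤ) ∣ m := by
  by_contra hdvd
  have hcop : IsCoprime (l : ℤ) m :=
    (Int.prime_iff_natAbs_prime.mpr (by simpa using hl)).irreducible.coprime_iff_not_dvd.mpr hdvd
  obtain ⟨a, b, hab⟩ := hcop
  apply hP
  rw [Ideal.eq_top_iff_one]
  have h1 : (1 : 𝓞 F) = (a : 𝓞 F) * (l : 𝓞 F) + (b : 𝓞 F) * (m : 𝓞 F) := by
    have := congrArg (fun z : ℤ => (z : 𝓞 F)) hab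
    push_cast at this
    exact this.symm
  rw [h1]
  exact P.add_mem (P.mul_mem_left _ hlP) (P.mul_mem_left _ hm)

/-- Integers in powers of an unramified prime of norm `l`. -/
theorem ntg_mem_pow_iff {l : ℕ} (hl : l.Prime) (P : HeightOneSpectrum (𝓞 F))
    (hlP : (l : 𝓞 F) ∈ P.asIdeal) (hl2 : (l : 𝓞 F) ∉ P.asIdeal ^ 2) (n : ℕ) (m : ℤ) :
    (m : 𝓞 F) ∈ P.asIdeal ^ n ↔ ((l ^ n : ℕ) : ℤ) ∣ m := by
  constructor
  · induction n generalizing m with
    | zero => intro _; simp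
    | succ n ih =>
      intro hm
      have hmP : (m : 𝓞 F) ∈ P.asIdeal := Ideal.pow_le_self (Nat.succ_ne_zero n) hm
      obtain ⟨m', rfl⟩ := ntg_dvd_of_mem hl P.isPrime.ne_top hlP hmP
      -- `span {l} = P * J` with `P ∤ J`
      have hPl : P.asIdeal ∣ Ideal.span {(l : 𝓞 F)} := by
        rw [Ideal.dvd_iff_le, Ideal.span_singleton_le_iff_mem]
        exact hlP
      obtain ⟨J, hJ⟩ := hPl
      have hPJ : ¬ P.asIdeal ∣ J := by
        rintro ⟨J', rfl⟩
        apply hl2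
        rw [← Ideal.span_singleton_le_iff_mem, ← Ideal.dvd_iff_le]
        refine ⟨J', ?_⟩
        rw [hJ, pow_two, mul_assoc]
      have hprime : Prime P.asIdeal := P.prime
      have h2 : P.asIdeal ^ (n + 1) ∣ P.asIdeal * (J * Ideal.span {(m' : 𝓞 F)}) := by
        rw [← mul_assoc, ← hJ, Ideal.span_singleton_mul_span_singleton, Ideal.dvd_iff_le,
          Ideal.span_singleton_le_iff_mem]
        have : (((l : ℤ) * m' : ℤ) : 𝓞 F) = (l : 𝓞 F) * (m' : 𝓞 F) := by push_cast; ring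
        rwa [this] at hm
      rw [pow_succ'] at h2
      have h3 : P.asIdeal ^ n ∣ J * Ideal.span {(m' : 𝓞 F)} :=
        (mul_dvd_mul_iff_left hprime.ne_zero).mp h2
      have h4 : P.asIdeal ^ n ∣ Ideal.span {(m' : 𝓞 F)} :=
        hprime.pow_dvd_of_dvd_mul_left n hPJ h3
      rw [Ideal.dvd_iff_le, Ideal.span_singleton_le_iff_mem] at h4
      have h5 := ih m' h4
      rw [pow_succ']
      push_cast
      push_cast at h5
      exact mul_dvd_mul_left _ h5
  · rintro ⟨k, rfl⟩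
    push_cast
    exact Ideal.mul_mem_right _ _ (Ideal.pow_mem_pow hlP n)

/-- The quotient by a power of an unramified prime of norm `l`. -/
theorem ntg_exists_hom {l : ℕ} (hl : l.Prime) (P : HeightOneSpectrum (𝓞 F))
    (hN : Ideal.absNorm P.asIdeal = l) (hl2 : (l : 𝓞 F) ∉ P.asIdeal ^ 2) (n : ℕ) :
    ∃ f : 𝓞 F →+* ZMod (l ^ n), ∀ x, f x = 0 ↔ x ∈ P.asIdeal ^ n := by
  classical
  have hlP : (l : 𝓞 F) ∈ P.asIdeal := by
    have := Ideal.absNorm_mem P.asIdeal
    rwa [hN] at this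
  have hcard : Nat.card (𝓞 F ⧸ P.asIdeal ^ n) = l ^ n := by
    have h1 : Ideal.absNorm (P.asIdeal ^ n) = l ^ n := by rw [map_pow, hN]
    rw [Ideal.absNorm_apply] at h1
    exact h1
  have hpos : 0 < l ^ n := pow_pos hl.pos n
  haveI : Finite (𝓞 F ⧸ P.asIdeal ^ n) := Nat.finite_of_card_ne_zero (by rw [hcard]; omega)
  haveI : Fintype (𝓞 F ⧸ P.asIdeal ^ n) := Fintype.ofFinite _
  haveI : CharP (𝓞 F ⧸ P.asIdeal ^ n) (l ^ n) := by
    constructor
    intro m
    have := ntg_mem_pow_iff hl P hlP hl2 n (m : ℤ)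
    rw [Int.natCast_dvd_natCast, Int.cast_natCast] at this
    rw [← this, ← Ideal.Quotient.eq_zero_iff_mem, map_natCast]
  have hcard' : Fintype.card (𝓞 F ⧸ P.asIdeal ^ n) = l ^ n := by
    rw [← Nat.card_eq_fintype_card, hcard]
  let e : ZMod (l ^ n) ≃+* (𝓞 F ⧸ P.asIdeal ^ n) := ZMod.ringEquiv _ hcard'
  refine ⟨(e.symm : (𝓞 F ⧸ P.asIdeal ^ n) →+* ZMod (l ^ n)).comp (Ideal.Quotient.mk _), ?_⟩
  intro x
  rw [RingHom.comp_apply, RingEquiv.coe_toRingHom, map_eq_zero_iff _ e.symm.injective,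
    Ideal.Quotient.eq_zero_iff_mem]

end NTG

/-- For almost all `l` every prime of degree one above `l` comes from an embedding into `Q_l`.

Proof. `S` = the prime divisors of the norm of the different. For `l ∉ S`, `absNorm 𝔭 = l`, one has
`l ∉ 𝔭 ^ 2`, so an integer lies in `𝔭 ^ n` iff it is divisible by `l ^ n`, and
`𝓞 F / 𝔭 ^ n ≅ ZMod (l ^ n)` by counting. These maps are compatible and give `𝓞 F → ℤ_[l]`. -/
theorem exists_embedding_of_prime (F : Type) [Field F] [NumberField F] :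
    ∃ S : Finset ℕ, ∀ (l : ℕ) [Fact l.Prime], l ∉ S → ∀ P : HeightOneSpectrum (𝓞 F),
      Ideal.absNorm P.asIdeal = l →
        ∃ τ : F →+* ℚ_[l], ∀ x : 𝓞 F, x ∈ P.asIdeal ↔ ‖τ (x : F)‖ < 1 := by
  classical
  refine ⟨(Ideal.absNorm (differentIdeal ℤ (𝓞 F))).primeFactors, ?_⟩
  intro l hlF hlS P hN
  have hl : l.Prime := hlF.out
  have hlP : (l : 𝓞 F) ∈ P.asIdeal := by
    have := Ideal.absNorm_mem P.asIdeal
    rwa [hN] at this
  have hl2 : (l : 𝓞 F) ∉ P.asIdeal ^ 2 := by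
    intro hmem
    apply hlS
    haveI : (Ideal.span {(l : ℤ)}).IsMaximal :=
      PrincipalIdealRing.isMaximal_of_irreducible
        (Int.prime_iff_natAbs_prime.mpr (by simpa using hl)).irreducible
    have hne : (Ideal.span {(l : ℤ)}) ≠ ⊥ := by
      rw [Ne, Ideal.span_singleton_eq_bot]
      exact_mod_cast hl.ne_zero
    have hdvd : P.asIdeal ^ 2 ∣ (Ideal.span {(l : ℤ)}).map (algebraMap ℤ (𝓞 F)) := by
      rw [Ideal.dvd_iff_le, Ideal.map_span, Set.image_singleton, Ideal.span_singleton_le_iff_mem]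
      simpa using hmem
    have h1 := pow_sub_one_dvd_differentIdeal (A := ℤ) P.asIdeal 2 hne hdvd
    have h2 : P.asIdeal ∣ differentIdeal ℤ (𝓞 F) := by simpa using h1
    have h3 : Ideal.absNorm P.asIdeal ∣ Ideal.absNorm (differentIdeal ℤ (𝓞 F)) :=
      Ideal.absNorm_dvd_absNorm_of_le (Ideal.dvd_iff_le.mp h2)
    rw [hN] at h3
    have h4 : Ideal.absNorm (differentIdeal ℤ (𝓞 F)) ≠ 0 := by
      rw [Ne, Ideal.absNorm_eq_zero_iff]
      exact differentIdeal_ne_bot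
    exact Nat.mem_primeFactors.mpr ⟨hl, h3, h4⟩
  choose f hf using ntg_exists_hom hl P hN hl2
  have hcompat : ∀ (k1 k2 : ℕ) (hk : k1 ≤ k2),
      (ZMod.castHom (pow_dvd_pow l hk) (ZMod (l ^ k1))).comp (f k2) = f k1 := by
    intro k1 k2 hk
    ext x
    obtain ⟨m, hm⟩ := ZMod.intCast_surjective (f k2 x)
    have h1 : f k2 (x - (m : 𝓞 F)) = 0 := by
      rw [map_sub, map_intCast, hm, sub_self]
    have h2 : x - (m : 𝓞 F) ∈ P.asIdeal ^ k1 :=
      Ideal.pow_le_pow_right hk ((hf k2 _).mp h1)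
    have h3 : f k1 (x - (m : 𝓞 F)) = 0 := (hf k1 _).mpr h2
    rw [map_sub, map_intCast, sub_eq_zero] at h3
    rw [RingHom.comp_apply, ← hm, map_intCast, h3]
  let φ : 𝓞 F →+* ℤ_[l] := PadicInt.lift (f := f) (fun k1 k2 hk => hcompat k1 k2 hk)
  have hφ : ∀ n x, PadicInt.toZModPow n (φ x) = f n x := by
    intro n x
    have := PadicInt.lift_spec (f := f) (fun k1 k2 hk => hcompat k1 k2 hk) n
    exact congrArg (fun g : 𝓞 F →+* ZMod (l ^ n) => g x) this
  have hφinj : Function.Injective φ := by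
    rw [injective_iff_map_eq_zero]
    intro x hx
    by_contra hx0
    have hker : RingHom.ker φ ≠ ⊥ := by
      intro h
      apply hx0
      have : x ∈ RingHom.ker φ := hx
      rw [h] at this
      simpa using this
    have hm := Ideal.absNorm_mem (RingHom.ker φ)
    rw [RingHom.mem_ker, map_natCast, Nat.cast_eq_zero, Ideal.absNorm_eq_zero_iff] at hm
    exact hker hm
  let ψ : 𝓞 F →+* ℚ_[l] := (PadicInt.Coe.ringHom).comp φ
  have hψinj : Function.Injective ψ := by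
    intro x y hxy
    apply hφinj
    exact PadicInt.ext hxy
  refine ⟨IsFractionRing.lift (A := 𝓞 F) (K := F) hψinj, ?_⟩
  intro x
  have h1 : IsFractionRing.lift (A := 𝓞 F) (K := F) hψinj (x : F) = ψ x :=
    IsFractionRing.lift_algebraMap hψinj x
  rw [h1]
  have h2 : ‖ψ x‖ = ‖φ x‖ := rfl
  rw [h2, PadicInt.norm_lt_one_iff_dvd]
  have h3 : PadicInt.toZModPow 1 (φ x) = 0 ↔ (l : ℤ_[l]) ∣ φ x := by
    rw [← RingHom.mem_ker, PadicInt.ker_toZModPow, Ideal.mem_span_singleton, pow_one]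
  rw [← h3, hφ, hf, pow_one]

end Pool.Agent.H62D
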