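import Pool.Agent.W_f569db_h62.NTDefs

/-! Extending embeddings along the quadratic extension. -/

namespace Pool.Agent.H62D

open NumberField IsDedekindDomain Polynomial

/-- Let `c` be an involution of the number field `M` with fixed field `K₀`, and `τ₀ : K₀ → Q_l` an
embedding. Either `(M, c)` is good at `l`, or `τ₀` extends to an embedding `M → Q_l`.

Proof. `M / K₀` is Galois with group `{1, c}` of order two, so there is `η ∈ M`, `η ≠ 0`,
`c η = - η` (`η = y - c y` for some `y` with `c y ≠ y`), and `M = K₀ ⊕ K₀ η`, `δ = η^2 ∈ K₀`.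
Let `Ω = AlgebraicClosure ℚ_[l]`. As `M / K₀` is algebraic, the embedding
`K₀ → ℚ_[l] → Ω` extends to `τ : M → Ω` (`IsAlgClosed.lift`). If `τ η` lies in (the image of) `ℚ_[l]` then
`τ` maps `M` into `ℚ_[l]`, and this is the extension. Otherwise `τ η ∉ ℚ_[l]` but `(τ η)^2 ∈ ℚ_[l]`; since
`Ω / ℚ_[l]` is Galois (algebraic, normal, characteristic 0) there is `σ` in its Galois group with
`σ (τ η) ≠ τ η`, so `σ (τ η) = - τ η`. Then `σ ∘ τ` and `τ ∘ c` agree on `K₀` and on `η`, so they are
equal: `(M, c)` is good at `l`. -/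
theorem good_or_extends (M : Type) [Field M] [NumberField M] (c : M ≃ₐ[ℚ] M) (hc : c ≠ 1)
    (hc2 : ∀ x, c (c x) = x) (l : ℕ) [Fact l.Prime]
    (τ₀ : IntermediateField.fixedField (Subgroup.zpowers c) →+* ℚ_[l]) :
    Good M c l ∨ ∃ τ : M →+* ℚ_[l],
      ∀ x : IntermediateField.fixedField (Subgroup.zpowers c), τ (x : M) = τ₀ x := by
  classical
  -- membership in the fixed field
  have hmem : ∀ x : M, c x = x → x ∈ IntermediateField.fixedField (Subgroup.zpowers c) := by
    intro x hx
    rw [IntermediateField.mem_fixedField_iff]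
    have hle : Subgroup.zpowers c ≤ MulAction.stabilizer (M ≃ₐ[ℚ] M) x := by
      rw [Subgroup.zpowers_le, MulAction.mem_stabilizer_iff]
      exact hx
    intro f hf
    exact MulAction.mem_stabilizer_iff.mp (hle hf)
  have hfix : ∀ x : IntermediateField.fixedField (Subgroup.zpowers c), c (x : M) = x := by
    intro x
    exact (IntermediateField.mem_fixedField_iff _ _).mp x.2 c (Subgroup.mem_zpowers c)
  -- the element `η`
  obtain ⟨y, hy⟩ : ∃ y, c y ≠ y := by
    by_contra h
    push Not at h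
    exact hc (AlgEquiv.ext h)
  obtain ⟨η, hη0, hηc⟩ : ∃ η : M, η ≠ 0 ∧ c η = -η := by
    refine ⟨y - c y, sub_ne_zero.mpr (Ne.symm hy), ?_⟩
    rw [map_sub, hc2]; ring
  have hdec : ∀ x : M, ∃ a b : IntermediateField.fixedField (Subgroup.zpowers c),
      x = (a : M) + (b : M) * η := by
    intro x
    have ha : c ((x + c x) / 2) = (x + c x) / 2 := by
      rw [map_div₀, map_add, hc2, map_ofNat, add_comm]
    have hb : c ((x - c x) / (2 * η)) = (x - c x) / (2 * η) := by
      rw [map_div₀, map_sub, hc2, map_mul, map_ofNat, hηc]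
      rw [mul_neg, div_neg, ← neg_div, neg_sub]
    refine ⟨⟨_, hmem _ ha⟩, ⟨_, hmem _ hb⟩, ?_⟩
    have h2 : (2 : M) ≠ 0 := two_ne_zero
    field_simp
    ring
  have hη2 : c (η ^ 2) = η ^ 2 := by
    rw [map_pow, hηc]; ring
  let δ : IntermediateField.fixedField (Subgroup.zpowers c) := ⟨η ^ 2, hmem _ hη2⟩
  -- the extension to the algebraic closure
  letI : Algebra (IntermediateField.fixedField (Subgroup.zpowers c)) (AlgebraicClosure ℚ_[l]) :=
    ((algebraMap ℚ_[l] (AlgebraicClosure ℚ_[l])).comp τ₀).toAlgebra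
  let τ' : M →ₐ[IntermediateField.fixedField (Subgroup.zpowers c)] (AlgebraicClosure ℚ_[l]) :=
    IsAlgClosed.lift
  let τ : M →+* AlgebraicClosure ℚ_[l] := τ'.toRingHom
  have hτ : ∀ x : IntermediateField.fixedField (Subgroup.zpowers c),
      τ (x : M) = algebraMap ℚ_[l] (AlgebraicClosure ℚ_[l]) (τ₀ x) := by
    intro x
    exact τ'.commutes x
  by_cases hcase : τ η ∈ Set.range (algebraMap ℚ_[l] (AlgebraicClosure ℚ_[l]))
  · right
    obtain ⟨z, hz⟩ := hcase
    have hrange : ∀ x : M, ∃ w : ℚ_[l], algebraMap ℚ_[l] (AlgebraicClosure ℚ_[l]) w = τ x := by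
      intro x
      obtain ⟨a, b, rfl⟩ := hdec x
      refine ⟨τ₀ a + τ₀ b * z, ?_⟩
      rw [map_add, map_mul, map_add, map_mul, hτ, hτ, hz]
    choose g hg using hrange
    have hinj : Function.Injective (algebraMap ℚ_[l] (AlgebraicClosure ℚ_[l])) :=
      (algebraMap ℚ_[l] (AlgebraicClosure ℚ_[l])).injective
    refine ⟨{ toFun := g
              map_one' := hinj (by rw [hg, map_one, map_one])
              map_mul' := fun x y => hinj (by rw [hg, map_mul, map_mul, hg, hg])
              map_zero' := hinj (by rw [hg, map_zero, map_zero])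
              map_add' := fun x y => hinj (by rw [hg, map_add, map_add, hg, hg]) }, ?_⟩
    intro x
    apply hinj
    change algebraMap ℚ_[l] (AlgebraicClosure ℚ_[l]) (g (x : M)) = _
    rw [hg, hτ]
  · left
    haveI : IsGalois ℚ_[l] (AlgebraicClosure ℚ_[l]) := IsAlgClosure.isGalois _ _
    rw [InfiniteGalois.mem_range_algebraMap_iff_fixed] at hcase
    push Not at hcase
    obtain ⟨σ, hσ⟩ := hcase
    have hsq : σ (τ η) ^ 2 = τ η ^ 2 := by
      have h1 : τ η ^ 2 = algebraMap ℚ_[l] (AlgebraicClosure ℚ_[l]) (τ₀ δ) := by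
        rw [← map_pow]
        exact hτ δ
      rw [← map_pow, h1]
      exact σ.commutes _
    have hneg : σ (τ η) = -τ η := by
      rcases sq_eq_sq_iff_eq_or_eq_neg.mp hsq with h | h
      · exact absurd h hσ
      · exact h
    refine ⟨τ, σ, ?_⟩
    intro x
    obtain ⟨a, b, rfl⟩ := hdec x
    rw [map_add τ, map_mul τ, map_add σ, map_mul σ, hneg, map_add c, map_mul c, hfix, hfix, hηc,
      map_add τ, map_mul τ, map_neg τ, hτ, hτ]
    rw [AlgEquiv.commutes, AlgEquiv.commutes]

end Pool.Agent.H62D
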