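import Pool.Agent.W_f569db_h62.NTF
import Pool.Agent.W_f569db_h62.NTG
import Pool.Agent.W_f569db_h62.NTH

/-! Primes of degree one of the fixed field split at bad `l`. -/

namespace Pool.Agent.H62D

open NumberField IsDedekindDomain Polynomial

/-- the prime of an extension of an embedding lies above the prime of the embedding -/
theorem nti_comap (M : Type) [Field M] [NumberField M] (K : IntermediateField ℚ M) (l : ℕ)
    [Fact l.Prime] (τ₀ : K →+* ℚ_[l]) (τ : M →+* ℚ_[l]) (hτ : ∀ x : K, τ (x : M) = τ₀ x)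
    (P : HeightOneSpectrum (𝓞 K)) (hP : ∀ x : 𝓞 K, x ∈ P.asIdeal ↔ ‖τ₀ (x : K)‖ < 1)
    (Q : HeightOneSpectrum (𝓞 M)) (hQ : ∀ x : 𝓞 M, x ∈ Q.asIdeal ↔ ‖τ (x : M)‖ < 1) :
    Q.asIdeal.comap (algebraMap (𝓞 K) (𝓞 M)) = P.asIdeal := by
  ext x
  rw [Ideal.mem_comap, hQ, hP]
  have h : ((algebraMap (𝓞 K) (𝓞 M) x : 𝓞 M) : M) = ((x : K) : M) := by
    rfl
  rw [h, hτ]

/-- Proof. Let `S` be the union of the finite sets of `exists_embedding_of_prime` (for `K₀`) and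
`exists_separating` (for `M`, `c`). Let `l ∉ S` be a prime, not good, and `𝔭` a prime of `K₀` with
`absNorm 𝔭 = l`. Let `τ₀` be as in `exists_embedding_of_prime`; by `good_or_extends` it extends to
`τ : M → ℚ_[l]`. Put `τ' = τ ∘ c`; it also extends `τ₀` because `c` fixes `K₀`. Let `𝔓₁`, `𝔓₂` be the
primes of `τ`, `τ'` (`exists_prime_of_embedding`): they have norm `l`, they lie above `𝔭` (for
`x ∈ 𝓞 K₀`: `x ∈ 𝔓_i` iff `‖τ₀ x‖ < 1` iff `x ∈ 𝔭`), and they are different by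
`exists_separating`. -/
theorem split_of_bad (M : Type) [Field M] [NumberField M] (c : M ≃ₐ[ℚ] M) (hc : c ≠ 1)
    (hc2 : ∀ x, c (c x) = x) :
    ∃ S : Finset ℕ, ∀ l : ℕ, l ∉ S → l ∉ GoodSet M c →
      ∀ P : HeightOneSpectrum (𝓞 (IntermediateField.fixedField (Subgroup.zpowers c))),
        Ideal.absNorm P.asIdeal = l → l.Prime →
          ∃ P₁ P₂ : HeightOneSpectrum (𝓞 M), P₁ ≠ P₂ ∧
            Ideal.absNorm P₁.asIdeal = l ∧ Ideal.absNorm P₂.asIdeal = l ∧
            P₁.asIdeal.comap (algebraMap (𝓞 (IntermediateField.fixedField (Subgroup.zpowers c)))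
              (𝓞 M)) = P.asIdeal ∧
            P₂.asIdeal.comap (algebraMap (𝓞 (IntermediateField.fixedField (Subgroup.zpowers c)))
              (𝓞 M)) = P.asIdeal := by
  classical
  obtain ⟨S₁, hS₁⟩ :=
    exists_embedding_of_prime (IntermediateField.fixedField (Subgroup.zpowers c))
  obtain ⟨S₂, hS₂⟩ := exists_separating M c hc
  refine ⟨S₁ ∪ S₂, fun l hl hbad P hP hlp => ?_⟩
  have hfact : Fact l.Prime := ⟨hlp⟩
  rw [Finset.mem_union, not_or] at hl
  obtain ⟨τ₀, hτ₀⟩ := hS₁ l hl.1 P hP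
  have hng : ¬ Good M c l := fun h => hbad ⟨hlp, h⟩
  obtain ⟨τ, hτ⟩ := (good_or_extends M c hc hc2 l τ₀).resolve_left hng
  let τ' : M →+* ℚ_[l] := τ.comp (c : M →+* M)
  have hτ' : ∀ x : IntermediateField.fixedField (Subgroup.zpowers c), τ' (x : M) = τ₀ x := by
    intro x
    have h1 : c (x : M) = x := by
      have := x.2
      rw [IntermediateField.mem_fixedField_iff] at this
      exact this c (Subgroup.mem_zpowers c)
    show τ (c (x : M)) = τ₀ x
    rw [h1]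
    exact hτ x
  obtain ⟨P₁, h1, h2⟩ := exists_prime_of_embedding M l τ
  obtain ⟨P₂, h3, h4⟩ := exists_prime_of_embedding M l τ'
  obtain ⟨x, hx1, hx2⟩ := hS₂ l hl.2 τ
  refine ⟨P₁, P₂, ?_, h1, h3, nti_comap M _ l τ₀ τ hτ P hτ₀ P₁ h2,
    nti_comap M _ l τ₀ τ' hτ' P hτ₀ P₂ h4⟩
  rintro rfl
  exact hx2 ((h4 x).1 ((h2 x).2 hx1))

end Pool.Agent.H62D
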