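import Pool.Agent.W_f569db_h62.NTB
import Pool.Agent.W_f569db_h62.NTC
import Pool.Agent.W_f569db_h62.NTD
import Pool.Agent.W_f569db_h62.NTE
import Pool.Agent.W_f569db_h62.NTI

/-! The set of good primes has divergent sum of reciprocals. -/

namespace Pool.Agent.H62D

open NumberField IsDedekindDomain Polynomial
open scoped ENNReal

theorem NTJ_absNorm_ge (F : Type) [Field F] [NumberField F] (P : HeightOneSpectrum (𝓞 F)) :
    2 ≤ Ideal.absNorm P.asIdeal := by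
  have h0 : Ideal.absNorm P.asIdeal ≠ 0 := by
    rw [Ne, Ideal.absNorm_eq_zero_iff]
    exact P.ne_bot
  have h1 : Ideal.absNorm P.asIdeal ≠ 1 := by
    rw [Ne, Ideal.absNorm_eq_one_iff]
    exact P.isPrime.ne_top
  omega

theorem NTJ_wt_lt_one (F : Type) [Field F] [NumberField F] (P : HeightOneSpectrum (𝓞 F)) :
    wt F 1 P < 1 := by
  unfold wt
  have h2 := NTJ_absNorm_ge F P
  have h3 : (2 : ℝ) ≤ (Ideal.absNorm P.asIdeal : ℝ) := by exact_mod_cast h2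
  rw [ENNReal.ofReal_lt_one, Real.rpow_neg_one]
  exact inv_lt_one_of_one_lt₀ (by linarith)

theorem NTJ_wt_le (F : Type) [Field F] [NumberField F] (s : ℝ) (hs : 1 ≤ s)
    (P : HeightOneSpectrum (𝓞 F)) : wt F s P ≤ wt F 1 P := by
  unfold wt
  have h2 := NTJ_absNorm_ge F P
  have h3 : (2 : ℝ) ≤ (Ideal.absNorm P.asIdeal : ℝ) := by exact_mod_cast h2
  apply ENNReal.ofReal_le_ofReal
  exact Real.rpow_le_rpow_of_exponent_le (by linarith) (by linarith)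

theorem NTJ_summable_union (A : Set ℕ) (S : Finset ℕ)
    (hA : Summable (fun l : A => (1 : ℝ) / (l : ℕ))) :
    Summable (fun l : (A ∪ (S : Set ℕ) : Set ℕ) => (1 : ℝ) / (l : ℕ)) := by
  have h1 : Summable (A.indicator (fun l : ℕ => (1 : ℝ) / l)) :=
    summable_subtype_iff_indicator.1 hA
  have h2 : Summable ((S : Set ℕ).indicator (fun l : ℕ => (1 : ℝ) / l)) :=
    summable_of_ne_finset_zero (s := S) (fun b hb => Set.indicator_of_notMem
      (fun h => hb (Finset.mem_coe.1 h)) _)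
  have h3 : Summable ((A ∪ (S : Set ℕ)).indicator (fun l : ℕ => (1 : ℝ) / l)) := by
    refine Summable.of_nonneg_of_le (fun l => ?_) (fun l => ?_) (h1.add h2)
    · exact Set.indicator_nonneg (fun l _ => by positivity) l
    · by_cases hl : l ∈ A
      · rw [Set.indicator_of_mem (Set.mem_union_left _ hl), Set.indicator_of_mem hl]
        exact le_add_of_nonneg_right (Set.indicator_nonneg (fun l _ => by positivity) l)
      · by_cases hl' : l ∈ (S : Set ℕ)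
        · rw [Set.indicator_of_mem (Set.mem_union_right _ hl'), Set.indicator_of_mem hl']
          exact le_add_of_nonneg_left (Set.indicator_nonneg (fun l _ => by positivity) l)
        · rw [Set.indicator_of_notMem (fun h => h.elim hl hl')]
          exact add_nonneg (Set.indicator_nonneg (fun l _ => by positivity) l)
            (Set.indicator_nonneg (fun l _ => by positivity) l)
  exact summable_subtype_iff_indicator.2 h3

/-- the abstract comparison of the two zeta functions -/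
theorem NTJ_compare (K M : Type) [Field K] [NumberField K] [Field M] [NumberField M]
    (pB : HeightOneSpectrum (𝓞 K) → Prop)
    (P₁ P₂ : {P : HeightOneSpectrum (𝓞 K) // ¬ pB P} → HeightOneSpectrum (𝓞 M))
    (h1 : ∀ P Q, P₁ P = P₁ Q → P = Q) (h2 : ∀ P Q, P₂ P = P₂ Q → P = Q)
    (h12 : ∀ P Q, P₁ P ≠ P₂ Q)
    (n1 : ∀ P, Ideal.absNorm (P₁ P).asIdeal = Ideal.absNorm P.1.asIdeal)
    (n2 : ∀ P, Ideal.absNorm (P₂ P).asIdeal = Ideal.absNorm P.1.asIdeal) (s : ℝ) (hs : 1 ≤ s) :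
    (Zid K s) ^ 2 ≤ (Zms (fun P : {P : HeightOneSpectrum (𝓞 K) // pB P} => wt K 1 P.1)) ^ 2 *
      Zid M s := by
  classical
  have e1 : Zid K s =
      Zms (fun P : {P : HeightOneSpectrum (𝓞 K) // pB P} => wt K s P.1) *
      Zms (fun P : {P : HeightOneSpectrum (𝓞 K) // ¬ pB P} => wt K s P.1) := by
    rw [Zid_eq_Zms, ← Zms_sum]
    refine (Zms_equiv _ _ (Equiv.sumCompl pB) ?_).symm
    rintro (a | a)
    · rfl
    · rfl
  have e2 : Zms (fun P : {P : HeightOneSpectrum (𝓞 K) // pB P} => wt K s P.1) ≤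
      Zms (fun P : {P : HeightOneSpectrum (𝓞 K) // pB P} => wt K 1 P.1) :=
    Zms_le _ _ id Function.injective_id (fun a => NTJ_wt_le K s hs a.1)
  have e3 : (Zms (fun P : {P : HeightOneSpectrum (𝓞 K) // ¬ pB P} => wt K s P.1)) ^ 2 ≤
      Zid M s := by
    rw [Zid_eq_Zms, sq, ← Zms_sum]
    refine Zms_le _ _ (Sum.elim P₁ P₂) ?_ ?_
    · rintro (a | a) (b | b) hab
      · exact congrArg Sum.inl (h1 a b hab)
      · exact absurd hab (h12 a b)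
      · exact absurd hab.symm (h12 b a)
      · exact congrArg Sum.inr (h2 a b hab)
    · rintro (a | a)
      · show wt K s a.1 ≤ wt M s (P₁ a)
        unfold wt
        rw [n1 a]
      · show wt K s a.1 ≤ wt M s (P₂ a)
        unfold wt
        rw [n2 a]
  rw [e1, mul_pow]
  exact mul_le_mul' (pow_le_pow_left₀ zero_le e2 2) e3

/-- the numerical contradiction -/
theorem NTJ_num (Z₁ Z₂ : ℝ → ℝ≥0∞) (Zb : ℝ≥0∞) (hZb : Zb < ∞)
    (h : ∀ s, 1 < s → (Z₁ s) ^ 2 ≤ Zb ^ 2 * Z₂ s)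
    (c₁ s₁ C₂ s₂ : ℝ) (hc₁ : 0 < c₁) (hs₁ : 1 < s₁) (hC₂ : 0 < C₂) (hs₂ : 1 < s₂)
    (h₁ : ∀ s, 1 < s → s < s₁ → ENNReal.ofReal (c₁ / (s - 1)) ≤ Z₁ s)
    (h₂ : ∀ s, 1 < s → s < s₂ → Z₂ s ≤ ENNReal.ofReal (C₂ / (s - 1))) : False := by
  obtain ⟨z, hz0, hz⟩ : ∃ z : ℝ, 0 ≤ z ∧ Zb = ENNReal.ofReal z :=
    ⟨Zb.toReal, ENNReal.toReal_nonneg, (ENNReal.ofReal_toReal hZb.ne).symm⟩
  obtain ⟨t, ht0, ht1, ht2, ht3⟩ : ∃ t : ℝ, 0 < t ∧ t < s₁ - 1 ∧ t < s₂ - 1 ∧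
      z ^ 2 * C₂ * t < c₁ ^ 2 := by
    have hpos : 0 < z ^ 2 * C₂ + 1 := by positivity
    refine ⟨min (min ((s₁ - 1) / 2) ((s₂ - 1) / 2)) (c₁ ^ 2 / (z ^ 2 * C₂ + 1) / 2), ?_, ?_, ?_, ?_⟩
    · refine lt_min (lt_min (by linarith) (by linarith)) (by positivity)
    · exact lt_of_le_of_lt ((min_le_left _ _).trans (min_le_left _ _)) (by linarith)
    · exact lt_of_le_of_lt ((min_le_left _ _).trans (min_le_right _ _)) (by linarith)
    · set t := min (min ((s₁ - 1) / 2) ((s₂ - 1) / 2)) (c₁ ^ 2 / (z ^ 2 * C₂ + 1) / 2) with ht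
      have h3 : t ≤ c₁ ^ 2 / (z ^ 2 * C₂ + 1) / 2 := min_le_right _ _
      have h4 : 0 ≤ z ^ 2 * C₂ := by positivity
      calc z ^ 2 * C₂ * t ≤ z ^ 2 * C₂ * (c₁ ^ 2 / (z ^ 2 * C₂ + 1) / 2) :=
            mul_le_mul_of_nonneg_left h3 h4
        _ ≤ (z ^ 2 * C₂ + 1) * (c₁ ^ 2 / (z ^ 2 * C₂ + 1) / 2) :=
            mul_le_mul_of_nonneg_right (by linarith) (by positivity)
        _ = c₁ ^ 2 / 2 := by field_simp
        _ < c₁ ^ 2 := by
            have : 0 < c₁ ^ 2 := by positivity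
            linarith
  have hs : (1 : ℝ) < 1 + t := by linarith
  have a1 := h₁ (1 + t) hs (by linarith)
  have a2 := h₂ (1 + t) hs (by linarith)
  have a3 := h (1 + t) hs
  have e : (1 + t) - 1 = t := by ring
  rw [e] at a1 a2
  have a4 : (ENNReal.ofReal (c₁ / t)) ^ 2 ≤ (ENNReal.ofReal z) ^ 2 * ENNReal.ofReal (C₂ / t) := by
    calc (ENNReal.ofReal (c₁ / t)) ^ 2 ≤ (Z₁ (1 + t)) ^ 2 := pow_le_pow_left₀ zero_le a1 2
      _ ≤ Zb ^ 2 * Z₂ (1 + t) := a3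
      _ ≤ (ENNReal.ofReal z) ^ 2 * ENNReal.ofReal (C₂ / t) := by
          rw [hz]
          exact mul_le_mul' le_rfl a2
  rw [← ENNReal.ofReal_pow (by positivity), ← ENNReal.ofReal_pow hz0,
    ← ENNReal.ofReal_mul (by positivity), ENNReal.ofReal_le_ofReal_iff (by positivity)] at a4
  have a5 : (c₁ / t) ^ 2 * t ^ 2 ≤ z ^ 2 * (C₂ / t) * t ^ 2 :=
    mul_le_mul_of_nonneg_right a4 (by positivity)
  have a6 : (c₁ / t) ^ 2 * t ^ 2 = c₁ ^ 2 := by
    rw [← mul_pow, div_mul_cancel₀ _ ht0.ne']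
  have a7 : z ^ 2 * (C₂ / t) * t ^ 2 = z ^ 2 * C₂ * t := by
    field_simp
  rw [a6, a7] at a5
  linarith

/-- Proof. Suppose `∑_{l ∈ GoodSet} 1/l < ∞`, let `S` be as in `split_of_bad`, `G = GoodSet ∪ S`, still with
convergent sum of reciprocals. Let `K₀` be the fixed field, `B` the set of primes of `K₀` of
`tsum_bad_lt_top K₀ G` and `A` the complement of `B`: the primes `𝔭` with `N 𝔭 = l` prime,
`l ∉ G`. For `𝔭 ∈ A` choose the primes `P₁(𝔭) ≠ P₂(𝔭)` of `M` by `split_of_bad`; the map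
`A ⊕ A → primes of M` (`inl 𝔭 ↦ P₁ 𝔭`, `inr 𝔭 ↦ P₂ 𝔭`) is injective, because the `comap` recovers `𝔭` and
`P₁ 𝔭 ≠ P₂ 𝔭`, and preserves norms. Write `w_s` for `wt K₀ s`. For `s > 1`:
`Zid K₀ s = Zms w_s = Zms (w_s|A) * Zms (w_s|B) ≤ Zms (w_s|A) * Zb`, where `Zb = Zms (w_1|B)` is finite
by `Zms_lt_top` and `tsum_bad_lt_top` (the weights `N^(-1) ≤ 1/2 < 1`; `w_s ≤ w_1`), and
`(Zms (w_s|A))^2 = Zms (w_s|A ⊕ w_s|A) ≤ Zms (wt M s) = Zid M s`
(`Zid_eq_Zms`, `Zms_equiv`, `Zms_sum`, `Zms_le`). By `Zid_asymp` for `K₀` and `M`, for `s` close to `1`: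
`(c/(s-1))^2 ≤ (Zid K₀ s)^2 ≤ Zb^2 * Zid M s ≤ Zb^2 * C/(s-1)`, so `c^2 ≤ Zb^2 C (s-1)`; let `s → 1`:
contradiction. -/
theorem not_summable_good (M : Type) [Field M] [NumberField M] (c : M ≃ₐ[ℚ] M) (hc : c ≠ 1)
    (hc2 : ∀ x, c (c x) = x) :
    ¬ Summable (fun l : GoodSet M c => (1 : ℝ) / (l : ℕ)) := by
  intro hsum
  obtain ⟨S, hS⟩ := split_of_bad M c hc hc2
  set K₀ := IntermediateField.fixedField (Subgroup.zpowers c) with hK₀
  have hG := NTJ_summable_union (GoodSet M c) S hsum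
  set G : Set ℕ := GoodSet M c ∪ (S : Set ℕ) with hGdef
  have hB := tsum_bad_lt_top K₀ G hG
  set pB : HeightOneSpectrum (𝓞 K₀) → Prop := fun P =>
    ¬ (Ideal.absNorm P.asIdeal).Prime ∨ Ideal.absNorm P.asIdeal ∈ G with hpB
  have hA : ∀ P : {P : HeightOneSpectrum (𝓞 K₀) // ¬ pB P},
      ∃ P₁ P₂ : HeightOneSpectrum (𝓞 M), P₁ ≠ P₂ ∧
            Ideal.absNorm P₁.asIdeal = Ideal.absNorm P.1.asIdeal ∧
            Ideal.absNorm P₂.asIdeal = Ideal.absNorm P.1.asIdeal ∧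
            P₁.asIdeal.comap (algebraMap (𝓞 K₀) (𝓞 M)) = P.1.asIdeal ∧
            P₂.asIdeal.comap (algebraMap (𝓞 K₀) (𝓞 M)) = P.1.asIdeal := by
    rintro ⟨P, hP⟩
    have hP' := not_or.1 hP
    have hpr : (Ideal.absNorm P.asIdeal).Prime := not_not.1 hP'.1
    exact hS (Ideal.absNorm P.asIdeal) (fun h => hP'.2 (Or.inr (Finset.mem_coe.2 h)))
      (fun h => hP'.2 (Or.inl h)) P rfl hpr
  choose P₁ P₂ hne hn1 hn2 hc1 hc2' using hA
  have hZb : Zms (fun P : {P : HeightOneSpectrum (𝓞 K₀) // pB P} => wt K₀ 1 P.1) < ∞ :=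
    Zms_lt_top _ (fun a => NTJ_wt_lt_one K₀ a.1) hB
  have hext : ∀ P Q : {P : HeightOneSpectrum (𝓞 K₀) // ¬ pB P},
      P.1.asIdeal = Q.1.asIdeal → P = Q := fun P Q h =>
    Subtype.ext (HeightOneSpectrum.ext h)
  have hcmp := fun s (hs : (1 : ℝ) < s) => NTJ_compare K₀ M pB P₁ P₂
    (fun P Q h => hext P Q (by rw [← hc1 P, ← hc1 Q, h]))
    (fun P Q h => hext P Q (by rw [← hc2' P, ← hc2' Q, h]))
    (fun P Q h => by
      have h1 : P = Q := hext P Q (by rw [← hc1 P, ← hc2' Q, h])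
      subst h1
      exact hne P h)
    hn1 hn2 s hs.le
  obtain ⟨c₁, C₁, s₁, hc₁, hC₁, hs₁, H₁⟩ := Zid_asymp K₀
  obtain ⟨c₂, C₂, s₂, hc₂, hC₂, hs₂, H₂⟩ := Zid_asymp M
  exact NTJ_num (Zid K₀) (Zid M) _ hZb hcmp c₁ s₁ C₂ s₂ hc₁ hs₁ hC₂ hs₂
    (fun s h1 h2 => (H₁ s h1 h2).1) (fun s h1 h2 => (H₂ s h1 h2).2)

end Pool.Agent.H62D
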