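import Pool.Agent.W_f569db_h62.NTDefs

/-! From number fields to polynomials. -/

namespace Pool.Agent.H62D

open NumberField Polynomial

/-- A number field which is a splitting field of `f`, with the canonical `ℚ`-algebra structure. -/
theorem ntk_exists_field (f : ℚ[X]) :
    ∃ (M : Type) (_ : Field M) (_ : NumberField M), Polynomial.IsSplittingField ℚ M f := by
  refine ⟨f.SplittingField, inferInstance, ?_, ?_⟩
  · refine { to_charZero := inferInstance, to_finiteDimensional := ?_ }
    convert (inferInstance : FiniteDimensional ℚ f.SplittingField)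
  · convert Polynomial.IsSplittingField.splittingField f
    exact Subsingleton.elim _ _

/-- The splitting field with its complex conjugation.

Proof. Let `M = SplittingField (∏ i, P i)` (a number field: finite over `ℚ`, characteristic 0; note
`P i ≠ 0` because it is separable), choose a `ℚ`-embedding `ι : M → ℂ`. `M / ℚ` is normal, so the
embeddings `ι` and `conj ∘ ι` have the same image and there is `c : M ≃ₐ[ℚ] M` with `ι (c x) = conj (ι x)`
(`AlgHom.restrictNormal`, `AlgHom.normal_bijective` or similar); clearly `c (c x) = x`. If `x ∈ M` is a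
root of `P i` then `ι x` is a complex root, so `ι (g_i(x)) = g_i(ι x) = conj (ι x) = ι (c x)`, so
`g_i(x) = c x`. If `τ : M → Ω` is an embedding into a field then every root of `P i` in `Ω` is `τ x` for
a root `x ∈ M` of `P i`, because `P i` splits in `M`. -/
theorem exists_splitting {r : ℕ} (P g : Fin r → ℚ[X]) (hP : ∀ i, (P i).Separable)
    (hg : ∀ i, ∀ z : ℂ, aeval z (P i) = 0 → aeval z (g i) = starRingEnd ℂ z) :
    ∃ (M : Type) (_ : Field M) (_ : NumberField M) (c : M ≃ₐ[ℚ] M), (∀ x, c (c x) = x) ∧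
      (∀ i (x : M), aeval x (P i) = 0 → c x = aeval x (g i)) ∧
      ∀ (Ω : Type) [Field Ω] [Algebra ℚ Ω] (τ : M →+* Ω) (i : Fin r) (β : Ω),
        aeval β (P i) = 0 → ∃ x : M, τ x = β ∧ aeval x (P i) = 0 := by
  classical
  set f : ℚ[X] := ∏ i, P i with hf
  have hP0 : ∀ i, P i ≠ 0 := fun i => (hP i).ne_zero
  have hf0 : f ≠ 0 := Finset.prod_ne_zero_iff.2 fun i _ => hP0 i
  have hdvd : ∀ i, P i ∣ f := fun i => Finset.dvd_prod_of_mem _ (Finset.mem_univ i)
  obtain ⟨M, hM, hN, hS⟩ := ntk_exists_field f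
  have hsplit : ∀ i, ((P i).map (algebraMap ℚ M)).Splits := fun i =>
    (hS.splits').of_dvd (by simpa [Polynomial.map_eq_zero] using hf0)
      (Polynomial.map_dvd _ (hdvd i))
  haveI : Normal ℚ M := Normal.of_isSplittingField f
  have ι : M →+* ℂ := Classical.choice (inferInstance : Nonempty (M →+* ℂ))
  letI : Algebra M ℂ := ι.toAlgebra
  haveI : IsScalarTower ℚ M ℂ := IsScalarTower.of_algebraMap_eq (fun q => by
    rw [RingHom.algebraMap_toAlgebra]; simp)
  let χ : ℂ ≃ₐ[ℚ] ℂ := Complex.conjAe.restrictScalars ℚ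
  have hχ : ∀ z, χ z = starRingEnd ℂ z := fun z => rfl
  let c : M ≃ₐ[ℚ] M := χ.restrictNormal M
  have hc : ∀ x, algebraMap M ℂ (c x) = starRingEnd ℂ (algebraMap M ℂ x) := fun x =>
    χ.restrictNormal_commutes M x
  refine ⟨M, hM, hN, c, ?_, ?_, ?_⟩
  · intro x
    apply (algebraMap M ℂ).injective
    rw [hc, hc]; simp
  · intro i x hx
    apply (algebraMap M ℂ).injective
    rw [hc]
    have h1 : aeval (algebraMap M ℂ x) (P i) = 0 := by
      rw [aeval_algebraMap_apply, hx, map_zero]
    rw [← hg i _ h1, aeval_algebraMap_apply]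
  · intro Ω _ _ τ i β hβ
    letI : Algebra M Ω := τ.toAlgebra
    haveI : IsScalarTower ℚ M Ω := IsScalarTower.of_algebraMap_eq (fun q => by
      rw [RingHom.algebraMap_toAlgebra]; simp)
    have hinj : Function.Injective (algebraMap ℚ Ω) := (algebraMap ℚ Ω).injective
    have hne : (P i).map (algebraMap ℚ Ω) ≠ 0 := by
      simpa [Polynomial.map_eq_zero] using hP0 i
    have him := (hsplit i).image_rootSet_of_map_ne_zero (IsScalarTower.toAlgHom ℚ M Ω) hne
    have hβ' : β ∈ (P i).rootSet Ω := by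
      rw [mem_rootSet]; exact ⟨hP0 i, hβ⟩
    rw [← him] at hβ'
    obtain ⟨x, hx, rfl⟩ := hβ'
    exact ⟨x, rfl, (mem_rootSet.1 hx).2⟩

end Pool.Agent.H62D
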