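import Pool.Agent.W_f569db_h62.NTJ
import Pool.Agent.W_f569db_h62.NTK

/-! Many primes at which complex conjugation is a Frobenius type automorphism. -/

namespace Pool.Agent.H62D

open NumberField Polynomial

theorem ntl_aux (S : Set ℕ) (hsum : Summable (fun l : S => (1 : ℝ) / (l : ℕ)))
    (hall : ∀ l : Nat.Primes, (l : ℕ) ∈ S) : False := by
  have hinj : Function.Injective (fun l : Nat.Primes => (⟨(l : ℕ), hall l⟩ : S)) := by
    intro a b hab
    simp only [Subtype.mk.injEq] at hab
    exact Subtype.ext hab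
  have h := hsum.comp_injective hinj
  have h2 : Summable (fun p : Nat.Primes => (1 : ℝ) / (p : ℕ)) := by
    refine h.congr (fun p => ?_)
    rfl
  exact Nat.Primes.not_summable_one_div h2

theorem ntl_aux2 (S T : Set ℕ) (hsum : Summable (fun l : S => (1 : ℝ) / (l : ℕ)))
    (hall : T ⊆ S) : Summable (fun l : T => (1 : ℝ) / (l : ℕ)) := by
  have h := hsum.comp_injective (Set.inclusion_injective hall)
  refine h.congr (fun p => ?_)
  rfl

/-- Proof. Take `M`, `c` from `exists_splitting`. Every `l ∈ GoodSet M c` is in `ConjSet P g`: if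
`σ (τ x) = τ (c x)` for all `x` and `β` is a root of `P i` then `β = τ x` with `x` a root of `P i`, and
`σ β = τ (c x) = τ (g_i(x)) = g_i(β)`. If `c ≠ 1` use `not_summable_good` (a subset of a set with
convergent sum of reciprocals has convergent sum). If `c = 1` every prime is good (`σ = refl`,
`τ` any embedding of `M` into the algebraic closure, `IsAlgClosed.lift`) and
`Nat.Primes.not_summable_one_div` applies. -/
theorem not_summable_conjSet {r : ℕ} (P g : Fin r → ℚ[X]) (hP : ∀ i, (P i).Separable)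
    (hg : ∀ i, ∀ z : ℂ, aeval z (P i) = 0 → aeval z (g i) = starRingEnd ℂ z) :
    ¬ Summable (fun l : ConjSet P g => (1 : ℝ) / (l : ℕ)) := by
  obtain ⟨M, hM, hN, c, hcc, hroot, hlift⟩ := exists_splitting P g hP hg
  -- the basic inclusion
  have key : ∀ (l : ℕ) (h : l.Prime), haveI : Fact l.Prime := ⟨h⟩; Good M c l →
      l ∈ ConjSet P g := by
    intro l h hgood
    haveI : Fact l.Prime := ⟨h⟩
    obtain ⟨τ, σ, hσ⟩ := hgood
    refine ⟨h, σ, fun i β hβ => ?_⟩
    obtain ⟨x, rfl, hx⟩ := hlift _ τ i β hβ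
    rw [hσ, hroot i x hx, aeval_def, aeval_def, hom_eval₂]
    congr 1
    exact Subsingleton.elim _ _
  intro hsum
  by_cases hc : c = 1
  · refine ntl_aux _ hsum (fun l => ?_)
    haveI : Fact (l : ℕ).Prime := ⟨l.2⟩
    apply key l l.2
    refine ⟨((IsAlgClosed.lift : M →ₐ[ℚ] AlgebraicClosure ℚ_[(l : ℕ)]) :
      M →+* AlgebraicClosure ℚ_[(l : ℕ)]), AlgEquiv.refl, fun x => ?_⟩
    rw [hc]
    rfl
  · apply not_summable_good M c hc hcc
    refine ntl_aux2 _ _ hsum ?_
    rintro l ⟨h, hgood⟩
    exact key l h hgood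

end Pool.Agent.H62D
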