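import Pool.Agent.W_f569db_h62.QC
import Pool.Agent.W_f569db_h62.NTL

/-! The set `ConjSet` has positive lower Dirichlet density. -/

namespace Pool.Agent.H62D

open NumberField Polynomial
open scoped ENNReal

theorem qd_summable (s : ℝ) (hs : 1 < s) : Summable (fun n : ℕ => (n : ℝ) ^ (-s)) :=
  Real.summable_nat_rpow.2 (by linarith)

theorem qd_psum (G : Set ℕ) (s : ℝ) (hs : 1 < s) :
    (psum G s).toReal = ∑' l : G, ((l : ℕ) : ℝ) ^ (-s) := by
  have h0 : ∀ l : G, 0 ≤ ((l : ℕ) : ℝ) ^ (-s) := fun l => Real.rpow_nonneg (Nat.cast_nonneg _) _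
  have h1 : Summable (fun l : G => ((l : ℕ) : ℝ) ^ (-s)) :=
    (qd_summable s hs).comp_injective Subtype.val_injective
  have h2 : psum G s = ENNReal.ofReal (∑' l : G, ((l : ℕ) : ℝ) ^ (-s)) := by
    rw [ENNReal.ofReal_tsum_of_nonneg h0 h1]
    unfold psum
    exact (tsum_subtype G (fun l : ℕ => ENNReal.ofReal ((l : ℝ) ^ (-s)))).symm
  rw [h2, ENNReal.toReal_ofReal (tsum_nonneg h0)]

/-- From one-sided estimates near `1` to all `s > 1`, and from `psum` to the real series.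

Proof. `(psum G s).toReal = ∑' l : G, (l : ℝ) ^ (-s)` for `s > 1` (summable: `Real.summable_nat_rpow`;
`tsum_subtype`, `ENNReal.ofReal_tsum_of_nonneg`). For `s ≥ s₀` the left side is at most
`δ * log (1 / (s₀ - 1)) ≤ |δ * log (1 / (s₀ - 1))|` and the series is nonnegative, so enlarge `C`. -/
theorem density_all_s (G : Set ℕ) (h : ∃ δ C s₀ : ℝ, 0 < δ ∧ 1 < s₀ ∧ ∀ s, 1 < s → s < s₀ →
    δ * Real.log (1 / (s - 1)) ≤ C + (psum G s).toReal) :
    ∃ δ C : ℝ, 0 < δ ∧ ∀ s : ℝ, 1 < s →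
      δ * Real.log (1 / (s - 1)) ≤ C + ∑' l : G, ((l : ℕ) : ℝ) ^ (-s) := by
  obtain ⟨δ, C, s₀, hδ, hs₀, h⟩ := h
  refine ⟨δ, |C| + |δ * Real.log (1 / (s₀ - 1))|, hδ, fun s hs => ?_⟩
  have h0 : 0 ≤ ∑' l : G, ((l : ℕ) : ℝ) ^ (-s) :=
    tsum_nonneg fun l => Real.rpow_nonneg (Nat.cast_nonneg _) _
  have hC := le_abs_self C
  have hC0 := abs_nonneg C
  have hD0 := abs_nonneg (δ * Real.log (1 / (s₀ - 1)))
  have hD := le_abs_self (δ * Real.log (1 / (s₀ - 1)))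
  rcases lt_or_ge s s₀ with hlt | hge
  · have h1 := h s hs hlt
    rw [qd_psum G s hs] at h1
    linarith
  · have h2 : Real.log (1 / (s - 1)) ≤ Real.log (1 / (s₀ - 1)) := by
      apply Real.log_le_log
      · apply one_div_pos.2; linarith
      · apply one_div_le_one_div_of_le <;> linarith
    have h3 := mul_le_mul_of_nonneg_left h2 hδ.le
    linarith

/-- Monotonicity. -/
theorem density_mono (G H : Set ℕ) (hGH : G ⊆ H) (h : ∃ δ C : ℝ, 0 < δ ∧ ∀ s : ℝ, 1 < s →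
      δ * Real.log (1 / (s - 1)) ≤ C + ∑' l : G, ((l : ℕ) : ℝ) ^ (-s)) :
    ∃ δ C : ℝ, 0 < δ ∧ ∀ s : ℝ, 1 < s →
      δ * Real.log (1 / (s - 1)) ≤ C + ∑' l : H, ((l : ℕ) : ℝ) ^ (-s) := by
  obtain ⟨δ, C, hδ, h⟩ := h
  refine ⟨δ, C, hδ, fun s hs => (h s hs).trans ?_⟩
  have h1 := qd_summable s hs
  have h2 : ∑' l : G, ((l : ℕ) : ℝ) ^ (-s) ≤ ∑' l : H, ((l : ℕ) : ℝ) ^ (-s) := by
    rw [tsum_subtype G (fun l : ℕ => (l : ℝ) ^ (-s)), tsum_subtype H (fun l : ℕ => (l : ℝ) ^ (-s))]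
    refine Summable.tsum_le_tsum (fun n => ?_) (h1.indicator G) (h1.indicator H)
    exact Set.indicator_le_indicator_of_subset hGH
      (fun n => Real.rpow_nonneg (Nat.cast_nonneg _) _) n
  linarith

/-- Proof. As in `not_summable_conjSet` (`NTL.lean`): `M`, `c` from `exists_splitting`;
`GoodSet M c ⊆ ConjSet P g`; if `c ≠ 1` use `good_density`, if `c = 1` every prime is in
`GoodSet M c` and `all_density` applies; then `density_all_s`, `density_mono`. -/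
theorem conjSet_density {r : ℕ} (P g : Fin r → ℚ[X]) (hP : ∀ i, (P i).Separable)
    (hg : ∀ i, ∀ z : ℂ, aeval z (P i) = 0 → aeval z (g i) = starRingEnd ℂ z) :
    ∃ δ C : ℝ, 0 < δ ∧ ∀ s : ℝ, 1 < s →
      δ * Real.log (1 / (s - 1)) ≤ C + ∑' l : ConjSet P g, ((l : ℕ) : ℝ) ^ (-s) := by
  obtain ⟨M, hM, hN, c, hcc, hroot, hlift⟩ := exists_splitting P g hP hg
  have key : ∀ (l : ℕ) (h : l.Prime), haveI : Fact l.Prime := ⟨h⟩; Good M c l →
      l ∈ ConjSet P g := by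
    intro l h hgood
    haveI : Fact l.Prime := ⟨h⟩
    obtain ⟨τ, σ, hσ⟩ := hgood
    refine ⟨h, σ, fun i β hβ => ?_⟩
    obtain ⟨x, rfl, hx⟩ := hlift _ τ i β hβ
    rw [hσ, hroot i x hx, aeval_def, aeval_def, hom_eval₂]
    congr 1
    exact Subsingleton.elim _ _
  by_cases hc : c = 1
  · refine density_mono {l | l.Prime} _ (fun l hl => ?_) (density_all_s _ all_density)
    have hl' : l.Prime := hl
    haveI : Fact l.Prime := ⟨hl'⟩
    apply key l hl'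
    refine ⟨((IsAlgClosed.lift : M →ₐ[ℚ] AlgebraicClosure ℚ_[l]) :
      M →+* AlgebraicClosure ℚ_[l]), AlgEquiv.refl, fun x => ?_⟩
    rw [hc]
    rfl
  · refine density_mono (GoodSet M c) _ ?_ (density_all_s _ (good_density M c hc hcc))
    rintro l ⟨h, hgood⟩
    exact key l h hgood

end Pool.Agent.H62D
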