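import Mathlib

/-! Real roots: the conjugation polynomial is the identity on the roots in every field. -/

namespace Pool.Agent.H62D

open Polynomial

theorem dvd_of_complex_roots (P h : ℚ[X]) (hP : P.Separable)
    (hh : ∀ z : ℂ, aeval z P = 0 → aeval z h = 0) : P ∣ h := by
  have hP0 : P ≠ 0 := hP.ne_zero
  rw [← Polynomial.map_dvd_map' (algebraMap ℚ ℂ)]
  have hsep : (P.map (algebraMap ℚ ℂ)).Separable := hP.map
  have hsplit : (P.map (algebraMap ℚ ℂ)).Splits := IsAlgClosed.splits _
  by_cases h0 : h.map (algebraMap ℚ ℂ) = 0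
  · rw [h0]; exact dvd_zero _
  rw [hsplit.dvd_iff_roots_le_roots hsep.ne_zero h0]
  rw [Multiset.le_iff_subset (nodup_roots hsep)]
  intro z hz
  rw [mem_roots h0, IsRoot.def, eval_map_algebraMap]
  apply hh
  rw [mem_roots hsep.ne_zero, IsRoot.def, eval_map_algebraMap] at hz
  exact hz

theorem real_case (P g : ℚ[X]) (hP : P.Separable)
    (hg : ∀ z : ℂ, aeval z P = 0 → aeval z g = starRingEnd ℂ z)
    (hr : ∀ z : ℂ, aeval z P = 0 → starRingEnd ℂ z = z) {L : Type*} [Field L] [Algebra ℚ L]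
    (β : L) (hβ : aeval β P = 0) : aeval β g = β := by
  have hd : P ∣ g - X := by
    refine dvd_of_complex_roots P (g - X) hP fun z hz => ?_
    rw [map_sub, aeval_X, hg z hz, hr z hz, sub_self]
  obtain ⟨q, hq⟩ := hd
  have h := congrArg (aeval β) hq
  rw [map_sub, aeval_X, map_mul, hβ, zero_mul] at h
  exact sub_eq_zero.1 h

end Pool.Agent.H62D
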