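import Pool.Agent.W_f569db_h62.BH
import Pool.Agent.W_f569db_h62.QD
import Pool.Agent.W_f569db_h62.RealCase

/-! The final theorem. -/

namespace Pool.Agent.H62D

open Polynomial Pool.Agent.WeilH_h6 Pool.Agent.WeilH_h6.VarClass

universe u v w

theorem final (r : ℕ) (P g : Fin r → ℚ[X]) (hP : ∀ i, (P i).Separable)
    (hg : ∀ i, ∀ z : ℂ, aeval z (P i) = 0 → aeval z (g i) = starRingEnd ℂ z) :
    ∃ Λ : Set ℕ, (∀ l ∈ Λ, l.Prime) ∧ PosDirichletDensity Λ ∧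
      ∀ (K : Type v) [Field K] [CharZero K],
        ((∀ i, ∀ z : ℂ, aeval z (P i) = 0 → starRingEnd ℂ z = z) ∨ Nonempty (K →+* ℝ) ∨
          ∃ (l : ℕ) (_ : Fact l.Prime), l ∈ Λ ∧ Nonempty (K →+* ℚ_[l])) →
        ∀ (k : Type u) [Field k] (𝒱 : VarClass k) (W : Weil.{u, v, w} 𝒱 K) (X : 𝒱.Obj),
          Generated W (fun Y => ∃ i, ConjType W (P i) (g i) Y) X → W.HomEqNum X := by
  refine ⟨ConjSet P g, fun l hl => hl.1, conjSet_density P g hP hg, ?_⟩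
  intro K _ _ hK k _ 𝒱 W X hX
  rcases hK with hr | ⟨⟨ι⟩⟩ | ⟨l, hl, ⟨hl', σ, hσ⟩, ⟨ι⟩⟩
  · haveI : CharZero (AlgebraicClosure K) :=
      charZero_of_injective_algebraMap (algebraMap K (AlgebraicClosure K)).injective
    exact homEqNum_of_generated W (AlgEquiv.refl : AlgebraicClosure K ≃ₐ[K] AlgebraicClosure K)
      P g hP (fun i β hβ => (real_case (P i) (g i) (hP i) (hg i) (hr i) β hβ).symm) X hX
  · letI : Algebra K ℂ := ((algebraMap ℝ ℂ).comp ι).toAlgebra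
    let σ : ℂ ≃ₐ[K] ℂ := AlgEquiv.ofRingEquiv (f := (starRingAut : ℂ ≃+* ℂ)) (fun x => by
      change starRingEnd ℂ ((ι x : ℝ) : ℂ) = _
      exact Complex.conj_ofReal _)
    exact homEqNum_of_generated W σ P g hP (fun i β hβ => (hg i β hβ).symm) X hX
  · letI : Algebra K (AlgebraicClosure ℚ_[l]) :=
      ((algebraMap ℚ_[l] (AlgebraicClosure ℚ_[l])).comp ι).toAlgebra
    let τ : AlgebraicClosure ℚ_[l] ≃ₐ[K] AlgebraicClosure ℚ_[l] :=
      AlgEquiv.ofRingEquiv (f := σ.toRingEquiv) (fun x => σ.commutes (ι x))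
    exact homEqNum_of_generated W τ P g hP (fun i β hβ => hσ i β hβ) X hX

end Pool.Agent.H62D
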