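import Pool.Agent.WeilH_h6.Defs

/-! Definitions for the statement: algebraic maps, conjugation type, generated varieties. -/

namespace Pool.Agent.H62D

open Polynomial Pool.Agent.WeilH_h6 Pool.Agent.WeilH_h6.VarClass

universe u v w

/-- A set of natural numbers has positive lower Dirichlet density:
`∑_{l ∈ Λ} l^(-s) ≥ δ log (1/(s-1)) - C` for all `s > 1`, with `δ > 0`. -/
def PosDirichletDensity (Λ : Set ℕ) : Prop :=
  ∃ δ C : ℝ, 0 < δ ∧ ∀ s : ℝ, 1 < s →
    δ * Real.log (1 / (s - 1)) ≤ C + ∑' l : Λ, ((l : ℕ) : ℝ) ^ (-s)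

/-- The value `P(e)` of a rational polynomial at an endomorphism of a vector space over a field of
characteristic zero. -/
noncomputable def polyAt {K : Type v} [Field K] [CharZero K] {V : Type w} [AddCommMonoid V]
    [Module K V] (P : ℚ[X]) (e : V →ₗ[K] V) : V →ₗ[K] V :=
  aeval e (P.map (algebraMap ℚ K))

/-- Two endomorphisms commute. -/
def Commutes {K : Type v} [Field K] {V : Type w} [AddCommMonoid V] [Module K V]
    (e e' : V →ₗ[K] V) : Prop :=
  ∀ x, e (e' x) = e' (e x)

section

variable {k : Type u} [Field k] {𝒱 : VarClass k} {K : Type v} [Field K]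
  (W : Weil.{u, v, w} 𝒱 K)

/-- A linear map `H(Y) → H(Z)` is algebraic if it is the action of a class in the `K`-span of the
algebraic classes on `Y × Z`. -/
def IsAlgMap {Y Z : 𝒱.Obj} (φ : W.Hom Y Z) : Prop :=
  ∃ α ∈ W.algSpan (Y.prod Z), ∀ (y : W.H Y) (z : W.H Z),
    W.deg (W.ap φ y * z) = W.deg (α * W.cross y z)

/-- `Y` is an algebraic retract of `X`: there are algebraic maps `a : H(Y) → H(X)` and
`b : H(X) → H(Y)` with `b ∘ a = id` (for instance if there is a surjective morphism `X → Y`). -/
def IsRetract (X Y : 𝒱.Obj) : Prop :=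
  ∃ (a : W.Hom Y X) (b : W.Hom X Y), IsAlgMap W a ∧ IsAlgMap W b ∧ ∀ y, W.ap b (W.ap a y) = y

/-- The varieties generated by the varieties in `S`: the smallest class which contains `S` and the
point and is closed under products and algebraic retracts. -/
inductive Generated (S : 𝒱.Obj → Prop) : 𝒱.Obj → Prop
  | base (X : 𝒱.Obj) : S X → Generated S X
  | pt : Generated S Obj.pt
  | prod (X Y : 𝒱.Obj) : Generated S X → Generated S Y → Generated S (X.prod Y)
  | retract (X Y : 𝒱.Obj) : Generated S X → IsRetract W X Y → Generated S Y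

/-- The endomorphism `e'` is adjoint to `e` for the form `(x, y) ↦ Tr (x ∪ s y)`. -/
def IsAdjoint {X : 𝒱.Obj} (s e e' : W.Hom X X) : Prop :=
  ∀ x y : W.H X, W.deg (W.ap e x * W.ap s y) = W.deg (x * W.ap s (W.ap e' y))

/-- `X` is of conjugation type `(P, g)`: there are an endomorphism `e` of `H(X)` with `P(e) = 0`
such that every endomorphism of `H(X)` which commutes with `e` is algebraic, and an algebraic
bijection `s` of `H(X)` such that the adjoint of `e` for the form `Tr (x ∪ s y)` is `g(e)`. -/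
def ConjType [CharZero K] (P g : ℚ[X]) (X : 𝒱.Obj) : Prop :=
  ∃ e s : W.Hom X X, (∀ x, W.ap (polyAt P e) x = 0) ∧
    (∀ φ : W.Hom X X, Commutes φ e → W.IsAlgEnd X φ) ∧
    W.IsAlgEnd X s ∧ Function.Bijective (W.ap s) ∧ IsAdjoint W s e (polyAt g e)

end

end Pool.Agent.H62D
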