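import Pool.Agent.W_f569db_h62.NTDefs

/-! From embeddings into `Q_l` to primes of degree one. -/

namespace Pool.Agent.H62D

open NumberField IsDedekindDomain

theorem norm_emb_le_one {F : Type} [Field F] [NumberField F] {l : ℕ} [Fact l.Prime]
    (τ : F →+* ℚ_[l]) (x : 𝓞 F) : ‖τ (x : F)‖ ≤ 1 := by
  have h1 : IsIntegral ℤ (x : F) := RingOfIntegers.isIntegral_coe x
  have h2 : IsIntegral ℤ (τ (x : F)) := map_isIntegral_int τ h1
  have h3 : IsIntegral ℤ_[l] (τ (x : F)) := h2.tower_top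
  obtain ⟨y, hy⟩ := IsIntegrallyClosed.isIntegral_iff.1 h3
  rw [← hy]
  exact y.2

/-- the restriction of an embedding to the integers. -/
noncomputable def embInt {F : Type} [Field F] [NumberField F] {l : ℕ} [Fact l.Prime]
    (τ : F →+* ℚ_[l]) : 𝓞 F →+* ℤ_[l] where
  toFun x := ⟨τ (x : F), norm_emb_le_one τ x⟩
  map_one' := by
    apply Subtype.ext
    simp
  map_mul' x y := by
    apply Subtype.ext
    simp
  map_zero' := by
    apply Subtype.ext
    simp
  map_add' x y := by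
    apply Subtype.ext
    simp

theorem norm_embInt {F : Type} [Field F] [NumberField F] {l : ℕ} [Fact l.Prime]
    (τ : F →+* ℚ_[l]) (x : 𝓞 F) : ‖embInt τ x‖ = ‖τ (x : F)‖ := rfl

/-- An embedding `τ : F → Q_l` defines a prime of degree one.

Proof. Elements of `𝓞 F` are integral over `ℤ`, so `‖τ x‖ ≤ 1` (`ℤ_[l]` is integrally closed, or
directly with the ultrametric inequality). So `τ` restricts to a ring homomorphism `𝓞 F → ℤ_[l]`,
compose with the residue map `ℤ_[l] → ZMod l` (`PadicInt.toZMod`, kernel = maximal ideal =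
`{‖x‖ < 1}`). It is surjective (already on `ℤ`), its kernel `𝔓` is a maximal ideal with
`𝓞 F / 𝔓 ≅ ZMod l`, so `absNorm 𝔓 = l`; it is not `⊥` because it contains `l`. -/
theorem exists_prime_of_embedding (F : Type) [Field F] [NumberField F] (l : ℕ) [Fact l.Prime]
    (τ : F →+* ℚ_[l]) :
    ∃ P : HeightOneSpectrum (𝓞 F), Ideal.absNorm P.asIdeal = l ∧
      ∀ x : 𝓞 F, x ∈ P.asIdeal ↔ ‖τ (x : F)‖ < 1 := by
  have hl : l.Prime := Fact.out
  set φ : 𝓞 F →+* ZMod l := PadicInt.toZMod.comp (embInt τ) with hφ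
  have hmem : ∀ x : 𝓞 F, x ∈ RingHom.ker φ ↔ ‖τ (x : F)‖ < 1 := by
    intro x
    rw [RingHom.mem_ker, hφ, RingHom.comp_apply, ← RingHom.mem_ker, PadicInt.ker_toZMod,
      IsLocalRing.mem_maximalIdeal, PadicInt.mem_nonunits, norm_embInt]
  have habs : Ideal.absNorm (RingHom.ker φ) = l := by
    have e : (𝓞 F ⧸ RingHom.ker φ) ≃+* ZMod l :=
      RingHom.quotientKerEquivOfSurjective (ZMod.ringHom_surjective φ)
    rw [Ideal.absNorm_apply, Submodule.cardQuot_apply]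
    have h1 : Nat.card (𝓞 F ⧸ RingHom.ker φ) = Nat.card (ZMod l) := Nat.card_congr e.toEquiv
    rw [h1, Nat.card_zmod]
  have hbot : RingHom.ker φ ≠ ⊥ := by
    intro h
    rw [h, Ideal.absNorm_bot] at habs
    exact hl.ne_zero habs.symm
  exact ⟨⟨RingHom.ker φ, RingHom.ker_isPrime φ, hbot⟩, habs, hmem⟩

/-- Elements of the ring of integers have `l`-adic absolute value at most `1`, and some integer is
close to them. Proof. First part as above; second part: reduce modulo `l`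
(`PadicInt.exists_mem_range` or `PadicInt.toZMod_spec`). -/
theorem norm_le_one_and_close (F : Type) [Field F] [NumberField F] (l : ℕ) [Fact l.Prime]
    (τ : F →+* ℚ_[l]) (x : 𝓞 F) :
    ‖τ (x : F)‖ ≤ 1 ∧ ∃ b : ℤ, ‖τ (x : F) - (b : ℚ_[l])‖ < 1 := by
  refine ⟨norm_emb_le_one τ x, ?_⟩
  obtain ⟨n, -, hn⟩ := PadicInt.exists_mem_range (embInt τ x)
  refine ⟨(n : ℤ), ?_⟩
  rw [IsLocalRing.mem_maximalIdeal, PadicInt.mem_nonunits] at hn
  have h1 : ‖embInt τ x - (n : ℤ_[l])‖ = ‖τ (x : F) - ((n : ℤ) : ℚ_[l])‖ := by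
    rw [PadicInt.norm_def, PadicInt.coe_sub, PadicInt.coe_natCast, Int.cast_natCast]
    rfl
  rw [← h1]
  exact hn

/-- For almost all `l` the embeddings `τ` and `τ ∘ c` define different primes.

Proof. `c ≠ 1` and `F` is the field of fractions of `𝓞 F`, so there is `y ∈ 𝓞 F` with `c y ≠ y`.
`u = y - c y ∈ 𝓞 F` is nonzero; let `S` be the set of prime divisors of the nonzero integer
`Algebra.norm ℤ u`. For `l ∉ S`, `u` divides its norm in `𝓞 F` and `‖norm‖ = 1` in `ℚ_[l]`, so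
`‖τ u‖ = 1` (both `‖τ u‖ ≤ 1` and the cofactor have absolute value at most `1`). Choose an integer
`b` with `‖τ y - b‖ < 1` and put `x = y - b ∈ 𝓞 F`: `‖τ x‖ < 1`, and
`τ (c x) = τ (c y) - b = τ x - τ u` has absolute value `1`. -/
theorem exists_separating (F : Type) [Field F] [NumberField F] (c : F ≃ₐ[ℚ] F) (hc : c ≠ 1) :
    ∃ S : Finset ℕ, ∀ (l : ℕ) [Fact l.Prime], l ∉ S → ∀ τ : F →+* ℚ_[l],
      ∃ x : 𝓞 F, ‖τ (x : F)‖ < 1 ∧ ¬ ‖τ (c (x : F))‖ < 1 := by
  classical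
  -- an integer moved by `c`
  obtain ⟨y, hy⟩ : ∃ y : 𝓞 F, c (y : F) ≠ (y : F) := by
    by_contra hcon
    push Not at hcon
    apply hc
    ext z
    obtain ⟨a, b, hb, rfl⟩ := IsFractionRing.div_surjective (A := 𝓞 F) z
    rw [map_div₀]
    have h1 := hcon a
    have h2 := hcon b
    change c (algebraMap (𝓞 F) F a) = algebraMap (𝓞 F) F a at h1
    change c (algebraMap (𝓞 F) F b) = algebraMap (𝓞 F) F b at h2
    rw [h1, h2]
    rfl
  have hint : ∀ z : 𝓞 F, ∃ w : 𝓞 F, (w : F) = c (z : F) := by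
    intro z
    have h1 : IsIntegral ℤ (c (z : F)) :=
      map_isIntegral_int (c : F →+* F) (RingOfIntegers.isIntegral_coe z)
    exact ⟨⟨c (z : F), h1⟩, rfl⟩
  obtain ⟨y', hy'⟩ := hint y
  set u : 𝓞 F := y - y' with hu
  have hu0 : u ≠ 0 := by
    intro h
    apply hy
    have h1 : y = y' := sub_eq_zero.1 h
    rw [← hy', ← h1]
  set n : ℕ := Ideal.absNorm (Ideal.span {u}) with hn
  have hn0 : n ≠ 0 := by
    rw [hn, Ne, Ideal.absNorm_eq_zero_iff, Ideal.span_singleton_eq_bot]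
    exact hu0
  refine ⟨n.primeFactors, ?_⟩
  intro l hl hlS τ
  have hlp : l.Prime := hl.out
  have hndvd : ¬ l ∣ n := fun h => hlS (Nat.mem_primeFactors.2 ⟨hlp, h, hn0⟩)
  obtain ⟨w, hw⟩ : ∃ w : 𝓞 F, (n : 𝓞 F) = u * w := by
    have h1 : ((n : ℕ) : 𝓞 F) ∈ Ideal.span {u} := Ideal.absNorm_mem _
    obtain ⟨w, hw⟩ := Ideal.mem_span_singleton'.1 h1
    exact ⟨w, by rw [← hw, mul_comm]⟩
  have hnorm : ‖((n : ℕ) : ℚ_[l])‖ = 1 := by
    apply le_antisymm (by simpa using Padic.norm_int_le_one (p := l) (n : ℤ))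
    by_contra hcon
    push Not at hcon
    have h1 : ‖((n : ℤ) : ℚ_[l])‖ < 1 := by simpa using hcon
    rw [Padic.norm_intCast_lt_one_iff] at h1
    exact hndvd (Int.natCast_dvd_natCast.1 h1)
  have hprod : ‖τ (u : F)‖ * ‖τ (w : F)‖ = 1 := by
    rw [← norm_mul, ← map_mul, ← hnorm]
    congr 1
    have h1 : ((n : 𝓞 F) : F) = (u : F) * (w : F) := by rw [hw]; simp
    rw [← h1]
    simp
  have hule := norm_emb_le_one τ u
  have hwle := norm_emb_le_one τ w
  have huone : ‖τ (u : F)‖ = 1 := by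
    apply le_antisymm hule
    have h1 : ‖τ (u : F)‖ * ‖τ (w : F)‖ ≤ ‖τ (u : F)‖ * 1 :=
      mul_le_mul_of_nonneg_left hwle (norm_nonneg _)
    linarith
  obtain ⟨-, b, hb⟩ := norm_le_one_and_close F l τ y
  refine ⟨y - (b : 𝓞 F), ?_, ?_⟩
  · have h1 : τ ((y - (b : 𝓞 F) : 𝓞 F) : F) = τ (y : F) - (b : ℚ_[l]) := by simp
    rw [h1]; exact hb
  · have h1 : τ (c ((y - (b : 𝓞 F) : 𝓞 F) : F)) = (τ (y : F) - (b : ℚ_[l])) - τ (u : F) := by
      have h2 : (u : F) = (y : F) - (y' : F) := by rw [hu]; simp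
      rw [h2, hy']
      simp
    intro h3
    rw [h1] at h3
    have h4 : ‖τ (u : F)‖ < 1 := by
      have h5 : τ (u : F) = (τ (y : F) - (b : ℚ_[l])) -
          ((τ (y : F) - (b : ℚ_[l])) - τ (u : F)) := by ring
      rw [h5]
      rw [sub_eq_add_neg]
      refine lt_of_le_of_lt (IsUltrametricDist.norm_add_le_max _ _) ?_
      rw [norm_neg]
      exact max_lt hb h3
    linarith

end Pool.Agent.H62D
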