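import Pool.Agent.W_f569db_h62.NTA

/-! Finiteness of multiset sums. -/

namespace Pool.Agent.H62D

open scoped ENNReal

theorem NTB_tsum_fin {A : Type} (w : A → ℝ≥0∞) (k : ℕ) :
    ∑' f : Fin k → A, ∏ i, w (f i) = (∑' a, w a) ^ k := by
  induction k with
  | zero =>
    rw [pow_zero, tsum_eq_single (fun i : Fin 0 => i.elim0)]
    · simp
    · intro b hb
      exact absurd (Subsingleton.elim _ _) hb
  | succ k ih =>
    rw [← (Fin.insertNthEquiv (fun _ : Fin (k + 1) => A) 0).tsum_eq (fun f => ∏ i, w (f i))]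
    rw [ENNReal.tsum_prod', pow_succ', ← ENNReal.tsum_mul_right]
    refine tsum_congr fun a => ?_
    rw [← ih, ← ENNReal.tsum_mul_left]
    refine tsum_congr fun f => ?_
    rw [Fin.prod_univ_succ]
    simp [Fin.insertNthEquiv]

theorem NTB_le {A : Type} (w : A → ℝ≥0∞) : Zms w ≤ ∑' k : ℕ, (∑' a, w a) ^ k := by
  let g : (Σ k : ℕ, (Fin k → A)) → Multiset A := fun x => (List.ofFn x.2 : Multiset A)
  have hg : Function.Surjective g := by
    intro m
    refine ⟨⟨m.toList.length, m.toList.get⟩, ?_⟩
    show ((List.ofFn m.toList.get : List A) : Multiset A) = m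
    rw [List.ofFn_get]
    exact Multiset.coe_toList m
  obtain ⟨s, hs⟩ := hg.hasRightInverse
  unfold Zms
  calc ∑' m : Multiset A, (m.map w).prod = ∑' m : Multiset A, ((g (s m)).map w).prod := by
        refine tsum_congr fun m => ?_
        rw [hs m]
    _ ≤ ∑' x, ((g x).map w).prod :=
        ENNReal.tsum_comp_le_tsum_of_injective hs.injective (fun x => ((g x).map w).prod)
    _ = ∑' k : ℕ, ∑' f : Fin k → A, ∏ i, w (f i) := by
        rw [ENNReal.tsum_sigma']
        refine tsum_congr fun k => tsum_congr fun f => ?_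
        show (Multiset.map w (List.ofFn f : Multiset A)).prod = _
        rw [Multiset.map_coe, Multiset.prod_coe, List.map_ofFn, List.prod_ofFn]
        rfl
    _ = ∑' k : ℕ, (∑' a, w a) ^ k := tsum_congr fun k => NTB_tsum_fin w k

/-- If `∑ w < 1` then the multiset sum is finite.

Proof. Split the multisets by cardinality `k` (`Multiset A ≃ Σ k, Sym A k`, or use that every
multiset is the image of a list: `∑' m : Multiset A, F m ≤ ∑' l : List A, F ↑l` by
`ENNReal.tsum_comp_le_tsum_of_injective` for the section `Quotient.out` / `Multiset.toList`, and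
`List A ≃ Σ k, (Fin k → A)` or `List.Vector A k`). Then
`∑'_{l : List.Vector A k} ∏ w = (∑' w) ^ k` (induction on `k`), and
`∑_k (∑' w)^k = (1 - ∑' w)⁻¹ < ∞` (`ENNReal.tsum_geometric`). -/
theorem Zms_lt_top_of_lt_one {A : Type} (w : A → ℝ≥0∞) (h : ∑' a, w a < 1) : Zms w < ∞ := by
  refine (NTB_le w).trans_lt ?_
  rw [ENNReal.tsum_geometric]
  exact ENNReal.inv_lt_top.2 (tsub_pos_of_lt h)

/-- If all weights are `< 1` and the sum of the weights is finite then the multiset sum is finite.

Proof. There is a finite set `S` of elements of `A` with `∑'_{a ∉ S} w a < 1`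
(`ENNReal.tendsto_tsum_compl_atTop_zero` or similar). `A ≃ S ⊕ Sᶜ`, so by `Zms_equiv` and `Zms_sum` it is
enough to treat `Sᶜ` (`Zms_lt_top_of_lt_one`) and the finite set `S`: for the finite set use induction
over the number of elements with `Zms_sum` and the case of one element, where
`Zms w = ∑_k (w a)^k = (1 - w a)⁻¹ < ∞` is a special case of `Zms_lt_top_of_lt_one`. -/
theorem Zms_lt_top {A : Type} (w : A → ℝ≥0∞) (h1 : ∀ a, w a < 1) (h : ∑' a, w a < ∞) :
    Zms w < ∞ := by
  classical
  have hfin : ∀ (B : Type) [Finite B], ∀ v : B → ℝ≥0∞, (∀ b, v b < 1) → Zms v < ∞ := by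
    intro B hB
    refine Finite.induction_empty_option (P := fun B : Type => ∀ v : B → ℝ≥0∞, (∀ b, v b < 1) → Zms v < ∞)
      ?_ ?_ ?_ B
    · intro α β e hα v hv
      rw [← Zms_equiv (fun a => v (e a)) v e fun a => rfl]
      exact hα _ fun a => hv _
    · intro v _
      refine Zms_lt_top_of_lt_one v ?_
      rw [tsum_empty]
      exact zero_lt_one
    · intro α _ hα v hv
      rw [Zms_equiv v (Sum.elim (fun a => v (some a)) (fun _ : Unit => v none))
        (Equiv.optionEquivSumPUnit α) (by rintro (_ | a) <;> rfl), Zms_sum]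
      refine ENNReal.mul_lt_top (hα _ fun a => hv _) (Zms_lt_top_of_lt_one _ ?_)
      rw [tsum_fintype]
      simpa using hv none
  have ht := ENNReal.tendsto_tsum_compl_atTop_zero h.ne
  obtain ⟨S, hS⟩ := (ht.eventually (gt_mem_nhds (show (0 : ℝ≥0∞) < 1 from zero_lt_one))).exists
  rw [Zms_equiv w (Sum.elim (fun a : {x // x ∈ S} => w a.1) (fun a : {x // x ∉ S} => w a.1))
    (Equiv.sumCompl (fun x => x ∈ S)).symm (by
      intro a
      by_cases ha : a ∈ S
      · rw [Equiv.sumCompl_symm_apply_of_pos ha]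
        rfl
      · rw [Equiv.sumCompl_symm_apply_of_neg ha]
        rfl), Zms_sum]
  exact ENNReal.mul_lt_top (hfin _ _ fun a => h1 _) (Zms_lt_top_of_lt_one _ hS)

end Pool.Agent.H62D
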