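import Pool.Agent.W_f569db_h62.BDefs

/-! A block system implies that the trace form is non-degenerate on algebraic classes. -/

namespace Pool.Agent.H62D

open Pool.Agent.WeilH_h6 Pool.Agent.WeilH_h6.VarClass

universe u v w w'

/-- The functionals of a block system separate points.

Proof. For `x ≠ 0` there is a `K`-linear `f : H(X) → K` with `f x ≠ 0`
(`Module.forall_dual_apply_eq_zero_iff`). Apply `span` to `algebraMap K L ∘ f`
(`(Algebra.linearMap K L).comp f`). -/
theorem BSys.eq_zero {k : Type u} [Field k] {𝒱 : VarClass k} {K : Type v} [Field K]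
    {W : Weil.{u, v, w} 𝒱 K} {X : 𝒱.Obj} {L : Type w'} [Field L] [Algebra K L]
    {σ : L ≃ₐ[K] L} (S : BSys W X σ) (x : W.H X) (h : ∀ i, S.φ i x = 0) : x = 0 := by
  classical
  rw [← Module.forall_dual_apply_eq_zero_iff K x]
  intro f
  obtain ⟨c, hc⟩ := S.span ((Algebra.linearMap K L).comp f)
  have h1 := hc x
  rw [Finset.sum_eq_zero fun i _ => by rw [h i, mul_zero]] at h1
  have h2 : algebraMap K L (f x) = 0 := h1
  exact (map_eq_zero (algebraMap K L)).1 h2

/-- A block system implies that the trace form is non-degenerate on the span of the algebraic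
classes.

Proof. Let `z ∈ algSpan X` with `tr (z * b) = 0` for all `b ∈ algSpan X`. For `g : S.G` the element
`S.star (S.op g z)` is in `algSpan X` by `Weil.algHom_apply_mem` (twice). So by `form` and `eig`
`0 = ∑ i, ∑ i', C i i' * φ i z * (∑ i'', M i' i'' g * φ i'' z)`, that is
`∑ i', ∑ i'', D i' i'' * M i' i'' g = 0` with
`D i' i'' = (∑ i, C i i' * φ i z) * φ i'' z` if `blk i' = blk i''` and `D i' i'' = 0` otherwise (`M`
vanishes there by `M_blk`). By `indep` `(∑ i, C i i' * φ i z) * φ i'' z = 0` whenever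
`blk i' = blk i''`.
Suppose `φ i'' z ≠ 0` for some `i''`, and put `j = blk i''`. Then `∑ i, C i i' * φ i z = 0` for all `i'`
with `blk i' = j`. Put `v i = φ i z` if `blk i = π j` and `v i = 0` otherwise. Then
`∑ i, v i * C i i' = 0` for all `i'`: if `blk i' = j` the terms with `blk i ≠ π j` vanish in both
sums by `C_blk`; if `blk i' ≠ j` then `π (blk i') ≠ π j` so `v i ≠ 0` implies `C i i' = 0`
(`C_blk`). By `C_ker` `φ i z = 0` for all `i` with `blk i = π j`. By `gal`
`σ (φ i'' z) = ∑ i', t i' * φ i' z = 0` (`t i' = 0` unless `blk i' = π j`), so `φ i'' z = 0`, a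
contradiction. So all `φ i z = 0` and `z = 0` by `BSys.eq_zero`. -/
theorem BSys.nondeg {k : Type u} [Field k] {𝒱 : VarClass k} {K : Type v} [Field K]
    {W : Weil.{u, v, w} 𝒱 K} {X : 𝒱.Obj} {L : Type w'} [Field L] [Algebra K L]
    {σ : L ≃ₐ[K] L} (S : BSys W X σ) (z : W.H X) (hz : z ∈ W.algSpan X)
    (h : ∀ b ∈ W.algSpan X, W.tr X (z * b) = 0) : z = 0 := by
  classical
  have hstar : ∀ g, S.star (S.op g z) ∈ W.algSpan X := fun g =>
    W.algHom_apply_mem S.star_alg (W.algHom_apply_mem (S.op_alg g) hz)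
  let D : S.ι → S.ι → L := fun i' i'' =>
    if S.blk i' = S.blk i'' then (∑ i, S.C i i' * S.φ i z) * S.φ i'' z else 0
  have hD : ∀ i' i'', D i' i'' = 0 := by
    refine S.indep D (fun i' i'' hne => if_neg hne) ?_
    intro g
    have h1 := S.form z (S.op g z)
    rw [h _ (hstar g), map_zero] at h1
    have h2 : ∀ i' i'', D i' i'' * S.M i' i'' g =
        (∑ i, S.C i i' * S.φ i z) * (S.M i' i'' g * S.φ i'' z) := by
      intro i' i''
      by_cases hb : S.blk i' = S.blk i''
      · have h3 : D i' i'' = (∑ i, S.C i i' * S.φ i z) * S.φ i'' z := if_pos hb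
        rw [h3]
        ring
      · rw [S.M_blk i' i'' g hb, mul_zero, zero_mul, mul_zero]
    rw [Finset.sum_comm] at h1
    rw [h1]
    refine Finset.sum_congr rfl fun i' _ => ?_
    rw [Finset.sum_congr rfl fun i'' _ => h2 i' i'', ← Finset.mul_sum, ← S.eig i' g z,
      Finset.sum_mul]
  refine S.eq_zero z fun i'' => ?_
  by_contra hne
  have h1 : ∀ i', S.blk i' = S.blk i'' → ∑ i, S.C i i' * S.φ i z = 0 := by
    intro i' hi'
    have h3 : D i' i'' = (∑ i, S.C i i' * S.φ i z) * S.φ i'' z := if_pos hi'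
    rw [hD] at h3
    exact (mul_eq_zero.1 h3.symm).resolve_right hne
  have h2 : ∀ i, (if S.blk i = S.π (S.blk i'') then S.φ i z else 0) = 0 := by
    refine S.C_ker (fun i => if S.blk i = S.π (S.blk i'') then S.φ i z else 0) ?_
    intro i'
    by_cases hi' : S.blk i' = S.blk i''
    · refine Eq.trans (Finset.sum_congr rfl fun i _ => ?_) (h1 i' hi')
      by_cases hi : S.blk i = S.π (S.blk i'')
      · rw [if_pos hi, mul_comm]
      · rw [if_neg hi, zero_mul, S.C_blk i i' (by rw [hi']; exact hi), zero_mul]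
    · refine Finset.sum_eq_zero fun i _ => ?_
      by_cases hi : S.blk i = S.π (S.blk i'')
      · rw [S.C_blk i i' (by rw [hi]; exact fun h4 => hi' (S.π_inj h4).symm), mul_zero]
      · rw [if_neg hi, zero_mul]
  obtain ⟨t, ht, ht'⟩ := S.gal i''
  have h3 : σ (S.φ i'' z) = 0 := by
    rw [ht']
    refine Finset.sum_eq_zero fun i' _ => ?_
    by_cases hi' : S.blk i' = S.π (S.blk i'')
    · have h4 := h2 i'
      rw [if_pos hi'] at h4
      rw [h4, mul_zero]
    · rw [ht i' hi', zero_mul]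
  exact hne ((map_eq_zero_iff σ σ.injective).1 h3)

/-- Non-degeneracy passes to algebraic retracts.

Proof. By `Weil.homEqNum_of_nondeg` let `z ∈ algSpan Y` with `tr (z * c) = 0` for all
`c ∈ algSpan Y`. Then `a z ∈ algSpan X` (`Weil.algHom_apply_mem`). For `c ∈ algSpan X` write
`a = act α` with `α ∈ algSpan (Y × X)`: `tr_X (a z * c) = tr_{Y × X} (α * (p1 z * p2 c))`
(`Weil.tr_act`) `= tr_{Y × X} ((α * p2 c) * p1 z)` because `p2 c` is central (`Weil.central`,
`Weil.pull_mem_algSpan`). By `Weil.push_algSpan` for `Obj.fst Y X` and `α * p2 c`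
(`Weil.mul_mem_algSpan`) there is `d ∈ algSpan Y` with `tr_Y (d * y) = tr ((α * p2 c) * p1 y)` for all
`y`; so `tr_X (a z * c) = tr_Y (d * z) = tr_Y (z * d) = 0` (`Weil.central`). So `a z = 0` by `h`, and
`z = b (a z) = 0`. -/
theorem homEqNum_retract {k : Type u} [Field k] {𝒱 : VarClass k} {K : Type v} [Field K]
    (W : Weil.{u, v, w} 𝒱 K) {X Y : 𝒱.Obj} (a : W.H Y →ₗ[K] W.H X) (b : W.H X →ₗ[K] W.H Y)
    (ha : a ∈ W.algHom Y X) (hab : ∀ y, b (a y) = y)
    (h : ∀ z ∈ W.algSpan X, (∀ c ∈ W.algSpan X, W.tr X (z * c) = 0) → z = 0) :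
    W.HomEqNum Y := by
  refine W.homEqNum_of_nondeg fun z hz hz0 => ?_
  have h1 : a z = 0 := by
    refine h (a z) (W.algHom_apply_mem ha hz) fun c hc => ?_
    obtain ⟨α, hα, hα'⟩ := W.mem_algHom_iff.1 ha
    have hp2 : W.p2 Y X c ∈ W.algSpan (Y.prod X) := W.pull_mem_algSpan _ hc
    obtain ⟨d, hd, hd'⟩ := W.push_algSpan (Obj.fst Y X) (W.mul_mem_algSpan hα hp2)
    rw [hα', ← W.central hp2, ← mul_assoc, ← hd', W.central hd]
    exact hz0 d hd
  rw [← hab z, h1, map_zero]

end Pool.Agent.H62D
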