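import Pool.Agent.W_f569db_h62.SysDefs

/-! Products of functionals on the cohomology of a product. -/

namespace Pool.Agent.H62D

open Pool.Agent.WeilH_h6 Pool.Agent.WeilH_h6.VarClass
open scoped TensorProduct

universe u v w w'

variable {k : Type u} [Field k] {𝒱 : VarClass k} {K : Type v} [Field K]
  (W : Weil.{u, v, w} 𝒱 K) {X Y : 𝒱.Obj} {L : Type w'} [Field L] [Algebra K L]

/-- The functional `p1 x * p2 y ↦ f x * g y` on `H(X × Y)`. -/
noncomputable def boxFun (f : W.H X →ₗ[K] L) (g : W.H Y →ₗ[K] L) :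
    W.H (X.prod Y) →ₗ[K] L :=
  (TensorProduct.lift ((LinearMap.mul K L).compl₁₂ f g)) ∘ₗ (W.ku X Y).symm.toLinearMap

@[simp] theorem boxFun_apply (f : W.H X →ₗ[K] L) (g : W.H Y →ₗ[K] L) (x : W.H X) (y : W.H Y) :
    boxFun W f g (W.p1 X Y x * W.p2 X Y y) = f x * g y := by
  simp [boxFun]

/-- If the `φ i` span `Hom_K(H(X), L)` and the `ψ j` span `Hom_K(H(Y), L)` then the products span
`Hom_K(H(X × Y), L)`.

Proof. Let `b` be a `K`-basis of `H(X)` (`Module.finBasis`). For every `k` the functional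
`y ↦ Θ (p1 (b k) * p2 y)` (linear in `y`) is `∑ j, c k j * ψ j y`, and the functional
`x ↦ algebraMap (b.repr x k)` is `∑ i, d k i * φ i x`. As `p1 x = ∑ k, (b.repr x k) • p1 (b k)`,
`Θ (p1 x * p2 y) = ∑ k, algebraMap (b.repr x k) * Θ (p1 (b k) * p2 y)
= ∑ (i, j), (∑ k, d k i * c k j) * (φ i x * ψ j y)`. Both sides of the claim are additive in `u`, so
`Weil.kunneth_induction` finishes. -/
theorem boxFun_span {ι κ : Type} [Fintype ι] [Fintype κ] (φ : ι → (W.H X →ₗ[K] L))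
    (ψ : κ → (W.H Y →ₗ[K] L))
    (hφ : ∀ f : W.H X →ₗ[K] L, ∃ c : ι → L, ∀ x, f x = ∑ i, c i * φ i x)
    (hψ : ∀ f : W.H Y →ₗ[K] L, ∃ c : κ → L, ∀ x, f x = ∑ i, c i * ψ i x)
    (Θ : W.H (X.prod Y) →ₗ[K] L) :
    ∃ c : ι × κ → L, ∀ u, Θ u = ∑ p, c p * boxFun W (φ p.1) (ψ p.2) u := by
  classical
  let b := Module.finBasis K (W.H X)
  have h1 : ∀ k, ∃ c : κ → L, ∀ y, Θ (W.p1 X Y (b k) * W.p2 X Y y) = ∑ j, c j * ψ j y := by
    intro k
    exact hψ (Θ ∘ₗ (LinearMap.mulLeft K (W.p1 X Y (b k))) ∘ₗ (W.p2 X Y).toLinearMap)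
  have h2 : ∀ k, ∃ d : ι → L, ∀ x, algebraMap K L (b.repr x k) = ∑ i, d i * φ i x := by
    intro k
    exact hφ ((Algebra.linearMap K L) ∘ₗ (b.coord k))
  choose c hc using h1
  choose d hd using h2
  refine ⟨fun p => ∑ k, d k p.1 * c k p.2, fun u => ?_⟩
  refine W.kunneth_induction X Y (P := fun u => Θ u =
    ∑ p : ι × κ, (∑ k, d k p.1 * c k p.2) * boxFun W (φ p.1) (ψ p.2) u) ?_ ?_ u
  · intro a a' ha ha'
    simp only [map_add, mul_add, Finset.sum_add_distrib] at ha ha' ⊢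
    rw [ha, ha']
  · intro x y
    have hx : W.p1 X Y x * W.p2 X Y y =
        ∑ k, (b.repr x k) • (W.p1 X Y (b k) * W.p2 X Y y) := by
      conv_lhs => rw [← b.sum_repr x]
      rw [map_sum, Finset.sum_mul]
      refine Finset.sum_congr rfl fun k _ => ?_
      rw [map_smul, smul_mul_assoc]
    rw [hx, map_sum]
    have h3 : ∀ k, Θ ((b.repr x k) • (W.p1 X Y (b k) * W.p2 X Y y)) =
        ∑ p : ι × κ, d k p.1 * c k p.2 * (φ p.1 x * ψ p.2 y) := by
      intro k
      rw [map_smul, Algebra.smul_def, hd, hc, Finset.sum_mul_sum, ← Finset.univ_product_univ,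
        Finset.sum_product]
      refine Finset.sum_congr rfl fun i _ => Finset.sum_congr rfl fun j _ => ?_
      ring
    rw [Finset.sum_congr rfl fun k _ => h3 k, Finset.sum_comm]
    refine Finset.sum_congr rfl fun p _ => ?_
    rw [← hx, boxFun_apply, Finset.sum_mul]

/-- Proof. `Weil.kunneth_induction`, `Weil.par_mul`, `Weil.par_pull`, `boxFun_apply`. -/
theorem boxFun_par (f : W.H X →ₗ[K] L) (g : W.H Y →ₗ[K] L) (a b : ℕ)
    (hf : ∀ x, f (W.par X x) = (-1) ^ a * f x) (hg : ∀ y, g (W.par Y y) = (-1) ^ b * g y)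
    (u : W.H (X.prod Y)) :
    boxFun W f g (W.par (X.prod Y) u) = (-1) ^ (a + b) * boxFun W f g u := by
  refine W.kunneth_induction X Y (P := fun u => boxFun W f g (W.par (X.prod Y) u) =
    (-1) ^ (a + b) * boxFun W f g u) ?_ ?_ u
  · intro v v' hv hv'
    rw [map_add, map_add, hv, hv', map_add, mul_add]
  · intro x y
    rw [W.par_mul, W.par_pull, W.par_pull, boxFun_apply, boxFun_apply, hf, hg, pow_add]
    ring

/-- Proof. `Weil.kunneth_induction` and `Weil.extHom_apply`. -/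
theorem boxFun_extHom (f : W.H X →ₗ[K] L) (g : W.H Y →ₗ[K] L) (e : W.H X →ₗ[K] W.H X)
    (e' : W.H Y →ₗ[K] W.H Y) (a b : L)
    (hf : ∀ x, f (e x) = a * f x) (hg : ∀ y, g (e' y) = b * g y) (u : W.H (X.prod Y)) :
    boxFun W f g (W.extHom e e' u) = (a * b) * boxFun W f g u := by
  refine W.kunneth_induction X Y (P := fun u => boxFun W f g (W.extHom e e' u) =
    (a * b) * boxFun W f g u) ?_ ?_ u
  · intro v v' hv hv'
    rw [map_add, map_add, hv, hv', map_add, mul_add]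
  · intro x y
    rw [W.extHom_apply, boxFun_apply, boxFun_apply, hf, hg]
    ring

/-- Proof. `Weil.kunneth_induction`: both sides are additive in `u`. -/
theorem boxFun_gal (σ : L ≃ₐ[K] L) (f f' : W.H X →ₗ[K] L) (g g' : W.H Y →ₗ[K] L) (s t : L)
    (hf : ∀ x, σ (f x) = s * f' x) (hg : ∀ y, σ (g y) = t * g' y) (u : W.H (X.prod Y)) :
    σ (boxFun W f g u) = (s * t) * boxFun W f' g' u := by
  refine W.kunneth_induction X Y (P := fun u => σ (boxFun W f g u) =
    (s * t) * boxFun W f' g' u) ?_ ?_ u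
  · intro v v' hv hv'
    rw [map_add, map_add, hv, hv', map_add, mul_add]
  · intro x y
    rw [boxFun_apply, boxFun_apply, map_mul, hf, hg]
    ring

/-- Products of linearly independent families of functions are linearly independent.

Proof. Fix `h`: `∑ i, (∑ j, c (i, j) * χ' j h) * χ i g = 0` for all `g`, so by `h1`
`∑ j, c (i, j) * χ' j h = 0` for all `i` and `h`; apply `h2`. -/
theorem indep_prod {ι κ G G' : Type} [Fintype ι] [Fintype κ] (χ : ι → G → L) (χ' : κ → G' → L)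
    (h1 : ∀ c : ι → L, (∀ g, ∑ i, c i * χ i g = 0) → ∀ i, c i = 0)
    (h2 : ∀ c : κ → L, (∀ g, ∑ i, c i * χ' i g = 0) → ∀ i, c i = 0)
    (c : ι × κ → L) (hc : ∀ p : G × G', ∑ i, c i * (χ i.1 p.1 * χ' i.2 p.2) = 0) (i : ι × κ) :
    c i = 0 := by
  obtain ⟨i0, j0⟩ := i
  have h3 : ∀ (g' : G') (i : ι), ∑ j, c (i, j) * χ' j g' = 0 := by
    intro g'
    refine h1 _ fun g => ?_
    have h4 := hc (g, g')
    rw [← Finset.univ_product_univ, Finset.sum_product] at h4
    rw [← h4]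
    refine Finset.sum_congr rfl fun i _ => ?_
    rw [Finset.sum_mul]
    refine Finset.sum_congr rfl fun j _ => ?_
    ring
  exact h2 (fun j => c (i0, j)) (fun g' => h3 g' i0) j0

end Pool.Agent.H62D
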