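import Pool.Agent.W_f569db_h62.SysB

/-! The form on a product. -/

namespace Pool.Agent.H62D

open Pool.Agent.WeilH_h6 Pool.Agent.WeilH_h6.VarClass
open scoped TensorProduct

universe u v w w'

/-- Signs. Proof. If `u = 0` or `v = 0` both sides are `0`. Otherwise `(-1) ^ a = (-1) ^ s` and
`(-1) ^ b = (-1) ^ t` in `L`, and `(-1) ^ (a * b) = ((-1) ^ a) ^ b = ((-1) ^ s) ^ b =
((-1) ^ b) ^ s = ((-1) ^ t) ^ s = (-1) ^ (s * t)`. -/
theorem sign_swap {L : Type w'} [Field L] (a b s t : ℕ) (x y : L)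
    (hx : ((-1 : L) ^ a) * x = (-1) ^ s * x) (hy : ((-1 : L) ^ b) * y = (-1) ^ t * y) :
    ((-1 : L) ^ (a * b)) * (x * y) = (-1) ^ (s * t) * (x * y) := by
  rcases eq_or_ne x 0 with h | h
  · simp [h]
  rcases eq_or_ne y 0 with h' | h'
  · simp [h']
  have e1 : (-1 : L) ^ a = (-1) ^ s := mul_right_cancel₀ h hx
  have e2 : (-1 : L) ^ b = (-1) ^ t := mul_right_cancel₀ h' hy
  rw [pow_mul, e1, ← pow_mul, mul_comm s b, pow_mul, e2, ← pow_mul, mul_comm t s]

/-- The parity relation of a functional, on an eigenvector of the parity operator. -/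
theorem sgn_rel {k : Type u} [Field k] {𝒱 : VarClass k} {K : Type v} [Field K]
    {W : Weil.{u, v, w} 𝒱 K} {X : 𝒱.Obj} {L : Type w'} [Field L] [Algebra K L]
    (f : W.H X →ₗ[K] L) (s a : ℕ) (hf : ∀ x, f (W.par X x) = (-1) ^ s * f x) (x : W.H X)
    (hx : x ∈ W.grad X a) : ((-1 : L) ^ a) * f x = (-1) ^ s * f x := by
  rw [← hf x, W.par_apply hx, map_smul, Algebra.smul_def, map_pow, map_neg, map_one]

/-- The expansion of the form on a product.

Proof. Both sides are biadditive in `(u, u')`, so by `Weil.kunneth_induction` (twice) we may assume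
`u = p1 x * p2 y` and `u' = p1 x' * p2 y'`; both sides are additive in `y` and in `x'`, so by
`Weil.hom_induction` we may moreover assume `y ∈ grad Y a` and `x' ∈ grad X b`.
Then `extHom s s' u' = p1 (s x') * p2 (s' y')` (`Weil.extHom_apply`), `par y = (-1) ^ a • y`
(`Weil.par_apply`), `par (s x') = s (par x') = (-1) ^ b • s x'` (`Weil.par_algHom`, it is stated as
`φ (par v) = par (φ v)`); the images `p2 y` and `p1 (s x')` satisfy the same relations
(`Weil.par_pull`), so by `Weil.supercomm`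
`p2 y * p1 (s x') = (-1) ^ (a * b) • (p1 (s x') * p2 y)` and
`u * extHom s s' u' = (-1) ^ (a * b) • (p1 (x * s x') * p2 (y * s' y'))`. By `Weil.tr_prod` the trace
is `(-1) ^ (a * b) * (tr (x * s x') * tr (y * s' y'))`; expand with `SX.form` and `SY.form`
(`Finset.sum_mul_sum`, `Fintype.sum_prod_type`). For every `(i, j)` the factor
`(-1) ^ (a * b) * (φ_{π⁻¹ i} (x') * ψ_j (y))` equals
`(-1) ^ (sgn j * sgn (π⁻¹ i)) * (φ_{π⁻¹ i} (x') * ψ_j (y))` by `sign_swap`: the hypotheses follow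
from `parity` (`φ (par x') = (-1) ^ sgn * φ x'` and `φ (par x') = φ ((-1) ^ b • x')
= (-1) ^ b * φ x'`). -/
theorem form_prod {k : Type u} [Field k] {𝒱 : VarClass k} {K : Type v} [Field K] [CharZero K]
    {W : Weil.{u, v, w} 𝒱 K} {X Y : 𝒱.Obj} {L : Type w'} [Field L] [Algebra K L]
    {σ : L ≃ₐ[K] L} (SX : NSys W X σ) (SY : NSys W Y σ) (u u' : W.H (X.prod Y)) :
    algebraMap K L (W.tr (X.prod Y) (u * W.extHom SX.star SY.star u')) =
      ∑ p : SX.ι × SY.ι,
        ((-1) ^ (SY.sgn p.2 * SX.sgn (SX.π.symm p.1)) * (SX.c p.1 * SY.c p.2)) *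
        boxFun W (SX.φ p.1) (SY.φ p.2) u *
        boxFun W (SX.φ (SX.π.symm p.1)) (SY.φ (SY.π.symm p.2)) u' := by
  refine W.kunneth_induction X Y (P := fun u =>
    algebraMap K L (W.tr (X.prod Y) (u * W.extHom SX.star SY.star u')) =
      ∑ p : SX.ι × SY.ι,
        ((-1) ^ (SY.sgn p.2 * SX.sgn (SX.π.symm p.1)) * (SX.c p.1 * SY.c p.2)) *
        boxFun W (SX.φ p.1) (SY.φ p.2) u *
        boxFun W (SX.φ (SX.π.symm p.1)) (SY.φ (SY.π.symm p.2)) u') ?_ ?_ u
  · intro a b ha hb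
    rw [add_mul, map_add, map_add, ha, hb, ← Finset.sum_add_distrib]
    exact Finset.sum_congr rfl fun p _ => by rw [map_add]; ring
  intro x y
  refine W.kunneth_induction X Y (P := fun u' =>
    algebraMap K L (W.tr (X.prod Y) (W.p1 X Y x * W.p2 X Y y *
      W.extHom SX.star SY.star u')) =
      ∑ p : SX.ι × SY.ι,
        ((-1) ^ (SY.sgn p.2 * SX.sgn (SX.π.symm p.1)) * (SX.c p.1 * SY.c p.2)) *
        boxFun W (SX.φ p.1) (SY.φ p.2) (W.p1 X Y x * W.p2 X Y y) *
        boxFun W (SX.φ (SX.π.symm p.1)) (SY.φ (SY.π.symm p.2)) u') ?_ ?_ u'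
  · intro a b ha hb
    rw [map_add, mul_add, map_add, map_add, ha, hb, ← Finset.sum_add_distrib]
    exact Finset.sum_congr rfl fun p _ => by rw [map_add]; ring
  intro x' y'
  simp only [boxFun_apply, Weil.extHom_apply]
  refine W.hom_induction (P := fun y =>
    algebraMap K L (W.tr (X.prod Y) (W.p1 X Y x * W.p2 X Y y *
      (W.p1 X Y (SX.star x') * W.p2 X Y (SY.star y')))) =
      ∑ p : SX.ι × SY.ι,
        ((-1) ^ (SY.sgn p.2 * SX.sgn (SX.π.symm p.1)) * (SX.c p.1 * SY.c p.2)) *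
        (SX.φ p.1 x * SY.φ p.2 y) *
        (SX.φ (SX.π.symm p.1) x' * SY.φ (SY.π.symm p.2) y')) (by simp) ?_ ?_ y
  · intro a b ha hb
    rw [map_add, mul_add, add_mul, map_add, map_add, ha, hb, ← Finset.sum_add_distrib]
    exact Finset.sum_congr rfl fun p _ => by rw [map_add]; ring
  intro a y hy
  refine W.hom_induction (P := fun x' =>
    algebraMap K L (W.tr (X.prod Y) (W.p1 X Y x * W.p2 X Y y *
      (W.p1 X Y (SX.star x') * W.p2 X Y (SY.star y')))) =
      ∑ p : SX.ι × SY.ι,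
        ((-1) ^ (SY.sgn p.2 * SX.sgn (SX.π.symm p.1)) * (SX.c p.1 * SY.c p.2)) *
        (SX.φ p.1 x * SY.φ p.2 y) *
        (SX.φ (SX.π.symm p.1) x' * SY.φ (SY.π.symm p.2) y')) (by simp) ?_ ?_ x'
  · intro a b ha hb
    rw [map_add, map_add, add_mul, mul_add, map_add, map_add, ha, hb,
      ← Finset.sum_add_distrib]
    exact Finset.sum_congr rfl fun p _ => by rw [map_add]; ring
  intro b x' hx'
  have hsw : W.p2 X Y y * W.p1 X Y (SX.star x') =
      ((-1 : K) ^ (a * b)) • (W.p1 X Y (SX.star x') * W.p2 X Y y) := by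
    refine W.supercomm ?_ ?_
    · rw [W.par_pull, W.par_apply hy, map_smul]
    · rw [W.par_pull, ← W.par_algHom SX.star_alg, W.par_apply hx', map_smul, map_smul]
  have e1 : W.p1 X Y x * W.p2 X Y y * (W.p1 X Y (SX.star x') * W.p2 X Y (SY.star y')) =
      ((-1 : K) ^ (a * b)) • (W.p1 X Y (x * SX.star x') * W.p2 X Y (y * SY.star y')) := by
    rw [map_mul, map_mul, mul_assoc, ← mul_assoc (W.p2 X Y y), hsw,
      smul_mul_assoc, mul_smul_comm, mul_assoc, mul_assoc]
  rw [e1, map_smul, W.tr_prod, smul_eq_mul, map_mul, map_mul, SX.form, SY.form, map_pow, map_neg,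
    map_one, Finset.sum_mul_sum, Fintype.sum_prod_type, Finset.mul_sum]
  refine Finset.sum_congr rfl fun i _ => ?_
  rw [Finset.mul_sum]
  refine Finset.sum_congr rfl fun j _ => ?_
  have h1 := sign_swap a b (SY.sgn j) (SX.sgn (SX.π.symm i)) (SY.φ j y)
    (SX.φ (SX.π.symm i) x') (sgn_rel _ _ _ (SY.parity j) y hy)
    (sgn_rel _ _ _ (SX.parity (SX.π.symm i)) x' hx')
  linear_combination (SX.c i * SX.φ i x * (SY.c j * SY.φ (SY.π.symm j) y')) * h1

end Pool.Agent.H62D
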