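import Pool.Agent.W_f569db_h62.BDefs
import Pool.Agent.W_f569db_h62.SysB
import Pool.Agent.W_f569db_h62.SysC

/-! Products of block systems. -/

namespace Pool.Agent.H62D

open Pool.Agent.WeilH_h6 Pool.Agent.WeilH_h6.VarClass
open scoped TensorProduct

universe u v w w'

/-- The expansion of the form on a product (block version).

Proof. As for `form_prod` in `SysC.lean` (same argument, double sums): both sides are biadditive in
`(u, u')`, so by `Weil.kunneth_induction` (twice) and `Weil.hom_induction` (for `y` and `x'`) let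
`u = p1 x * p2 y`, `u' = p1 x' * p2 y'` with `y ∈ grad Y a`, `x' ∈ grad X b`. Then
`extHom s s' u' = p1 (s x') * p2 (s' y')`, `par y = (-1) ^ a • y`, `par (s x') = (-1) ^ b • s x'`
(`Weil.par_algHom`), `p2 y * p1 (s x') = (-1) ^ (a * b) • (p1 (s x') * p2 y)` (`Weil.supercomm`,
`Weil.par_pull`), so the trace is `(-1) ^ (a * b) * (tr (x * s x') * tr (y * s' y'))`
(`Weil.tr_prod`). Expand with `SX.form`, `SY.form`; in each term replace
`(-1) ^ (a * b) * (ψ_k y * φ_{i'} x')` by `(-1) ^ (sgn k * sgn i') * (ψ_k y * φ_{i'} x')`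
(`sign_swap` in `SysC.lean`). -/
theorem form_bprod {k : Type u} [Field k] {𝒱 : VarClass k} {K : Type v} [Field K] [CharZero K]
    {W : Weil.{u, v, w} 𝒱 K} {X Y : 𝒱.Obj} {L : Type w'} [Field L] [Algebra K L]
    {σ : L ≃ₐ[K] L} (SX : BSys W X σ) (SY : BSys W Y σ) (u u' : W.H (X.prod Y)) :
    algebraMap K L (W.tr (X.prod Y) (u * W.extHom SX.star SY.star u')) =
      ∑ p : SX.ι × SY.ι, ∑ q : SX.ι × SY.ι,
        ((-1) ^ (SY.sgn p.2 * SX.sgn q.1) * (SX.C p.1 q.1 * SY.C p.2 q.2)) *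
        boxFun W (SX.φ p.1) (SY.φ p.2) u * boxFun W (SX.φ q.1) (SY.φ q.2) u' := by
  refine W.kunneth_induction X Y (P := fun u =>
    algebraMap K L (W.tr (X.prod Y) (u * W.extHom SX.star SY.star u')) =
      ∑ p : SX.ι × SY.ι, ∑ q : SX.ι × SY.ι,
        ((-1) ^ (SY.sgn p.2 * SX.sgn q.1) * (SX.C p.1 q.1 * SY.C p.2 q.2)) *
        boxFun W (SX.φ p.1) (SY.φ p.2) u * boxFun W (SX.φ q.1) (SY.φ q.2) u') ?_ ?_ u
  · intro a b ha hb
    rw [add_mul, map_add, map_add, ha, hb, ← Finset.sum_add_distrib]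
    refine Finset.sum_congr rfl fun p _ => ?_
    rw [← Finset.sum_add_distrib]
    exact Finset.sum_congr rfl fun q _ => by rw [map_add]; ring
  intro x y
  refine W.kunneth_induction X Y (P := fun u' =>
    algebraMap K L (W.tr (X.prod Y) (W.p1 X Y x * W.p2 X Y y *
      W.extHom SX.star SY.star u')) =
      ∑ p : SX.ι × SY.ι, ∑ q : SX.ι × SY.ι,
        ((-1) ^ (SY.sgn p.2 * SX.sgn q.1) * (SX.C p.1 q.1 * SY.C p.2 q.2)) *
        boxFun W (SX.φ p.1) (SY.φ p.2) (W.p1 X Y x * W.p2 X Y y) *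
        boxFun W (SX.φ q.1) (SY.φ q.2) u') ?_ ?_ u'
  · intro a b ha hb
    rw [map_add, mul_add, map_add, map_add, ha, hb, ← Finset.sum_add_distrib]
    refine Finset.sum_congr rfl fun p _ => ?_
    rw [← Finset.sum_add_distrib]
    exact Finset.sum_congr rfl fun q _ => by rw [map_add]; ring
  intro x' y'
  simp only [boxFun_apply, Weil.extHom_apply]
  refine W.hom_induction (P := fun y =>
    algebraMap K L (W.tr (X.prod Y) (W.p1 X Y x * W.p2 X Y y *
      (W.p1 X Y (SX.star x') * W.p2 X Y (SY.star y')))) =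
      ∑ p : SX.ι × SY.ι, ∑ q : SX.ι × SY.ι,
        ((-1) ^ (SY.sgn p.2 * SX.sgn q.1) * (SX.C p.1 q.1 * SY.C p.2 q.2)) *
        (SX.φ p.1 x * SY.φ p.2 y) * (SX.φ q.1 x' * SY.φ q.2 y')) (by simp) ?_ ?_ y
  · intro a b ha hb
    rw [map_add, mul_add, add_mul, map_add, map_add, ha, hb, ← Finset.sum_add_distrib]
    refine Finset.sum_congr rfl fun p _ => ?_
    rw [← Finset.sum_add_distrib]
    exact Finset.sum_congr rfl fun q _ => by rw [map_add]; ring
  intro a y hy
  refine W.hom_induction (P := fun x' =>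
    algebraMap K L (W.tr (X.prod Y) (W.p1 X Y x * W.p2 X Y y *
      (W.p1 X Y (SX.star x') * W.p2 X Y (SY.star y')))) =
      ∑ p : SX.ι × SY.ι, ∑ q : SX.ι × SY.ι,
        ((-1) ^ (SY.sgn p.2 * SX.sgn q.1) * (SX.C p.1 q.1 * SY.C p.2 q.2)) *
        (SX.φ p.1 x * SY.φ p.2 y) * (SX.φ q.1 x' * SY.φ q.2 y')) (by simp) ?_ ?_ x'
  · intro a b ha hb
    rw [map_add, map_add, add_mul, mul_add, map_add, map_add, ha, hb,
      ← Finset.sum_add_distrib]
    refine Finset.sum_congr rfl fun p _ => ?_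
    rw [← Finset.sum_add_distrib]
    exact Finset.sum_congr rfl fun q _ => by rw [map_add]; ring
  intro b x' hx'
  have hsw : W.p2 X Y y * W.p1 X Y (SX.star x') =
      ((-1 : K) ^ (a * b)) • (W.p1 X Y (SX.star x') * W.p2 X Y y) := by
    refine W.supercomm ?_ ?_
    · rw [W.par_pull, W.par_apply hy, map_smul]
    · rw [W.par_pull, ← W.par_algHom SX.star_alg, W.par_apply hx', map_smul, map_smul]
  have e1 : W.p1 X Y x * W.p2 X Y y * (W.p1 X Y (SX.star x') * W.p2 X Y (SY.star y')) =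
      ((-1 : K) ^ (a * b)) • (W.p1 X Y (x * SX.star x') * W.p2 X Y (y * SY.star y')) := by
    rw [map_mul, map_mul, mul_assoc, ← mul_assoc (W.p2 X Y y), hsw,
      smul_mul_assoc, mul_smul_comm, mul_assoc, mul_assoc]
  rw [e1, map_smul, W.tr_prod, smul_eq_mul, map_mul, map_mul, SX.form, SY.form, map_pow, map_neg,
    map_one, Finset.sum_mul_sum, Fintype.sum_prod_type, Finset.mul_sum]
  refine Finset.sum_congr rfl fun i _ => ?_
  rw [Finset.mul_sum]
  refine Finset.sum_congr rfl fun j _ => ?_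
  rw [Finset.sum_mul_sum, Fintype.sum_prod_type, Finset.mul_sum]
  refine Finset.sum_congr rfl fun i' _ => ?_
  rw [Finset.mul_sum]
  refine Finset.sum_congr rfl fun j' _ => ?_
  have h1 := sign_swap a b (SY.sgn j) (SX.sgn i') (SY.φ j y)
    (SX.φ i' x') (sgn_rel _ _ _ (SY.parity j) y hy)
    (sgn_rel _ _ _ (SX.parity i') x' hx')
  linear_combination (SX.C i i' * SX.φ i x * (SY.C j j' * SY.φ j' y')) * h1

/-- Linear independence of products of matrix coefficients.

Proof. Fix `h : G'`. For `i, i'` put `d i i' = ∑ k, ∑ k', c (i, k) (i', k') * M' k k' h`. Then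
`d i i' = 0` if `blk i ≠ blk i'` and `∑ i, ∑ i', d i i' * M i i' g = 0` for all `g`, so `d = 0` by
`h1`. So for fixed `i, i'` the function `(k, k') ↦ c (i, k) (i', k')` satisfies the hypotheses of
`h2`. -/
theorem bindep_prod {L : Type w'} [Field L] {ι κ : Type} {J J' : Type w'} {G G' : Type w}
    [Fintype ι] [Fintype κ] (b : ι → J) (b' : κ → J') (M : ι → ι → G → L) (M' : κ → κ → G' → L)
    (h1 : ∀ c : ι → ι → L, (∀ i i', b i ≠ b i' → c i i' = 0) →
      (∀ g, ∑ i, ∑ i', c i i' * M i i' g = 0) → ∀ i i', c i i' = 0)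
    (h2 : ∀ c : κ → κ → L, (∀ i i', b' i ≠ b' i' → c i i' = 0) →
      (∀ g, ∑ i, ∑ i', c i i' * M' i i' g = 0) → ∀ i i', c i i' = 0)
    (c : ι × κ → ι × κ → L)
    (hc : ∀ p q : ι × κ, ((b p.1, b' p.2) : J × J') ≠ (b q.1, b' q.2) → c p q = 0)
    (h : ∀ g : G × G', ∑ p, ∑ q, c p q * (M p.1 q.1 g.1 * M' p.2 q.2 g.2) = 0) (p q : ι × κ) :
    c p q = 0 := by
  have h3 : ∀ (g' : G') (i i' : ι), ∑ k, ∑ k', c (i, k) (i', k') * M' k k' g' = 0 := by
    intro g'
    refine h1 (fun i i' => ∑ k, ∑ k', c (i, k) (i', k') * M' k k' g') ?_ ?_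
    · intro i i' hii
      refine Finset.sum_eq_zero fun k _ => Finset.sum_eq_zero fun k' _ => ?_
      rw [hc (i, k) (i', k') (fun h0 => hii (congrArg Prod.fst h0)), zero_mul]
    · intro g
      have h4 := h (g, g')
      rw [Fintype.sum_prod_type] at h4
      rw [← h4]
      refine Finset.sum_congr rfl fun i _ => ?_
      have h5 : ∀ k : κ, ∑ q : ι × κ, c (i, k) q * (M i q.1 g * M' k q.2 g') =
          ∑ i' : ι, ∑ k' : κ, c (i, k) (i', k') * (M i i' g * M' k k' g') :=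
        fun k => Fintype.sum_prod_type _
      show _ = ∑ k : κ, ∑ q : ι × κ, c (i, k) q * (M i q.1 g * M' k q.2 g')
      rw [Finset.sum_congr rfl fun k _ => h5 k, Finset.sum_comm]
      refine Finset.sum_congr rfl fun i' _ => ?_
      rw [Finset.sum_mul]
      refine Finset.sum_congr rfl fun k _ => ?_
      rw [Finset.sum_mul]
      exact Finset.sum_congr rfl fun k' _ => by ring
  obtain ⟨i, k⟩ := p
  obtain ⟨i', k'⟩ := q
  refine h2 (fun k k' => c (i, k) (i', k')) ?_ (fun g' => h3 g' i i') k k'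
  intro l l' hl
  exact hc (i, l) (i', l') (fun h0 => hl (congrArg Prod.snd h0))

/-- Non-degeneracy of a product form.

Proof. Fix `i'`, put `w k = ∑ i, v (i, k) * ((-1) ^ (s k * t i') * C i i')`. For all `k'`
`∑ k, w k * C' k k' = 0` (this is the hypothesis for `q = (i', k')`), so `w k = 0` by `h2`. The
sign does not depend on `i`, so `∑ i, v (i, k) * C i i' = 0` for all `i'` and `k`; `h1`. -/
theorem bker_prod {L : Type w'} [Field L] {ι κ : Type} [Fintype ι] [Fintype κ]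
    (s : κ → ℕ) (t : ι → ℕ) (C : ι → ι → L) (C' : κ → κ → L)
    (h1 : ∀ v : ι → L, (∀ i', ∑ i, v i * C i i' = 0) → ∀ i, v i = 0)
    (h2 : ∀ v : κ → L, (∀ i', ∑ i, v i * C' i i' = 0) → ∀ i, v i = 0)
    (v : ι × κ → L)
    (h : ∀ q : ι × κ, ∑ p : ι × κ, v p * ((-1) ^ (s p.2 * t q.1) * (C p.1 q.1 * C' p.2 q.2)) = 0)
    (p : ι × κ) : v p = 0 := by
  obtain ⟨i, k⟩ := p
  refine h1 (fun i => v (i, k)) (fun i' => ?_) i
  have h3 : ∑ i, v (i, k) * ((-1) ^ (s k * t i') * C i i') = 0 := by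
    refine h2 (fun k => ∑ i, v (i, k) * ((-1) ^ (s k * t i') * C i i')) (fun k' => ?_) k
    have h4 := h (i', k')
    rw [Fintype.sum_prod_type_right] at h4
    rw [← h4]
    refine Finset.sum_congr rfl fun l _ => ?_
    rw [Finset.sum_mul]
    exact Finset.sum_congr rfl fun i _ => by ring
  have h4 : (-1 : L) ^ (s k * t i') * ∑ i, v (i, k) * C i i' = 0 := by
    rw [← h3, Finset.mul_sum]
    exact Finset.sum_congr rfl fun i _ => by ring
  rcases mul_eq_zero.1 h4 with h5 | h5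
  · exact absurd h5 (pow_ne_zero _ (neg_ne_zero.2 one_ne_zero))
  · exact h5

/-- The product of two block systems.

The proofs of `eig` and `gal` are by `Weil.kunneth_induction`. -/
noncomputable def BSys.prod {k : Type u} [Field k] {𝒱 : VarClass k} {K : Type v} [Field K]
    [CharZero K]
    {W : Weil.{u, v, w} 𝒱 K} {X Y : 𝒱.Obj} {L : Type w'} [Field L] [Algebra K L]
    {σ : L ≃ₐ[K] L} (SX : BSys W X σ) (SY : BSys W Y σ) : BSys W (X.prod Y) σ where
  ι := SX.ι × SY.ι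
  J := SX.J × SY.J
  blk p := (SX.blk p.1, SY.blk p.2)
  π := Prod.map SX.π SY.π
  π_inj := SX.π_inj.prodMap SY.π_inj
  φ p := boxFun W (SX.φ p.1) (SY.φ p.2)
  span := boxFun_span W SX.φ SY.φ SX.span SY.span
  sgn p := SX.sgn p.1 + SY.sgn p.2
  parity p u := boxFun_par W _ _ _ _ (SX.parity p.1) (SY.parity p.2) u
  G := SX.G × SY.G
  op g := W.extHom (SX.op g.1) (SY.op g.2)
  op_alg g := W.extHom_mem_algHom (SX.op_alg g.1) (SY.op_alg g.2)
  M p q g := SX.M p.1 q.1 g.1 * SY.M p.2 q.2 g.2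
  M_blk p q g hpq := by
    by_cases h1 : SX.blk p.1 = SX.blk q.1
    · have h2 : SY.blk p.2 ≠ SY.blk q.2 := fun h2 => hpq (Prod.ext h1 h2)
      rw [SY.M_blk _ _ _ h2, mul_zero]
    · rw [SX.M_blk _ _ _ h1, zero_mul]
  eig p g u := by
    refine W.kunneth_induction X Y (P := fun u =>
      boxFun W (SX.φ p.1) (SY.φ p.2) (W.extHom (SX.op g.1) (SY.op g.2) u) =
      ∑ q : SX.ι × SY.ι, SX.M p.1 q.1 g.1 * SY.M p.2 q.2 g.2 *
        boxFun W (SX.φ q.1) (SY.φ q.2) u) ?_ ?_ u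
    · intro a b ha hb
      rw [map_add, map_add, ha, hb, ← Finset.sum_add_distrib]
      exact Finset.sum_congr rfl fun q _ => by rw [map_add]; ring
    · intro x y
      rw [W.extHom_apply, boxFun_apply, SX.eig, SY.eig, Finset.sum_mul_sum,
        Fintype.sum_prod_type]
      refine Finset.sum_congr rfl fun i _ => Finset.sum_congr rfl fun j _ => ?_
      rw [boxFun_apply]
      ring
  indep c hc h p q := bindep_prod SX.blk SY.blk SX.M SY.M SX.indep SY.indep c hc h p q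
  gal p := by
    obtain ⟨t1, h1, h1'⟩ := SX.gal p.1
    obtain ⟨t2, h2, h2'⟩ := SY.gal p.2
    refine ⟨fun q => t1 q.1 * t2 q.2, fun q hq => ?_, fun u => ?_⟩
    · by_cases h3 : SX.blk q.1 = SX.π (SX.blk p.1)
      · have h4 : SY.blk q.2 ≠ SY.π (SY.blk p.2) := fun h4 => hq (Prod.ext h3 h4)
        show t1 q.1 * t2 q.2 = 0
        rw [h2 _ h4, mul_zero]
      · show t1 q.1 * t2 q.2 = 0
        rw [h1 _ h3, zero_mul]
    · refine W.kunneth_induction X Y (P := fun u =>
        σ (boxFun W (SX.φ p.1) (SY.φ p.2) u) =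
        ∑ q : SX.ι × SY.ι, t1 q.1 * t2 q.2 * boxFun W (SX.φ q.1) (SY.φ q.2) u) ?_ ?_ u
      · intro a b ha hb
        rw [map_add, map_add, ha, hb, ← Finset.sum_add_distrib]
        exact Finset.sum_congr rfl fun q _ => by rw [map_add]; ring
      · intro x y
        rw [boxFun_apply, map_mul, h1', h2', Finset.sum_mul_sum, Fintype.sum_prod_type]
        refine Finset.sum_congr rfl fun i _ => Finset.sum_congr rfl fun j _ => ?_
        rw [boxFun_apply]
        ring
  star := W.extHom SX.star SY.star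
  star_alg := W.extHom_mem_algHom SX.star_alg SY.star_alg
  C p q := (-1) ^ (SY.sgn p.2 * SX.sgn q.1) * (SX.C p.1 q.1 * SY.C p.2 q.2)
  C_blk p q hpq := by
    by_cases h1 : SX.blk p.1 = SX.π (SX.blk q.1)
    · have h2 : SY.blk p.2 ≠ SY.π (SY.blk q.2) := fun h2 => hpq (Prod.ext h1 h2)
      rw [SY.C_blk _ _ h2, mul_zero, mul_zero]
    · rw [SX.C_blk _ _ h1, zero_mul, mul_zero]
  C_ker v h p := bker_prod SY.sgn SX.sgn SX.C SY.C SX.C_ker SY.C_ker v h p
  form u u' := form_bprod SX SY u u'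

end Pool.Agent.H62D
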