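import Pool.Agent.WeilH_h6.Ext

/-! Block systems of functionals on the cohomology of a variety, definitions. -/

namespace Pool.Agent.H62D

open Polynomial Pool.Agent.WeilH_h6 Pool.Agent.WeilH_h6.VarClass

universe u v w w'

/-- A complete system of eigenfunctionals of a diagonalisable operator: `φ i : V → L` is
`K`-linear, `φ i ∘ e = α i • φ i`, and the `φ i` form an `L`-basis of `Hom_K(V, L)`. -/
structure BEig {K : Type v} {L : Type w'} {V : Type w} [Field K] [Field L] [Algebra K L]
    [AddCommGroup V] [Module K V] [FiniteDimensional K V] (e : V →ₗ[K] V) (ι : Type)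
    [Fintype ι] where
  α : ι → L
  φ : ι → (V →ₗ[K] L)
  eig : ∀ i x, φ i (e x) = α i * φ i x
  span : ∀ ψ : V →ₗ[K] L, ∃ c : ι → L, ∀ x, ψ x = ∑ i, c i * φ i x
  indep : ∀ c : ι → L, (∀ x, ∑ i, c i * φ i x = 0) → ∀ i, c i = 0

/-- A system of functionals `φ i : H(X) → L` which spans `Hom_K(H(X), L)`, is divided into blocks
(`i` and `i'` are in the same block if `blk i = blk i'`), such that the algebraic operators `op g`
act on every block and generate over `L` all block diagonal matrices, such that `σ` maps the block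
`j` to the block `π j`, and such that the form `tr (x · star y)` for an algebraic operator `star` pairs
the block `π j` with the block `j`. -/
structure BSys {k : Type u} [Field k] {𝒱 : VarClass k} {K : Type v} [Field K]
    (W : Weil.{u, v, w} 𝒱 K) (X : 𝒱.Obj) {L : Type w'} [Field L] [Algebra K L]
    (σ : L ≃ₐ[K] L) where
  ι : Type
  [fin : Fintype ι]
  [dec : DecidableEq ι]
  /-- the blocks -/
  J : Type w'
  blk : ι → J
  π : J → J
  π_inj : Function.Injective π
  /-- the functionals -/
  φ : ι → (W.H X →ₗ[K] L)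
  span : ∀ ψ : W.H X →ₗ[K] L, ∃ c : ι → L, ∀ x, ψ x = ∑ i, c i * φ i x
  /-- the parity of a functional -/
  sgn : ι → ℕ
  parity : ∀ i x, φ i (W.par X x) = (-1) ^ sgn i * φ i x
  /-- index set of the operators -/
  G : Type w
  op : G → (W.H X →ₗ[K] W.H X)
  op_alg : ∀ g, op g ∈ W.algHom X X
  /-- the matrix coefficients -/
  M : ι → ι → G → L
  M_blk : ∀ i i' g, blk i ≠ blk i' → M i i' g = 0
  eig : ∀ i g x, φ i (op g x) = ∑ i', M i i' g * φ i' x
  indep : ∀ c : ι → ι → L, (∀ i i', blk i ≠ blk i' → c i i' = 0) →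
    (∀ g, ∑ i, ∑ i', c i i' * M i i' g = 0) → ∀ i i', c i i' = 0
  gal : ∀ i, ∃ t : ι → L, (∀ i', blk i' ≠ π (blk i) → t i' = 0) ∧
    ∀ x, σ (φ i x) = ∑ i', t i' * φ i' x
  star : W.H X →ₗ[K] W.H X
  star_alg : star ∈ W.algHom X X
  /-- the matrix of the form -/
  C : ι → ι → L
  C_blk : ∀ i i', blk i ≠ π (blk i') → C i i' = 0
  C_ker : ∀ v : ι → L, (∀ i', ∑ i, v i * C i i' = 0) → ∀ i, v i = 0
  form : ∀ x y, algebraMap K L (W.tr X (x * star y)) = ∑ i, ∑ i', C i i' * φ i x * φ i' y

attribute [instance] BSys.fin BSys.dec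

end Pool.Agent.H62D
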