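import Pool.Agent.W_f569db_h62.BDefs

/-! Complete systems of eigenfunctionals of a semisimple operator. -/

namespace Pool.Agent.H62D

open Polynomial

universe u v w w'

/-- a semisimple operator has a basis of eigenvectors -/
theorem BF1_basis {L : Type w'} {V : Type w} [Field L] [IsAlgClosed L]
    [AddCommGroup V] [Module L V] [FiniteDimensional L V] (f : Module.End L V)
    (hss : f.IsSemisimple) :
    ∃ (b : Module.Basis (Fin (Module.finrank L V)) L V) (α : Fin (Module.finrank L V) → L),
      ∀ i, f (b i) = α i • b i := by
  classical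
  let eigenDecomp := DirectSum.isInternal_submodule_of_iSupIndep_of_iSup_eq_top
    f.eigenspaces_iSupIndep hss.iSup_eigenspace_eq_top
  let b0 := eigenDecomp.collectedBasis fun μ => Module.finBasis L (f.eigenspace μ)
  have : Fintype ((ν : L) × Fin (Module.finrank L (f.eigenspace ν))) :=
    FiniteDimensional.fintypeBasisIndex b0
  have hcard : Fintype.card ((ν : L) × Fin (Module.finrank L (f.eigenspace ν))) =
      Module.finrank L V := (Module.finrank_eq_card_basis b0).symm
  refine ⟨b0.reindex (Fintype.equivFinOfCardEq hcard),
    fun i => ((Fintype.equivFinOfCardEq hcard).symm i).1, fun i => ?_⟩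
  rw [Module.Basis.reindex_apply]
  exact Module.End.mem_eigenspace_iff.mp (eigenDecomp.collectedBasis_mem _ _)

open scoped TensorProduct in
/-- a basis of eigenvectors gives a complete system of eigenfunctionals -/
theorem BF1_of_basis {K : Type v} {L : Type w'} {V : Type w} [Field K] [Field L] [Algebra K L]
    [AddCommGroup V] [Module K V] [FiniteDimensional K V] (e : V →ₗ[K] V) {ι : Type} [Fintype ι]
    (b : Module.Basis ι L (L ⊗[K] V)) (α : ι → L)
    (hb : ∀ i, (e.baseChange L) (b i) = α i • b i) : Nonempty (BEig (L := L) e ι) := by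
  classical
  have hdiag : ∀ i w, b.coord i ((e.baseChange L) w) = α i * b.coord i w := by
    intro i w
    have h : b.coord i ∘ₗ e.baseChange L = α i • b.coord i := by
      refine b.ext fun j => ?_
      rw [LinearMap.comp_apply, hb, map_smul, LinearMap.smul_apply, smul_eq_mul, smul_eq_mul]
      simp only [Module.Basis.coord_apply, Module.Basis.repr_self, Finsupp.single_apply]
      split_ifs with hij
      · rw [hij]
      · simp
    have h2 := LinearMap.congr_fun h w
    rw [LinearMap.comp_apply, LinearMap.smul_apply, smul_eq_mul] at h2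
    exact h2
  refine ⟨⟨α, fun i => ((b.coord i).restrictScalars K) ∘ₗ (TensorProduct.mk K L V 1), ?_, ?_, ?_⟩⟩
  · intro i x
    have h := hdiag i (1 ⊗ₜ[K] x)
    rw [LinearMap.baseChange_tmul] at h
    exact h
  · intro ψ
    refine ⟨fun i => ψ.liftBaseChange L (b i), fun x => ?_⟩
    have h1 : ψ.liftBaseChange L (1 ⊗ₜ[K] x) = ψ x := by
      rw [LinearMap.liftBaseChange_tmul, one_smul]
    rw [← h1]
    conv_lhs => rw [← b.sum_repr (1 ⊗ₜ[K] x)]
    rw [map_sum]
    refine Finset.sum_congr rfl fun i _ => ?_
    rw [map_smul, smul_eq_mul, mul_comm]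
    rfl
  · intro c hc i
    have h0 : (∑ i, c i • b.coord i) = 0 := by
      refine TensorProduct.AlgebraTensorModule.curry_injective ?_
      ext x
      have h1 := hc x
      simpa [LinearMap.sum_apply] using h1
    have h2 := LinearMap.congr_fun h0 (b i)
    rw [LinearMap.sum_apply, Finset.sum_eq_single i] at h2
    · simpa using h2
    · intro j _ hj
      simp [hj.symm]
    · intro h3
      exact absurd (Finset.mem_univ i) h3

/-- If `P(e) = 0` with `P` separable and `L` is algebraically closed then a complete system of
eigenfunctionals exists.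

Proof. Let `V_L = L ⊗[K] V`, `e_L = e.baseChange L`. Then `P_L(e_L) = 0` for `P_L = P.map _`
(`aeval` commutes with base change; or check that `aeval e_L P = (aeval e P).baseChange L`), and `P_L`
is separable, hence squarefree, so `e_L` is semisimple
(`Module.End.isSemisimple_of_squarefree_aeval_eq_zero`), its maximal generalised eigenspaces are
eigenspaces (`Module.End.IsFinitelySemisimple.maxGenEigenspace_eq_eigenspace`) and their supremum
is everything (`Module.End.iSup_maxGenEigenspace_eq_top`), so (`Module.End.eigenspaces_iSupIndep`)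
`V_L` has an `L`-basis `v_i` of eigenvectors, with eigenvalues `α_i`
(`DirectSum.IsInternal.collectedBasis`, reindexed by `Fin (finrank K V)`; another way: the spectral
induction `exists_basis`...). Put `φ_i x = coordinate i of 1 ⊗ x`. Then `φ_i (e x) = α_i φ_i x`
because `e_L` is diagonal in the basis `v`. Every `K`-linear `ψ : V → L` extends to an `L`-linear
`ψ_L : V_L → L` with `ψ_L (a ⊗ x) = a ψ x`
(`TensorProduct.AlgebraTensorModule.lift`), and `ψ x = ψ_L (1 ⊗ x) = ∑ φ_i(x) ψ_L(v_i)`: this is
`span`. If `∑ c_i φ_i x = 0` for all `x` then the `L`-linear functional `∑ c_i coord_i` vanishes on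
all `1 ⊗ x`, hence on all of `V_L`, and on `v_i` it is `c_i`: this is `indep`. -/
theorem exists_bEig {K : Type v} {L : Type w'} {V : Type w} [Field K] [Field L] [Algebra K L]
    [IsAlgClosed L] [AddCommGroup V] [Module K V] [FiniteDimensional K V] (e : V →ₗ[K] V)
    (P : K[X]) (hP : P.Separable) (he : aeval e P = 0) :
    Nonempty (BEig (L := L) e (Fin (Module.finrank K V))) := by
  classical
  have h0 : aeval (e.baseChange L) (P.map (algebraMap K L)) = 0 := by
    rw [aeval_map_algebraMap]
    have h1 : e.baseChange L = Module.End.baseChangeHom K L V e := rfl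
    rw [h1, aeval_algHom_apply, he, map_zero]
  have hss : Module.End.IsSemisimple (e.baseChange L) :=
    Module.End.isSemisimple_of_squarefree_aeval_eq_zero (hP.map).squarefree h0
  obtain ⟨b, α, hb⟩ := BF1_basis _ hss
  have hcard : Module.finrank L (TensorProduct K L V) = Module.finrank K V :=
    Module.finrank_baseChange
  refine BF1_of_basis e (b.reindex (finCongr hcard)) (fun i => α ((finCongr hcard).symm i))
    fun i => ?_
  rw [Module.Basis.reindex_apply]
  exact hb _

end Pool.Agent.H62D
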