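import Pool.Agent.W_f569db_h62.BDefs

/-! Eigenfunctionals: uniqueness of coefficients, Galois action, forms. -/

namespace Pool.Agent.H62D

open Polynomial

universe u v w w'

variable {K : Type v} {L : Type w'} {V : Type w} {ι : Type} [Field K] [Field L] [Algebra K L]
  [AddCommGroup V] [Module K V] [FiniteDimensional K V] [Fintype ι] [DecidableEq ι]
  {e : V →ₗ[K] V}

/-- Equality of coefficients. -/
theorem BEig.coeff_ext (E : BEig (L := L) e ι) (c d : ι → L)
    (h : ∀ x, ∑ i, c i * E.φ i x = ∑ i, d i * E.φ i x) (i : ι) : c i = d i := by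
  have h1 := E.indep (fun i => c i - d i) (fun x => by
    simp only [sub_mul, Finset.sum_sub_distrib, h x, sub_self]) i
  exact sub_eq_zero.1 h1

/-- The functionals separate points.

Proof. For `x ≠ 0` there is a `K`-linear `f : V → K` with `f x ≠ 0`
(`Module.forall_dual_apply_eq_zero_iff`). Apply `span` to `algebraMap K L ∘ f`. -/
theorem BEig.eq_zero (E : BEig (L := L) e ι) (x : V) (h : ∀ i, E.φ i x = 0) : x = 0 := by
  rw [← Module.forall_dual_apply_eq_zero_iff K x]
  intro f
  obtain ⟨c, hc⟩ := E.span ((Algebra.linearMap K L).comp f)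
  have h1 := hc x
  simp only [h, mul_zero, Finset.sum_const_zero, LinearMap.comp_apply,
    Algebra.linearMap_apply] at h1
  exact (map_eq_zero (algebraMap K L)).1 h1

/-- An `L`-linear relation between the coefficients of all functionals with values in `K` is
trivial.

Proof. Coordinate functionals `f_k` of a `K`-basis `b` of `V` (`Module.finBasis`): every
`ψ : V → L` is `ψ x = ∑ k, ψ (b k) * algebraMap (f_k x)`. Write `algebraMap ∘ f_k = ∑ c_{k i} φ_i`
(`span`). For `ψ = φ_j`: `φ_j = ∑_i (∑_k φ_j (b k) c_{k i}) φ_i`, so by `indep`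
`∑_k φ_j (b k) c_{k i} = δ_{ij}`, and `v_j = ∑_i v_i δ_{ij} = ∑_k φ_j (b k) (∑_i v_i c_{k i}) = 0`. -/
theorem BEig.coeff_zero (E : BEig (L := L) e ι) (v : ι → L)
    (h : ∀ (f : V →ₗ[K] K) (c : ι → L), (∀ x, algebraMap K L (f x) = ∑ i, c i * E.φ i x) →
      ∑ i, v i * c i = 0) (i : ι) : v i = 0 := by
  have hspan : ∀ k, ∃ c : ι → L, ∀ x,
      algebraMap K L ((Module.finBasis K V).coord k x) = ∑ i, c i * E.φ i x := fun k => by
    obtain ⟨c, hc⟩ := E.span ((Algebra.linearMap K L).comp ((Module.finBasis K V).coord k))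
    exact ⟨c, hc⟩
  choose c hc using hspan
  have h1 : ∀ x, E.φ i x = ∑ k, E.φ i (Module.finBasis K V k) *
      algebraMap K L ((Module.finBasis K V).coord k x) := by
    intro x
    conv_lhs => rw [← (Module.finBasis K V).sum_repr x]
    rw [map_sum]
    refine Finset.sum_congr rfl fun k _ => ?_
    rw [map_smul, Algebra.smul_def, mul_comm]
    rfl
  have h2 : ∀ j, (∑ k, E.φ i (Module.finBasis K V k) * c k j) = if j = i then 1 else 0 := by
    refine E.coeff_ext _ _ fun x => ?_
    have h3 : ∑ j, (if j = i then (1 : L) else 0) * E.φ j x = E.φ i x := by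
      simp
    rw [h3, h1 x]
    simp only [hc, Finset.mul_sum, Finset.sum_mul]
    rw [Finset.sum_comm]
    refine Finset.sum_congr rfl fun k _ => Finset.sum_congr rfl fun j _ => ?_
    ring
  have h4 : v i = ∑ j, v j * (if j = i then (1 : L) else 0) := by simp
  rw [h4]
  simp only [← h2, Finset.mul_sum]
  rw [Finset.sum_comm]
  refine Finset.sum_eq_zero fun k _ => ?_
  have h5 := h ((Module.finBasis K V).coord k) (c k) (hc k)
  calc ∑ j, v j * (E.φ i (Module.finBasis K V k) * c k j)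
      = E.φ i (Module.finBasis K V k) * ∑ j, v j * c k j := by
        rw [Finset.mul_sum]
        refine Finset.sum_congr rfl fun j _ => ?_
        ring
    _ = 0 := by rw [h5, mul_zero]

/-- Coefficients of an eigenfunctional.

Proof. `0 = ψ (e x) - β * ψ x = ∑ i, c i * (α i - β) * φ i x` for all `x`, so `c i * (α i - β) = 0` by
`indep`. -/
theorem BEig.coeff_eig (E : BEig (L := L) e ι) (ψ : V → L) (β : L)
    (h : ∀ x, ψ (e x) = β * ψ x) (c : ι → L) (hc : ∀ x, ψ x = ∑ i, c i * E.φ i x) (i : ι)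
    (hi : E.α i ≠ β) : c i = 0 := by
  have h1 := E.coeff_ext (fun i => c i * E.α i) (fun i => β * c i) (fun x => by
    have h2 := h x
    rw [hc, hc, Finset.mul_sum] at h2
    simp only [E.eig] at h2
    calc ∑ i, c i * E.α i * E.φ i x = ∑ i, c i * (E.α i * E.φ i x) :=
          Finset.sum_congr rfl fun i _ => by ring
      _ = ∑ i, β * (c i * E.φ i x) := h2
      _ = _ := Finset.sum_congr rfl fun i _ => by ring) i
  have h3 : c i * (E.α i - β) = 0 := by
    have : c i * E.α i = β * c i := h1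
    rw [mul_sub, this, mul_comm β, sub_self]
  exact (mul_eq_zero.1 h3).resolve_right (sub_ne_zero.2 hi)

/-- The Galois action.

Proof. `x ↦ σ (φ i x)` is `K`-linear (`σ` is a `K`-algebra automorphism, `AlgEquiv.toLinearMap`),
so it is `∑ t i' * φ i' x` by `span`; it is an eigenfunctional with eigenvalue `σ (α i)`; use
`coeff_eig`. -/
theorem BEig.gal (E : BEig (L := L) e ι) (σ : L ≃ₐ[K] L) (i : ι) :
    ∃ t : ι → L, (∀ i', E.α i' ≠ σ (E.α i) → t i' = 0) ∧
      ∀ x, σ (E.φ i x) = ∑ i', t i' * E.φ i' x := by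
  obtain ⟨t, ht⟩ := E.span (σ.toLinearMap.comp (E.φ i))
  have ht' : ∀ x, σ (E.φ i x) = ∑ i', t i' * E.φ i' x := ht
  refine ⟨t, fun i' hi' => ?_, ht'⟩
  refine E.coeff_eig (fun x => σ (E.φ i x)) (σ (E.α i)) (fun x => ?_) t ht' i' hi'
  show σ (E.φ i (e x)) = σ (E.α i) * σ (E.φ i x)
  rw [E.eig, map_mul]

/-- The form.

Proof. Let `b` be a `K`-basis of `V` with coordinates; for every `y` the functional `x ↦ Q x y`
has values in `K`. Existence of `C`: write `algebraMap ∘ (coordinate k) = ∑ i, d k i * φ i`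
(`span`), then `Q x y = ∑_{k,l} (coordinate k x) (coordinate l y) Q (b k) (b l)`, so
`C i i' = ∑_{k,l} d k i * d l i' * Q (b k) (b l)`.
For fixed `y`, `∑ i, (∑ i', C i i' * α i * φ i' y) * φ i x = Q (e x) y = Q x (e' y)
= ∑ i, (∑ i', C i i' * σ (α i') * φ i' y) * φ i x` for all `x`, so by `indep` (twice)
`C i i' * (α i - σ (α i')) = 0`.
Let `∑ i, v i * C i i' = 0` for all `i'`. To see `v = 0` use `coeff_zero`: let
`algebraMap (f x) = ∑ c i * φ i x`; by `hQ` there is `y` with `f x = Q x y`, so by uniqueness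
`c i = ∑ i', C i i' * φ i' y` and `∑ i, v i * c i = ∑ i', (∑ i, v i * C i i') * φ i' y = 0`. -/
theorem BEig.form (E : BEig (L := L) e ι) (σ : L ≃ₐ[K] L) (Q : V →ₗ[K] V →ₗ[K] K)
    (e' : V →ₗ[K] V) (hadj : ∀ x y, Q (e x) y = Q x (e' y))
    (hQ : ∀ f : V →ₗ[K] K, ∃ y, ∀ x, f x = Q x y)
    (he' : ∀ i x, E.φ i (e' x) = σ (E.α i) * E.φ i x) :
    ∃ C : ι → ι → L, (∀ i i', E.α i ≠ σ (E.α i') → C i i' = 0) ∧
      (∀ v : ι → L, (∀ i', ∑ i, v i * C i i' = 0) → ∀ i, v i = 0) ∧
      ∀ x y, algebraMap K L (Q x y) = ∑ i, ∑ i', C i i' * E.φ i x * E.φ i' y := by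
  have hspan : ∀ k, ∃ c : ι → L, ∀ x,
      algebraMap K L ((Module.finBasis K V).coord k x) = ∑ i, c i * E.φ i x := fun k => by
    obtain ⟨c, hc⟩ := E.span ((Algebra.linearMap K L).comp ((Module.finBasis K V).coord k))
    exact ⟨c, hc⟩
  have hspan' : ∀ k, ∃ c : ι → L, ∀ y,
      algebraMap K L (Q (Module.finBasis K V k) y) = ∑ i, c i * E.φ i y := fun k => by
    obtain ⟨c, hc⟩ := E.span ((Algebra.linearMap K L).comp (Q (Module.finBasis K V k)))
    exact ⟨c, hc⟩
  choose d hd using hspan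
  choose g hg using hspan'
  -- the matrix
  have hform : ∀ x y, algebraMap K L (Q x y) =
      ∑ i, ∑ i', (∑ k, d k i * g k i') * E.φ i x * E.φ i' y := by
    intro x y
    have h1 : Q x y = ∑ k, (Module.finBasis K V).coord k x * Q (Module.finBasis K V k) y := by
      conv_lhs => rw [← (Module.finBasis K V).sum_repr x]
      rw [map_sum, LinearMap.sum_apply]
      refine Finset.sum_congr rfl fun k _ => ?_
      rw [map_smul, LinearMap.smul_apply, smul_eq_mul]
      rfl
    rw [h1, map_sum]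
    simp only [map_mul, hd, hg]
    calc ∑ k, (∑ i, d k i * E.φ i x) * (∑ i', g k i' * E.φ i' y)
        = ∑ k, ∑ i, ∑ i', (d k i * E.φ i x) * (g k i' * E.φ i' y) := by
          refine Finset.sum_congr rfl fun k _ => ?_
          rw [Finset.sum_mul_sum]
      _ = ∑ i, ∑ k, ∑ i', (d k i * E.φ i x) * (g k i' * E.φ i' y) := Finset.sum_comm
      _ = ∑ i, ∑ i', ∑ k, (d k i * E.φ i x) * (g k i' * E.φ i' y) :=
          Finset.sum_congr rfl fun i _ => Finset.sum_comm
      _ = _ := by
          refine Finset.sum_congr rfl fun i _ => Finset.sum_congr rfl fun i' _ => ?_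
          rw [Finset.sum_mul, Finset.sum_mul]
          exact Finset.sum_congr rfl fun k _ => by ring
  obtain ⟨C, hC⟩ : ∃ C : ι → ι → L, ∀ x y, algebraMap K L (Q x y) =
      ∑ i, ∑ i', C i i' * E.φ i x * E.φ i' y :=
    ⟨fun i i' => ∑ k, d k i * g k i', hform⟩
  -- uniqueness
  have hrow : ∀ (A : ι → ι → L) (x y : V), ∑ i, ∑ i', A i i' * E.φ i x * E.φ i' y =
      ∑ i, (∑ i', A i i' * E.φ i' y) * E.φ i x := by
    intro A x y
    refine Finset.sum_congr rfl fun i _ => ?_
    rw [Finset.sum_mul]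
    exact Finset.sum_congr rfl fun i' _ => by ring
  refine ⟨C, fun i i' hii' => ?_, fun v hv => ?_, hC⟩
  · have h1 : ∀ y i, (∑ i', (C i i' * E.α i) * E.φ i' y) =
        ∑ i', (C i i' * σ (E.α i')) * E.φ i' y := by
      intro y
      refine E.coeff_ext _ _ fun x => ?_
      rw [← hrow (fun i i' => C i i' * E.α i) x y, ← hrow (fun i i' => C i i' * σ (E.α i')) x y]
      have h2 : algebraMap K L (Q (e x) y) = algebraMap K L (Q x (e' y)) := by rw [hadj]
      rw [hC, hC] at h2
      simp only [E.eig, he'] at h2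
      calc ∑ i, ∑ i', C i i' * E.α i * E.φ i x * E.φ i' y
          = ∑ i, ∑ i', C i i' * (E.α i * E.φ i x) * E.φ i' y :=
            Finset.sum_congr rfl fun i _ => Finset.sum_congr rfl fun i' _ => by ring
        _ = ∑ i, ∑ i', C i i' * E.φ i x * (σ (E.α i') * E.φ i' y) := h2
        _ = _ := Finset.sum_congr rfl fun i _ => Finset.sum_congr rfl fun i' _ => by ring
    have h3 : C i i' * E.α i = C i i' * σ (E.α i') :=
      E.coeff_ext (fun i' => C i i' * E.α i) (fun i' => C i i' * σ (E.α i')) (fun y => h1 y i) i'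
    have h4 : C i i' * (E.α i - σ (E.α i')) = 0 := by rw [mul_sub, h3, sub_self]
    exact (mul_eq_zero.1 h4).resolve_right (sub_ne_zero.2 hii')
  · refine E.coeff_zero v fun f c hc => ?_
    obtain ⟨y, hy⟩ := hQ f
    have h1 : ∀ i, c i = ∑ i', C i i' * E.φ i' y := by
      refine E.coeff_ext _ _ fun x => ?_
      rw [← hc x, hy x, hC, hrow C x y]
    simp only [h1, Finset.mul_sum]
    rw [Finset.sum_comm]
    refine Finset.sum_eq_zero fun i' _ => ?_
    calc ∑ i, v i * (C i i' * E.φ i' y) = (∑ i, v i * C i i') * E.φ i' y := by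
          rw [Finset.sum_mul]
          exact Finset.sum_congr rfl fun i _ => by ring
      _ = 0 := by rw [hv i', zero_mul]

end Pool.Agent.H62D
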