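import Pool.Agent.W_f569db_h62.BF2

/-! The matrix coefficients of the commutant. -/

namespace Pool.Agent.H62D

open Polynomial

universe u v w w'

variable {K : Type v} {L : Type w'} {V : Type w} {ι : Type} [Field K] [Field L] [Algebra K L]
  [AddCommGroup V] [Module K V] [FiniteDimensional K V] [Fintype ι] [DecidableEq ι]
  {e : V →ₗ[K] V}

/-- Uniqueness of coefficients. -/
theorem BEig.coeff_unique (E : BEig (L := L) e ι) (c d : ι → L)
    (h : ∀ x, ∑ i, c i * E.φ i x = ∑ i, d i * E.φ i x) (i : ι) : c i = d i := by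
  have := E.indep (fun i => c i - d i) (by
    intro x
    simp only [sub_mul, Finset.sum_sub_distrib]
    rw [h x, sub_self]) i
  exact sub_eq_zero.mp this

/-- The matrix coefficients of all endomorphisms are linearly independent.

Proof. For `v₀ : V` and `f : V →ₗ[K] K` let `g x = f x • v₀` (`LinearMap.smulRight f v₀`), let
`algebraMap (f x) = ∑ d i' * φ i' x`. Then `φ i (g x) = (f x) * φ i v₀ = ∑ i', (φ i v₀ * d i') * φ i' x`,
so `M i i' g = φ i v₀ * d i'` (`indep`). So `∑ i, (∑ i', c i i' * d i') * φ i v₀ = 0` for all `v₀`, and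
`∑ i', c i i' * d i' = 0` by `indep`. For fixed `i` apply `BEig.coeff_zero` to `v = c i`. -/
theorem BEig.full_indep (E : BEig (L := L) e ι) (M : ι → ι → (V →ₗ[K] V) → L)
    (hM : ∀ i g x, E.φ i (g x) = ∑ i', M i i' g * E.φ i' x) (c : ι → ι → L)
    (h : ∀ g, ∑ i, ∑ i', c i i' * M i i' g = 0) (i i' : ι) : c i i' = 0 := by
  refine E.coeff_zero (c i) ?_ i'
  intro f d hd
  refine E.indep (fun i => ∑ i', c i i' * d i') ?_ i
  intro v₀
  have hg := h (LinearMap.smulRight f v₀)
  have hMg : ∀ a b, M a b (LinearMap.smulRight f v₀) = E.φ a v₀ * d b := by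
    intro a b
    refine E.coeff_unique (fun b => M a b (LinearMap.smulRight f v₀))
      (fun b => E.φ a v₀ * d b) ?_ b
    intro x
    rw [← hM a _ x]
    simp only [LinearMap.smulRight_apply, map_smul, Algebra.smul_def]
    rw [hd x, Finset.sum_mul]
    refine Finset.sum_congr rfl fun b _ => by ring
  simp only [hMg] at hg
  rw [← hg]
  refine Finset.sum_congr rfl fun a _ => ?_
  rw [Finset.sum_mul]
  refine Finset.sum_congr rfl fun b _ => by ring

theorem BEig.coef_add (E : BEig (L := L) e ι) (M : ι → ι → (V →ₗ[K] V) → L)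
    (hM : ∀ i g x, E.φ i (g x) = ∑ i', M i i' g * E.φ i' x) (i i' : ι) (g g' : V →ₗ[K] V) :
    M i i' (g + g') = M i i' g + M i i' g' := by
  refine E.coeff_unique (fun b => M i b (g + g')) (fun b => M i b g + M i b g') ?_ i'
  intro x
  simp only [add_mul, Finset.sum_add_distrib]
  rw [← hM, ← hM, ← hM, LinearMap.add_apply, map_add]

theorem BEig.coef_smul (E : BEig (L := L) e ι) (M : ι → ι → (V →ₗ[K] V) → L)
    (hM : ∀ i g x, E.φ i (g x) = ∑ i', M i i' g * E.φ i' x) (i i' : ι) (a : K)
    (g : V →ₗ[K] V) :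
    M i i' (a • g) = algebraMap K L a * M i i' g := by
  refine E.coeff_unique (fun b => M i b (a • g)) (fun b => algebraMap K L a * M i b g) ?_ i'
  intro x
  simp only [mul_assoc]
  rw [← Finset.mul_sum, ← hM, ← hM, LinearMap.smul_apply, map_smul, Algebra.smul_def]

/-- The commutator operator. -/
noncomputable def commOp (e : V →ₗ[K] V) : Module.End K (Module.End K V) :=
  LinearMap.mulLeft K (e : Module.End K V) - LinearMap.mulRight K (e : Module.End K V)

theorem commOp_apply (e g : V →ₗ[K] V) : commOp e g = e ∘ₗ g - g ∘ₗ e := by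
  rfl

theorem BEig.coef_comm (E : BEig (L := L) e ι) (M : ι → ι → (V →ₗ[K] V) → L)
    (hM : ∀ i g x, E.φ i (g x) = ∑ i', M i i' g * E.φ i' x) (i i' : ι) (g : V →ₗ[K] V) :
    M i i' (commOp e g) = (E.α i - E.α i') * M i i' g := by
  refine E.coeff_unique (fun b => M i b (commOp e g)) (fun b => (E.α i - E.α b) * M i b g) ?_ i'
  intro x
  rw [← hM, commOp_apply, LinearMap.sub_apply, map_sub, LinearMap.comp_apply,
    LinearMap.comp_apply, E.eig, hM i g x, hM i g (e x), Finset.mul_sum,
    ← Finset.sum_sub_distrib]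
  refine Finset.sum_congr rfl fun b _ => ?_
  rw [E.eig]
  ring

theorem BEig.coef_poly (E : BEig (L := L) e ι) (M : ι → ι → (V →ₗ[K] V) → L)
    (hM : ∀ i g x, E.φ i (g x) = ∑ i', M i i' g * E.φ i' x) (q : K[X]) (i i' : ι)
    (g : V →ₗ[K] V) :
    M i i' (aeval (commOp e) q g) = aeval (E.α i - E.α i') q * M i i' g := by
  induction q using Polynomial.induction_on' generalizing g with
  | add p q hp hq =>
    rw [map_add, map_add, LinearMap.add_apply, E.coef_add M hM, hp, hq, add_mul]
  | monomial n a =>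
    induction n generalizing g with
    | zero =>
      have h1 : aeval (commOp e) (monomial 0 a) g = a • g := by
        rw [monomial_zero_left, aeval_C]; rfl
      rw [h1, E.coef_smul M hM, monomial_zero_left, aeval_C]
    | succ n ih =>
      have h1 : aeval (commOp e) (monomial (n + 1) a) g =
          aeval (commOp e) (monomial n a) (commOp e g) := by
        rw [← monomial_mul_X, map_mul, aeval_X]; rfl
      rw [h1, ih, E.coef_comm M hM, ← monomial_mul_X, map_mul, aeval_X, mul_assoc]

/-- The projection onto the commutant.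

Proof. Let `D : End_K(V) → End_K(V)`, `D g = e ∘ g - g ∘ e` (`LinearMap.mulLeft K e -
LinearMap.mulRight K e` on `Module.End K V`), and let `M i i' g` be the matrix coefficients of all
`g` (they exist by `span`, `K`-linear in `g` by uniqueness). `φ i (e (g x)) = α i * φ i (g x)` and
`φ i (g (e x)) = ∑ i', M i i' g * α i' * φ i' x`, so `M i i' (D g) = (α i - α i') * M i i' g`, and
`M i i' (q(D) g) = q(α i - α i') * M i i' g` for every `q : K[X]` (induction).
Let `R = D.charpoly = X ^ m * R₁` with `R₁(0) ≠ 0` (`m` is the multiplicity of the root `0`,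
`Polynomial.exists_eq_pow_rootMultiplicity_mul_and_not_dvd`), `q = C (R₁(0))⁻¹ * R₁`, so `q(0) = 1`. By
Cayley-Hamilton `R(D) = 0`; the functional `M i i'` is nonzero (`full_indep` for
`c = single`), so `R(α i - α i') = 0`, and if `α i ≠ α i'` then `R₁(α i - α i') = 0`, so
`q(α i - α i') = 0`. Put `p = q(D)`. Then `M i i' (p g) = M i i' g` if `α i = α i'` and `= 0` otherwise.
Finally `M i i' (D (p g)) = (α i - α i') * M i i' (p g) = 0` for all `i, i'`, so `φ i ((D (p g)) x) = 0` for
all `i`, `x`, and `D (p g) = 0` (`BEig.eq_zero`), that is `p g` commutes with `e`. -/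
theorem BEig.exists_proj (E : BEig (L := L) e ι) (M : ι → ι → (V →ₗ[K] V) → L)
    (hM : ∀ i g x, E.φ i (g x) = ∑ i', M i i' g * E.φ i' x) (g : V →ₗ[K] V) :
    ∃ g' : V →ₗ[K] V, g' ∘ₗ e = e ∘ₗ g' ∧
      (∀ i i', E.α i = E.α i' → M i i' g' = M i i' g) ∧
      (∀ i i', E.α i ≠ E.α i' → M i i' g' = 0) := by
  obtain ⟨R₁, hR, hnd⟩ := Polynomial.exists_eq_pow_rootMultiplicity_mul_and_not_dvd
    (commOp e).charpoly (LinearMap.charpoly_monic _).ne_zero 0
  have hCH : aeval (commOp e) (commOp e).charpoly = 0 := LinearMap.aeval_self_charpoly _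
  have h0 : R₁.eval 0 ≠ 0 := by
    intro h
    apply hnd
    exact Polynomial.dvd_iff_isRoot.mpr h
  set q : K[X] := C (R₁.eval 0)⁻¹ * R₁ with hq
  have hq0 : ∀ z : L, z = 0 → aeval z q = 1 := by
    intro z hz
    subst hz
    rw [hq, map_mul, aeval_C]
    have : aeval (0 : L) R₁ = algebraMap K L (R₁.eval 0) := by
      rw [← map_zero (algebraMap K L), aeval_algebraMap_apply, coe_aeval_eq_eval]
    rw [this, ← map_mul, inv_mul_cancel₀ h0, map_one]
  have hqz : ∀ i i', E.α i ≠ E.α i' → aeval (E.α i - E.α i') q = 0 := by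
    intro i i' hne
    have hnz : ∃ g₀, M i i' g₀ ≠ 0 := by
      by_contra hcon
      push Not at hcon
      have := E.full_indep M hM (fun a b => if a = i ∧ b = i' then 1 else 0) (by
        intro g₁
        refine Finset.sum_eq_zero fun a _ => Finset.sum_eq_zero fun b _ => ?_
        by_cases hab : a = i ∧ b = i'
        · rw [hab.1, hab.2, hcon g₁, mul_zero]
        · simp only [if_neg hab, zero_mul]) i i'
      simp at this
    obtain ⟨g₀, hg₀⟩ := hnz
    have h1 := E.coef_poly M hM (commOp e).charpoly i i' g₀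
    rw [hCH] at h1
    have h2 : M i i' ((0 : Module.End K (Module.End K V)) g₀) = 0 := by
      have := E.coef_smul M hM i i' 0 g₀
      rw [map_zero, zero_mul, zero_smul] at this
      exact this
    rw [h2] at h1
    have h3 : aeval (E.α i - E.α i') (commOp e).charpoly = 0 := by
      rcases mul_eq_zero.mp h1.symm with h | h
      · exact h
      · exact absurd h hg₀
    rw [hR, map_mul, map_pow] at h3
    have h4 : aeval (E.α i - E.α i') R₁ = 0 := by
      rcases mul_eq_zero.mp h3 with h | h
      · exfalso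
        have h6 : aeval (E.α i - E.α i') (X - C (0 : K)) = 0 := eq_zero_of_pow_eq_zero h
        rw [map_zero, sub_zero, aeval_X] at h6
        exact hne (sub_eq_zero.mp h6)
      · exact h
    rw [hq, map_mul, h4, mul_zero]
  have hz : ∀ i i', E.α i ≠ E.α i' → M i i' (aeval (commOp e) q g) = 0 := by
    intro i i' hne
    rw [E.coef_poly M hM, hqz i i' hne, zero_mul]
  refine ⟨aeval (commOp e) q g, ?_, ?_, hz⟩
  · have hcomm : commOp e (aeval (commOp e) q g) = 0 := by
      refine LinearMap.ext fun x => ?_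
      refine E.eq_zero _ fun i => ?_
      rw [hM]
      refine Finset.sum_eq_zero fun i' _ => ?_
      rw [E.coef_comm M hM]
      by_cases h : E.α i = E.α i'
      · rw [h, sub_self, zero_mul, zero_mul]
      · rw [hz i i' h, mul_zero, zero_mul]
    rw [commOp_apply] at hcomm
    exact (sub_eq_zero.mp hcomm).symm
  · intro i i' h
    rw [E.coef_poly M hM, hq0 _ (sub_eq_zero.mpr h), one_mul]

/-- The matrix coefficients of the commutant are block diagonal.

Proof. `x ↦ φ i (g x)` is an eigenfunctional with eigenvalue `α i`; `BEig.coeff_eig`. -/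
theorem BEig.comm_blk (E : BEig (L := L) e ι)
    (M : ι → ι → {g : V →ₗ[K] V // g ∘ₗ e = e ∘ₗ g} → L)
    (hM : ∀ i g x, E.φ i (g.1 x) = ∑ i', M i i' g * E.φ i' x) (i i' : ι)
    (g : {g : V →ₗ[K] V // g ∘ₗ e = e ∘ₗ g}) (h : E.α i ≠ E.α i') : M i i' g = 0 := by
  refine E.coeff_eig (fun x => E.φ i (g.1 x)) (E.α i) ?_ (fun b => M i b g) (hM i g) i' (Ne.symm h)
  intro x
  have : g.1 (e x) = e (g.1 x) := LinearMap.congr_fun g.2 x
  show E.φ i (g.1 (e x)) = _
  rw [this, E.eig]

/-- The matrix coefficients of the commutant are linearly independent.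

Proof. Choose the matrix coefficients `M'` of all endomorphisms (`span`); for `g` in the commutant
`M' i i' g = M i i' g` by uniqueness (`indep`). For every `g` take `g'` from `exists_proj`; then
`0 = ∑ i, ∑ i', c i i' * M i i' g' = ∑ i, ∑ i', c i i' * M' i i' g` (`c i i' = 0` when
`α i ≠ α i'`). Now `full_indep`. -/
theorem BEig.comm_indep (E : BEig (L := L) e ι)
    (M : ι → ι → {g : V →ₗ[K] V // g ∘ₗ e = e ∘ₗ g} → L)
    (hM : ∀ i g x, E.φ i (g.1 x) = ∑ i', M i i' g * E.φ i' x) (c : ι → ι → L)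
    (hc : ∀ i i', E.α i ≠ E.α i' → c i i' = 0)
    (h : ∀ g, ∑ i, ∑ i', c i i' * M i i' g = 0) (i i' : ι) : c i i' = 0 := by
  choose N hN using fun (i : ι) (g : V →ₗ[K] V) => E.span ((E.φ i).comp g)
  have hN' : ∀ i g x, E.φ i (g x) = ∑ i', N i g i' * E.φ i' x := fun i g x => hN i g x
  refine E.full_indep (fun i i' g => N i g i') hN' c ?_ i i'
  intro g
  obtain ⟨g', hg', h1, h2⟩ := E.exists_proj (fun i i' g => N i g i') hN' g
  have h3 : ∀ a b, M a b ⟨g', hg'⟩ = N a g' b := by
    intro a b
    refine E.coeff_unique (fun b => M a b ⟨g', hg'⟩) (fun b => N a g' b) ?_ b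
    intro x
    rw [← hM a ⟨g', hg'⟩ x, hN' a g' x]
  rw [← h ⟨g', hg'⟩]
  refine Finset.sum_congr rfl fun a _ => Finset.sum_congr rfl fun b _ => ?_
  rw [h3]
  by_cases hab : E.α a = E.α b
  · rw [← h1 a b hab]
  · rw [hc a b hab, zero_mul, zero_mul]

/-- An involution which commutes with the commutant acts on every functional by a sign.

Proof. `ρ` commutes with `e` (take `g = e`), so `ρ` is in the commutant; let `M` be the matrix
coefficients of the commutant (chosen by `span`) and `r a b = M a b ρ`. For all `g` in the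
commutant, comparing the coefficients (`indep`) of `φ i (ρ (g x)) = φ i (g (ρ x))`:
`∑ a, r i a * M a k g = ∑ a, M i a g * r a k` for all `i, k`. Fix `i` and take `k = i`:
`∑ a, ∑ b, c a b * M a b g = 0` with `c a b = r i a * [b = i] - [a = i] * r b i`. If `α a ≠ α b` then
`c a b = 0`: in the first term `b = i` and `r i a = 0` by `comm_blk`, similarly for the second. By
`comm_indep` `c a i = 0` for `a ≠ i`, that is `r i a = 0` for `a ≠ i`. So `φ i (ρ x) = r i i * φ i x`, and
`ρ ∘ ρ = id` gives `(r i i)^2 * φ i x = φ i x`, `φ i ≠ 0` (`indep`), so `r i i = 1` or `r i i = -1`. -/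
theorem BEig.parity (E : BEig (L := L) e ι) (ρ : V →ₗ[K] V) (hρ : ∀ x, ρ (ρ x) = x)
    (hcomm : ∀ g : V →ₗ[K] V, g ∘ₗ e = e ∘ₗ g → g ∘ₗ ρ = ρ ∘ₗ g) (i : ι) :
    ∃ s : ℕ, ∀ x, E.φ i (ρ x) = (-1) ^ s * E.φ i x := by
  have hρe : ρ ∘ₗ e = e ∘ₗ ρ := (hcomm e rfl).symm
  choose M hM using fun (i : ι) (g : {g : V →ₗ[K] V // g ∘ₗ e = e ∘ₗ g}) =>
    E.span ((E.φ i).comp g.1)
  have hM' : ∀ i g x, E.φ i (g.1 x) = ∑ i', M i g i' * E.φ i' x := fun i g x => hM i g x
  set R : {g : V →ₗ[K] V // g ∘ₗ e = e ∘ₗ g} := ⟨ρ, hρe⟩ with hR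
  have hblk : ∀ a b g, E.α a ≠ E.α b → M a g b = 0 := fun a b g hab =>
    E.comm_blk (fun i i' g => M i g i') hM' a b g hab
  -- comparison
  have hcmp : ∀ g, ∑ a, M i R a * M a g i = ∑ a, M i g a * M a R i := by
    intro g
    refine E.coeff_unique (fun k => ∑ a, M i R a * M a g k) (fun k => ∑ a, M i g a * M a R k)
      ?_ i
    intro x
    have e1 : E.φ i (ρ (g.1 x)) = ∑ k, (∑ a, M i R a * M a g k) * E.φ k x := by
      rw [show E.φ i (ρ (g.1 x)) = ∑ a, M i R a * E.φ a (g.1 x) from hM' i R (g.1 x)]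
      simp only [hM' _ g x, Finset.mul_sum, Finset.sum_mul]
      rw [Finset.sum_comm]
      refine Finset.sum_congr rfl fun a _ => Finset.sum_congr rfl fun b _ => by ring
    have e2 : E.φ i (g.1 (ρ x)) = ∑ k, (∑ a, M i g a * M a R k) * E.φ k x := by
      rw [show E.φ i (g.1 (ρ x)) = ∑ a, M i g a * E.φ a (ρ x) from hM' i g (ρ x)]
      simp only [show ∀ a, E.φ a (ρ x) = ∑ k, M a R k * E.φ k x from fun a => hM' a R x,
        Finset.mul_sum, Finset.sum_mul]
      rw [Finset.sum_comm]
      refine Finset.sum_congr rfl fun a _ => Finset.sum_congr rfl fun b _ => by ring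
    rw [← e1, ← e2]
    have := LinearMap.congr_fun (hcomm g.1 g.2) x
    simp only [LinearMap.comp_apply] at this
    rw [this]
  have hzero := E.comm_indep (fun i i' g => M i g i') hM'
    (fun a b => (if b = i then M i R a else 0) - (if a = i then M b R i else 0)) (by
      intro a b hab
      by_cases hb : b = i
      · subst hb
        have h1 : M b R a = 0 := hblk b a R (Ne.symm hab)
        have h2 : a ≠ b := fun h => hab (by rw [h])
        simp [h1, h2]
      · by_cases ha : a = i
        · subst ha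
          have h1 : M b R a = 0 := hblk b a R (Ne.symm hab)
          simp [h1, hb]
        · simp [ha, hb]) (by
      intro g
      simp only [sub_mul, Finset.sum_sub_distrib, ite_mul, zero_mul, Finset.sum_ite_eq',
        Finset.mem_univ, if_true]
      rw [hcmp g]
      rw [sub_eq_zero]
      rw [Finset.sum_comm]
      simp only [Finset.sum_ite_eq', Finset.mem_univ, if_true]
      refine Finset.sum_congr rfl fun a _ => by ring)
  have hr : ∀ a, a ≠ i → M i R a = 0 := by
    intro a ha
    have := hzero a i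
    simpa [ha] using this
  have h1 : ∀ x, E.φ i (ρ x) = M i R i * E.φ i x := by
    intro x
    rw [show E.φ i (ρ x) = ∑ k, M i R k * E.φ k x from hM' i R x]
    rw [Finset.sum_eq_single i]
    · intro b _ hb
      rw [hr b hb, zero_mul]
    · intro h
      exact absurd (Finset.mem_univ i) h
  have hne : ∃ x, E.φ i x ≠ 0 := by
    by_contra hcon
    push Not at hcon
    have := E.indep (fun a => if a = i then 1 else 0) (by
      intro x
      simp [hcon x]) i
    simp at this
  obtain ⟨x₀, hx₀⟩ := hne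
  have hsq : M i R i * M i R i = 1 := by
    have := h1 (ρ x₀)
    rw [hρ, h1 x₀, ← mul_assoc] at this
    have h2 : (M i R i * M i R i - 1) * E.φ i x₀ = 0 := by
      rw [sub_mul, one_mul, ← this, sub_self]
    rcases mul_eq_zero.mp h2 with h | h
    · exact sub_eq_zero.mp h
    · exact absurd h hx₀
  rcases mul_self_eq_one_iff.mp hsq with h | h
  · exact ⟨0, fun x => by rw [h1 x, h, pow_zero]⟩
  · exact ⟨1, fun x => by rw [h1 x, h, pow_one]⟩

end Pool.Agent.H62D
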