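import Pool.Agent.W_f569db_h62.SysF0
import Pool.Agent.W_f569db_h62.BF1
import Pool.Agent.W_f569db_h62.BF3

/-! The block system attached to one endomorphism. -/

namespace Pool.Agent.H62D

open Polynomial Pool.Agent.WeilH_h6 Pool.Agent.WeilH_h6.VarClass

universe u v w w'

/-- The adjoint acts on eigenfunctionals by the conjugate eigenvalue.

Proof. If `ψ = 0` this is clear. By induction on polynomials `ψ (aeval e p x) = p(β) ψ x` for every
`p : K[X]` (`h` gives `ψ (e ^ n x) = β ^ n * ψ x`). For `p = P.map _` we get `P(β) ψ x = 0` for all `x`,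
hence `P(β) = 0`, and `σ β = g(β)` by `hσ`. For `p = g.map _` we get the claim. -/
theorem adj_eig' {K : Type v} [Field K] [CharZero K] {V : Type w} [AddCommGroup V] [Module K V]
    [FiniteDimensional K V] {L : Type w'} [Field L] [Algebra K L] (σ : L ≃ₐ[K] L)
    (e : V →ₗ[K] V) (P g : ℚ[X]) (hP : aeval e (P.map (algebraMap ℚ K)) = 0)
    (hσ : ∀ β : L, (P.map ((algebraMap K L).comp (algebraMap ℚ K))).eval β = 0 →
      σ β = (g.map ((algebraMap K L).comp (algebraMap ℚ K))).eval β)
    (ψ : V →ₗ[K] L) (β : L) (h : ∀ x, ψ (e x) = β * ψ x) (x : V) :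
    ψ (aeval e (g.map (algebraMap ℚ K)) x) = σ β * ψ x := by
  by_cases hψ : ∃ y, ψ y ≠ 0
  · obtain ⟨y, hy⟩ := hψ
    have h1 := SysF_aeval e ψ β h (P.map (algebraMap ℚ K)) y
    rw [hP, LinearMap.zero_apply, map_zero, Polynomial.map_map] at h1
    have h2 : (P.map ((algebraMap K L).comp (algebraMap ℚ K))).eval β = 0 := by
      rcases mul_eq_zero.1 h1.symm with h3 | h3
      · exact h3
      · exact absurd h3 hy
    rw [hσ β h2, SysF_aeval e ψ β h, Polynomial.map_map]
  · push Not at hψ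
    rw [hψ, hψ, mul_zero]

/-- The block system attached to an operator `e` with `P(e) = 0`, `P` separable, all of whose
commutant is algebraic, and with a polynomial adjoint.

Proof. `exists_bEig` (with `P.map _`, `Polynomial.Separable.map`) gives a complete system `E` of
eigenfunctionals, `ι = Fin (finrank K (H X))`. Put `J = L`, `blk = E.α`, `π = σ`, `φ = E.φ`,
`span = E.span`. `G = {g // g ∘ₗ e = e ∘ₗ g}`, `op = Subtype.val` (algebraic by `hcomm` and
`Weil.isAlgEnd_iff`), `M` chosen by `E.span` applied to `(E.φ i).comp g.1`; `M_blk` is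
`BEig.comm_blk`, `indep` is `BEig.comm_indep`. Parity: `BEig.parity` for `ρ = W.par X`
(`Weil.par_par`; the commutant is algebraic, so it commutes with `par` by `Weil.par_algHom`).
`gal` is `BEig.gal`. `star = s`; the form `Q x y = tr (x * s y)`
(`((LinearMap.mul K (W.H X)).compr₂ (W.tr X)).compl₂ s`) satisfies the hypotheses of `BEig.form` with
`e' = aeval e (g.map _)`: `hQ` is `exists_rep` (in `SysF0.lean`), `he'` is `adj_eig'` with `E.eig`. -/
theorem exists_bsys {k : Type u} [Field k] {𝒱 : VarClass k} {K : Type v} [Field K] [CharZero K]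
    (W : Weil.{u, v, w} 𝒱 K) (X : 𝒱.Obj) {L : Type w'} [Field L] [IsAlgClosed L] [Algebra K L]
    (σ : L ≃ₐ[K] L) (P g : ℚ[X]) (hsep : P.Separable)
    (hσ : ∀ β : L, (P.map ((algebraMap K L).comp (algebraMap ℚ K))).eval β = 0 →
      σ β = (g.map ((algebraMap K L).comp (algebraMap ℚ K))).eval β)
    (e s : W.H X →ₗ[K] W.H X) (hP : aeval e (P.map (algebraMap ℚ K)) = 0)
    (hcomm : ∀ φ : W.H X →ₗ[K] W.H X, φ ∘ₗ e = e ∘ₗ φ → W.IsAlgEnd X φ)
    (hs : W.IsAlgEnd X s) (hsb : Function.Bijective s)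
    (hadj : ∀ x y, W.tr X (e x * s y) = W.tr X (x * s (aeval e (g.map (algebraMap ℚ K)) y))) :
    Nonempty (BSys W X σ) := by
  classical
  have hs' : s ∈ W.algHom X X := W.isAlgEnd_iff.1 hs
  obtain ⟨E⟩ := exists_bEig (L := L) e (P.map (algebraMap ℚ K)) hsep.map hP
  obtain ⟨C, hC1, hC2, hform⟩ := E.form σ
    (((LinearMap.mul K (W.H X)).compr₂ (W.tr X)).compl₂ s)
    (aeval e (g.map (algebraMap ℚ K))) (fun x y => hadj x y)
    (fun f => exists_rep W X s hsb f)
    (fun i x => adj_eig' σ e P g hP hσ (E.φ i) (E.α i) (E.eig i) x)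
  have hpar : ∀ i, ∃ n : ℕ, ∀ x, E.φ i (W.par X x) = (-1) ^ n * E.φ i x := by
    intro i
    refine E.parity (W.par X) (fun x => W.par_par x) ?_ i
    intro g₀ hg₀
    refine LinearMap.ext fun x => ?_
    rw [LinearMap.comp_apply, LinearMap.comp_apply]
    exact W.par_algHom (W.isAlgEnd_iff.1 (hcomm g₀ hg₀)) x
  choose sgn hsgn using hpar
  choose M hM using fun (i : Fin (Module.finrank K (W.H X)))
    (g : {g : W.H X →ₗ[K] W.H X // g ∘ₗ e = e ∘ₗ g}) => E.span ((E.φ i).comp g.1)
  have hM' : ∀ i g x, E.φ i (g.1 x) = ∑ i', M i g i' * E.φ i' x := fun i g x => hM i g x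
  exact ⟨{
    ι := Fin (Module.finrank K (W.H X))
    J := L
    blk := E.α
    π := σ
    π_inj := σ.injective
    φ := E.φ
    span := E.span
    sgn := sgn
    parity := hsgn
    G := {g : W.H X →ₗ[K] W.H X // g ∘ₗ e = e ∘ₗ g}
    op := Subtype.val
    op_alg := fun g => W.isAlgEnd_iff.1 (hcomm g.1 g.2)
    M := fun i i' g => M i g i'
    M_blk := fun i i' g h => E.comm_blk (fun i i' g => M i g i') hM' i i' g h
    eig := hM'
    indep := fun c hc h => E.comm_indep (fun i i' g => M i g i') hM' c hc h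
    gal := fun i => E.gal σ i
    star := s
    star_alg := hs'
    C := C
    C_blk := hC1
    C_ker := hC2
    form := fun x y => hform x y }⟩

end Pool.Agent.H62D
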