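import Pool.Agent.W_f569db_h62.SysDefs

/-! The system of the point. -/

namespace Pool.Agent.H62D

open Pool.Agent.WeilH_h6 Pool.Agent.WeilH_h6.VarClass CategoryTheory MonoidalCategory
open scoped TensorProduct

universe u v w w'

/-- The cohomology of the point is one-dimensional.

Proof. Let `f = Obj.fst pt pt : pt × pt ⟶ pt` and `d = Obj.lift (𝟙 pt) (𝟙 pt) : pt ⟶ pt × pt`. Then
`d ≫ f = 𝟙` (`Obj.lift_fst`) and `f ≫ d = 𝟙` (`Obj.hom_ext`; two morphisms with target `pt` are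
equal because `pt.X = 𝟙_` is terminal: `CartesianMonoidalCategory.toUnit_unique`). So
`pull f : H(pt) → H(pt × pt)` is bijective (`Weil.pull_comp`, `Weil.pull_id`) and with
`Weil.ku pt pt : H(pt) ⊗ H(pt) ≃ H(pt × pt)` we get `d = d * d` for `d = finrank K H(pt)`
(`Module.finrank_tensorProduct`). `d ≠ 0` because `tr` is surjective (`Weil.exists_tr_one`). -/
theorem finrank_pt {k : Type u} [Field k] {𝒱 : VarClass k} {K : Type v} [Field K]
    (W : Weil.{u, v, w} 𝒱 K) : Module.finrank K (W.H (Obj.pt : 𝒱.Obj)) = 1 := by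
  have hfd : Obj.lift (𝟙 (Obj.pt : 𝒱.Obj)) (𝟙 Obj.pt) ≫ Obj.fst Obj.pt Obj.pt = 𝟙 _ :=
    Obj.lift_fst _ _
  have huniq : ∀ {T : 𝒱.Obj} (f g : T ⟶ (Obj.pt : 𝒱.Obj)), f = g := by
    intro T f g
    exact CartesianMonoidalCategory.toUnit_unique (X := T.X) f g
  have hdf : Obj.fst (Obj.pt : 𝒱.Obj) Obj.pt ≫ Obj.lift (𝟙 (Obj.pt : 𝒱.Obj)) (𝟙 Obj.pt) = 𝟙 _ :=
    Obj.hom_ext (huniq _ _) (huniq _ _)
  have hbij : Function.Bijective (W.pull (Obj.fst (Obj.pt : 𝒱.Obj) Obj.pt)) := by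
    refine Function.bijective_iff_has_inverse.2
      ⟨W.pull (Obj.lift (𝟙 (Obj.pt : 𝒱.Obj)) (𝟙 Obj.pt)), ?_, ?_⟩
    · intro x
      rw [← W.pull_comp, hfd, W.pull_id]
    · intro x
      rw [← W.pull_comp, hdf, W.pull_id]
  have e1 : Module.finrank K (W.H (Obj.pt : 𝒱.Obj)) =
      Module.finrank K (W.H (Obj.prod (Obj.pt : 𝒱.Obj) Obj.pt)) :=
    LinearEquiv.finrank_eq (LinearEquiv.ofBijective
      (W.pull (Obj.fst (Obj.pt : 𝒱.Obj) Obj.pt)).toLinearMap hbij)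
  have e2 := LinearEquiv.finrank_eq (W.ku (Obj.pt : 𝒱.Obj) Obj.pt)
  rw [Module.finrank_tensorProduct, ← e1] at e2
  have hne : Module.finrank K (W.H (Obj.pt : 𝒱.Obj)) ≠ 0 := by
    intro h0
    obtain ⟨x, -, hx⟩ := W.exists_tr_one (Obj.pt : 𝒱.Obj)
    have hs : Subsingleton (W.H (Obj.pt : 𝒱.Obj)) := Module.finrank_zero_iff.1 h0
    rw [Subsingleton.elim x 0, map_zero] at hx
    exact zero_ne_one hx
  exact Nat.eq_of_mul_eq_mul_left (Nat.pos_of_ne_zero hne) (by rw [e2, mul_one])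

/-- Every element of the cohomology of the point is a multiple of `1`. -/
theorem SysG_eq_smul {k : Type u} [Field k] {𝒱 : VarClass k} {K : Type v} [Field K]
    (W : Weil.{u, v, w} 𝒱 K) (x : W.H (Obj.pt : 𝒱.Obj)) : ∃ a : K, a • (1 : W.H Obj.pt) = x := by
  have hnt : Nontrivial (W.H (Obj.pt : 𝒱.Obj)) :=
    Module.nontrivial_of_finrank_pos (R := K) (by rw [finrank_pt W]; exact one_pos)
  exact (finrank_eq_one_iff_of_nonzero' (1 : W.H Obj.pt) one_ne_zero).1 (finrank_pt W) x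

/-- The system of the point.

Proof. By `finrank_pt` and `1 ≠ 0` in `H(pt)` (`H(pt)` is nontrivial) every `x` is `a • 1`
(`finrank_eq_one_iff_of_nonzero'`); `τ = tr 1 ≠ 0` because `tr` is not zero
(`Weil.exists_tr_one`). Take `ι = Unit`, `φ () = algebraMap K L ∘ tr`
(`(Algebra.linearMap K L).comp (W.tr _)`), `span`: `ψ x = (ψ 1 / τ) * φ x`; `sgn = 0`
(`par = id`: `par 1 = 1` by `Weil.par_algSpan (Weil.one_mem_algSpan _)`); `G = Unit`, `op = id`,
`χ = 1`; `π = 1`, `gal` with `t = 1` (`σ` fixes `K`, `AlgEquiv.commutes`); `star = id`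
(`Weil.id_mem_algHom`), `c = (algebraMap τ)⁻¹`; `form`: for `x = a • 1`, `y = b • 1` both sides are
the image of `a * b * τ`. -/
theorem nsys_pt {k : Type u} [Field k] {𝒱 : VarClass k} {K : Type v} [Field K]
    (W : Weil.{u, v, w} 𝒱 K) {L : Type w'} [Field L] [Algebra K L] (σ : L ≃ₐ[K] L) :
    Nonempty (NSys W (Obj.pt : 𝒱.Obj) σ) := by
  have hτ : W.tr (Obj.pt : 𝒱.Obj) 1 ≠ 0 := by
    intro h0
    obtain ⟨x, -, hx⟩ := W.exists_tr_one (Obj.pt : 𝒱.Obj)
    obtain ⟨a, rfl⟩ := SysG_eq_smul W x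
    rw [map_smul, h0, smul_zero] at hx
    exact zero_ne_one hx
  have hτL : algebraMap K L (W.tr (Obj.pt : 𝒱.Obj) 1) ≠ 0 := by
    rw [Ne, map_eq_zero]
    exact hτ
  refine ⟨{
    ι := Unit
    φ := fun _ => (Algebra.linearMap K L).comp (W.tr _)
    span := ?_
    sgn := fun _ => 0
    parity := ?_
    G := Unit
    op := fun _ => LinearMap.id
    op_alg := fun _ => W.id_mem_algHom _
    χ := fun _ _ => 1
    eig := ?_
    indep := ?_
    π := 1
    gal := ?_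
    star := LinearMap.id
    star_alg := W.id_mem_algHom _
    c := fun _ => (algebraMap K L (W.tr (Obj.pt : 𝒱.Obj) 1))⁻¹
    c_ne := fun _ => inv_ne_zero hτL
    form := ?_ }⟩
  · intro ψ
    refine ⟨fun _ => ψ 1 / algebraMap K L (W.tr (Obj.pt : 𝒱.Obj) 1), fun x => ?_⟩
    obtain ⟨a, rfl⟩ := SysG_eq_smul W x
    rw [Finset.univ_unique, Finset.sum_singleton, LinearMap.comp_apply,
      Algebra.linearMap_apply, map_smul, map_smul, smul_eq_mul, map_mul, Algebra.smul_def]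
    field_simp
  · intro i x
    obtain ⟨a, rfl⟩ := SysG_eq_smul W x
    rw [map_smul, W.par_algSpan (W.one_mem_algSpan _), pow_zero, one_mul]
  · intro i g x
    rw [LinearMap.id_apply, one_mul]
  · intro c hc i
    have := hc ()
    simpa using this
  · intro i
    refine ⟨1, one_ne_zero, fun x => ?_⟩
    simp only [LinearMap.comp_apply, Algebra.linearMap_apply, one_mul, AlgEquiv.commutes]
  · intro x y
    obtain ⟨a, rfl⟩ := SysG_eq_smul W x
    obtain ⟨b, rfl⟩ := SysG_eq_smul W y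
    have e1 : W.tr (Obj.pt : 𝒱.Obj) (a • (1 : W.H (Obj.pt : 𝒱.Obj))) =
        a * W.tr (Obj.pt : 𝒱.Obj) 1 := by
      rw [map_smul, smul_eq_mul]
    have e2 : W.tr (Obj.pt : 𝒱.Obj) (b • (1 : W.H (Obj.pt : 𝒱.Obj))) =
        b * W.tr (Obj.pt : 𝒱.Obj) 1 := by
      rw [map_smul, smul_eq_mul]
    have e3 : W.tr (Obj.pt : 𝒱.Obj) (a • (1 : W.H (Obj.pt : 𝒱.Obj)) *
        (LinearMap.id (R := K)) (b • (1 : W.H (Obj.pt : 𝒱.Obj)))) =
        a * (b * W.tr (Obj.pt : 𝒱.Obj) 1) := by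
      rw [LinearMap.id_apply, smul_mul_assoc, one_mul, LinearMap.map_smul, e2, smul_eq_mul]
    rw [Finset.univ_unique, Finset.sum_singleton, LinearMap.comp_apply, LinearMap.comp_apply,
      Algebra.linearMap_apply, Algebra.linearMap_apply, e1, e2, e3, map_mul, map_mul, map_mul]
    field_simp

end Pool.Agent.H62D
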