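import Pool.Agent.W_f569db_h62.StDefs
import Pool.Agent.W_f569db_h62.BA
import Pool.Agent.W_f569db_h62.BC
import Pool.Agent.W_f569db_h62.BF4
import Pool.Agent.W_f569db_h62.SysG

/-! Block systems of the point and of all varieties generated by given ones. -/

namespace Pool.Agent.H62D

open Polynomial Pool.Agent.WeilH_h6 Pool.Agent.WeilH_h6.VarClass

universe u v w w'

theorem isAlgMap_iff {k : Type u} [Field k] {𝒱 : VarClass k} {K : Type v} [Field K]
    (W : Weil.{u, v, w} 𝒱 K) {Y Z : 𝒱.Obj} (φ : W.H Y →ₗ[K] W.H Z) :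
    IsAlgMap W φ ↔ φ ∈ W.algHom Y Z := W.mem_algHom_iff.symm

theorem bsys_pt {k : Type u} [Field k] {𝒱 : VarClass k} {K : Type v} [Field K] [CharZero K]
    (W : Weil.{u, v, w} 𝒱 K) {L : Type w'} [Field L] [IsAlgClosed L] [Algebra K L]
    (σ : L ≃ₐ[K] L) : Nonempty (BSys W (Obj.pt : 𝒱.Obj) σ) := by
  refine exists_bsys W Obj.pt σ (X - 1) X ?_ ?_ LinearMap.id LinearMap.id ?_ ?_ ?_ ?_ ?_
  · simpa using Polynomial.separable_X_sub_C (x := (1 : ℚ))
  · intro β hβ
    have hβ1 : β = 1 := by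
      simp only [Polynomial.map_sub, Polynomial.map_X, Polynomial.map_one, eval_sub, eval_X,
        eval_one] at hβ
      exact sub_eq_zero.1 hβ
    simp [hβ1]
  · simp only [Polynomial.map_sub, Polynomial.map_X, Polynomial.map_one, map_sub, aeval_X, map_one]
    exact sub_self _
  · intro φ _
    rw [W.isAlgEnd_iff]
    obtain ⟨c, hc⟩ := SysG_eq_smul W (φ 1)
    have : φ = c • LinearMap.id := by
      ext x
      obtain ⟨a, rfl⟩ := SysG_eq_smul W x
      rw [map_smul, ← hc, LinearMap.smul_apply, LinearMap.id_apply, smul_comm]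
    rw [this]
    exact Submodule.smul_mem _ _ (W.id_mem_algHom _)
  · exact W.isAlgEnd_id _
  · exact Function.bijective_id
  · intro x y
    simp

theorem generated_inv {k : Type u} [Field k] {𝒱 : VarClass k} {K : Type v} [Field K] [CharZero K]
    (W : Weil.{u, v, w} 𝒱 K) {L : Type w'} [Field L] [IsAlgClosed L] [Algebra K L]
    (σ : L ≃ₐ[K] L) (S : 𝒱.Obj → Prop) (hS : ∀ X, S X → Nonempty (BSys W X σ)) (Y : 𝒱.Obj)
    (hY : Generated W S Y) : ∃ X : 𝒱.Obj, Nonempty (BSys W X σ) ∧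
      ∃ a ∈ W.algHom Y X, ∃ b ∈ W.algHom X Y, ∀ y, b (a y) = y := by
  induction hY with
  | base X hX => exact ⟨X, hS X hX, LinearMap.id, W.id_mem_algHom X, LinearMap.id,
      W.id_mem_algHom X, fun y => rfl⟩
  | pt => exact ⟨Obj.pt, bsys_pt W σ, LinearMap.id, W.id_mem_algHom _, LinearMap.id,
      W.id_mem_algHom _, fun y => rfl⟩
  | prod X Y _ _ hX hY =>
    obtain ⟨X', ⟨SX⟩, a, ha, b, hb, hab⟩ := hX
    obtain ⟨Y', ⟨SY⟩, a', ha', b', hb', hab'⟩ := hY
    refine ⟨X'.prod Y', ⟨SX.prod SY⟩, W.extHom a a', W.extHom_mem_algHom ha ha', W.extHom b b',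
      W.extHom_mem_algHom hb hb', fun u => ?_⟩
    refine W.kunneth_induction X Y (P := fun u => W.extHom b b' (W.extHom a a' u) = u) ?_ ?_ u
    · intro u v hu hv
      rw [map_add, map_add, hu, hv]
    · intro x y
      rw [W.extHom_apply, W.extHom_apply, hab, hab']
  | retract X Y _ hXY hX =>
    obtain ⟨a, b, ha, hb, hab⟩ := hXY
    obtain ⟨X', hX', a', ha', b', hb', hab'⟩ := hX
    refine ⟨X', hX', a' ∘ₗ a, W.comp_mem_algHom ((isAlgMap_iff W a).1 ha) ha', b ∘ₗ b',
      W.comp_mem_algHom hb' ((isAlgMap_iff W b).1 hb), fun y => ?_⟩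
    rw [LinearMap.comp_apply, LinearMap.comp_apply, hab']
    exact hab y

/-- The criterion for one coefficient field. -/
theorem homEqNum_of_generated {k : Type u} [Field k] {𝒱 : VarClass k} {K : Type v} [Field K]
    [CharZero K] (W : Weil.{u, v, w} 𝒱 K) {L : Type w'} [Field L] [IsAlgClosed L] [Algebra K L]
    [CharZero L] (σ : L ≃ₐ[K] L) {r : ℕ} (P g : Fin r → ℚ[X]) (hP : ∀ i, (P i).Separable)
    (hσ : ∀ (i : Fin r) (β : L), aeval β (P i) = 0 → σ β = aeval β (g i)) (Y : 𝒱.Obj)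
    (hY : Generated W (fun X => ∃ i, ConjType W (P i) (g i) X) Y) : W.HomEqNum Y := by
  obtain ⟨X, ⟨SX⟩, a, ha, b, -, hab⟩ := generated_inv W σ _ (fun X hX => by
    obtain ⟨i, e, s, h1, h2, h3, h4, h5⟩ := hX
    refine exists_bsys W X σ (P i) (g i) (hP i) (fun β hβ => ?_) e s (LinearMap.ext h1)
      (fun φ hφ => h2 φ (fun x => LinearMap.congr_fun hφ x)) h3 h4 h5
    have hr : (algebraMap K L).comp (algebraMap ℚ K) = algebraMap ℚ L := Subsingleton.elim _ _
    rw [hr, eval_map_algebraMap] at hβ ⊢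
    exact hσ i β hβ) Y hY
  exact homEqNum_retract W a b ha hab (fun z hz h => SX.nondeg z hz h)

end Pool.Agent.H62D
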