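import Pool.Agent.W_f569db_h62.EigDefs

/-! Existence of a complete system of eigenfunctionals. -/

namespace Pool.Agent.H62D

open Polynomial TensorProduct

universe u v w

/-- If the characteristic polynomial of `e` is separable and `L` is algebraically closed then a
complete system of eigenfunctionals exists.

Proof. Let `V_L = L ⊗[K] V`, `e_L = e.baseChange L`. By `LinearMap.charpoly_baseChange` the
characteristic polynomial of `e_L` is the image `p` of `e.charpoly`, it is separable of degree
`d = finrank K V` and splits in `L`, so it has `d` distinct roots `α_i`. By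
`Module.End.hasEigenvalue_iff_isRoot_charpoly` each `α_i` has an eigenvector `v_i` in `V_L`; by
`Module.End.eigenvectors_linearIndependent'` they are linearly independent, so they form a basis
of `V_L` (dimension `d`). Put `φ_i x = (coordinate i of 1 ⊗ x)`. Then
`φ_i (e x) = coord_i (e_L (1 ⊗ x)) = α_i φ_i x` because `e_L` is diagonal in the basis `v`. Every
`K`-linear `ψ : V → L` extends to an `L`-linear `ψ_L : V_L → L` (`ψ_L (a ⊗ x) = a ψ x`, for instance
`TensorProduct.AlgebraTensorModule.lift`), and `ψ x = ψ_L (1 ⊗ x) = ∑ φ_i(x) ψ_L(v_i)`: this is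
`span`. If `∑ c_i φ_i x = 0` for all `x` then the `L`-linear functional `∑ c_i coord_i` vanishes on
all `1 ⊗ x`, hence on all of `V_L`, and on `v_i` it is `c_i`: this is `indep`. -/
theorem exists_eigSys {K : Type u} {L : Type v} {V : Type w} [Field K] [Field L] [Algebra K L]
    [IsAlgClosed L] [AddCommGroup V] [Module K V] [FiniteDimensional K V] (e : V →ₗ[K] V)
    (he : e.charpoly.Separable) :
    Nonempty (EigSys (L := L) e (Fin (Module.finrank K V))) := by
  classical
  let eL : Module.End L (TensorProduct K L V) := e.baseChange L
  have hcp : LinearMap.charpoly eL = (LinearMap.charpoly e).map (algebraMap K L) :=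
    LinearMap.charpoly_baseChange e L
  have hcard : Fintype.card ((LinearMap.charpoly e).rootSet L) = Module.finrank K V := by
    rw [card_rootSet_eq_natDegree he (IsAlgClosed.splits _), LinearMap.charpoly_natDegree]
  let eqv : Fin (Module.finrank K V) ≃ (LinearMap.charpoly e).rootSet L :=
    (Fintype.equivFinOfCardEq hcard).symm
  let α : Fin (Module.finrank K V) → L := fun i => (eqv i : L)
  have hinj : Function.Injective α := Subtype.val_injective.comp eqv.injective
  have hev : ∀ i, eL.HasEigenvalue (α i) := by
    intro i
    rw [Module.End.hasEigenvalue_iff_isRoot_charpoly, hcp]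
    have h1 := (eqv i).2
    rw [mem_rootSet] at h1
    rw [IsRoot.def, eval_map_algebraMap]
    exact h1.2
  choose v hv using fun i => (hev i).exists_hasEigenvector
  have hli : LinearIndependent L v :=
    Module.End.eigenvectors_linearIndependent' eL α hinj v hv
  have hfr : Fintype.card (Fin (Module.finrank K V))
      = Module.finrank L (TensorProduct K L V) := by
    rw [Fintype.card_fin, Module.finrank_baseChange]
  have hspan : ⊤ ≤ Submodule.span L (Set.range v) :=
    (hli.span_eq_top_of_card_eq_finrank' hfr).ge
  let b : Module.Basis (Fin (Module.finrank K V)) L (TensorProduct K L V) :=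
    Module.Basis.mk hli hspan
  have hb : ∀ i, b i = v i := fun i => Module.Basis.mk_apply hli hspan i
  have hcoord : ∀ i, (b.coord i).comp eL = α i • b.coord i := by
    intro i
    refine b.ext fun j => ?_
    rw [LinearMap.comp_apply, hb j, (hv j).apply_eq_smul, ← hb j, LinearMap.map_smul,
      LinearMap.smul_apply, Module.Basis.coord_apply, Module.Basis.repr_self]
    by_cases hij : j = i
    · subst hij
      rfl
    · rw [Finsupp.single_eq_of_ne (Ne.symm hij), smul_zero, smul_zero]
  refine ⟨{
    α := α
    φ := fun i => ((b.coord i).restrictScalars K).comp (TensorProduct.mk K L V 1)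
    inj := hinj
    eig := ?_
    span := ?_
    indep := ?_ }⟩
  · intro i x
    have h1 := LinearMap.congr_fun (hcoord i) ((1 : L) ⊗ₜ[K] x)
    have h2 : eL ((1 : L) ⊗ₜ[K] x) = (1 : L) ⊗ₜ[K] (e x) := LinearMap.baseChange_tmul _ _ _
    rw [LinearMap.comp_apply, h2] at h1
    exact h1
  · intro ψ
    let ψL : TensorProduct K L V →ₗ[L] L := ψ.liftBaseChange L
    have hψ : ∀ x, ψL ((1 : L) ⊗ₜ[K] x) = ψ x := by
      intro x
      rw [LinearMap.liftBaseChange_tmul, one_smul]
    refine ⟨fun i => ψL (b i), fun x => ?_⟩
    rw [← hψ x]
    conv_lhs => rw [← b.sum_repr ((1 : L) ⊗ₜ[K] x)]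
    rw [map_sum]
    refine Finset.sum_congr rfl fun i _ => ?_
    rw [LinearMap.map_smul, smul_eq_mul, mul_comm]
    rfl
  · intro c hc i
    let F : TensorProduct K L V →ₗ[L] L := ∑ i, c i • b.coord i
    have hF1 : ∀ x, F ((1 : L) ⊗ₜ[K] x) = 0 := by
      intro x
      rw [← hc x]
      simp [F]
    have hF : F = 0 := by
      apply LinearMap.ext
      intro y
      induction y using TensorProduct.induction_on with
      | zero => simp
      | tmul l x =>
        have h3 : l ⊗ₜ[K] x = l • ((1 : L) ⊗ₜ[K] x) := by
          rw [TensorProduct.smul_tmul', smul_eq_mul, mul_one]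
        rw [h3, LinearMap.map_smul, hF1, smul_zero]
        rfl
      | add y z hy hz => rw [map_add, hy, hz]; simp
    have h4 := LinearMap.congr_fun hF (b i)
    simp only [F, LinearMap.coe_sum, Finset.sum_apply, LinearMap.smul_apply, Module.Basis.coord_apply,
      Module.Basis.repr_self, LinearMap.zero_apply] at h4
    rw [Finset.sum_eq_single i] at h4
    · simpa using h4
    · intro j _ hj
      rw [Finsupp.single_eq_of_ne hj, smul_zero]
    · intro h5
      exact absurd (Finset.mem_univ i) h5

end Pool.Agent.H62D
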