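import Pool.Agent.W_f569db_h62.EigDefs

/-! First properties of systems of eigenfunctionals. -/

namespace Pool.Agent.H62D

open Polynomial

universe u v w

variable {K : Type u} {L : Type v} {V : Type w} {ι : Type} [Field K] [Field L] [Algebra K L]
  [AddCommGroup V] [Module K V] [FiniteDimensional K V] [Fintype ι] [DecidableEq ι]
  {e : V →ₗ[K] V}

/-- Eigenfunctionals are multiples of the `φ i`.

Proof. Write `ψ = ∑ c_i φ_i`. Then `0 = ψ(e x) - β ψ x = ∑ c_i (α_i - β) φ_i x`, so
`c_i (α_i - β) = 0` for all `i` by `indep`. As `ψ ≠ 0` some `c_i ≠ 0`, for it `α_i = β`, and for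
`k ≠ i` we have `α_k ≠ β`, so `c_k = 0`. -/
theorem EigSys.eq_smul (E : EigSys (L := L) e ι) (ψ : V →ₗ[K] L) (hψ : ψ ≠ 0) (β : L)
    (h : ∀ x, ψ (e x) = β * ψ x) : ∃ i, E.α i = β ∧ ∃ t : L, t ≠ 0 ∧ ∀ x, ψ x = t * E.φ i x := by
  obtain ⟨c, hc⟩ := E.span ψ
  have h1 : ∀ x, ∑ i, (c i * (E.α i - β)) * E.φ i x = 0 := by
    intro x
    have h2 := h x
    rw [hc, hc x] at h2
    have h3 : ∑ i, (c i * (E.α i - β)) * E.φ i x =
        ∑ i, c i * E.φ i (e x) - β * ∑ i, c i * E.φ i x := by
      rw [Finset.mul_sum, ← Finset.sum_sub_distrib]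
      refine Finset.sum_congr rfl fun i _ => ?_
      rw [E.eig]
      ring
    rw [h3, h2, sub_self]
  have h2 := E.indep _ h1
  obtain ⟨i, hi⟩ : ∃ i, c i ≠ 0 := by
    by_contra hcon
    push Not at hcon
    apply hψ
    ext x
    rw [hc x, LinearMap.zero_apply]
    exact Finset.sum_eq_zero fun i _ => by rw [hcon i, zero_mul]
  have hαi : E.α i = β := by
    rcases mul_eq_zero.1 (h2 i) with h3 | h3
    · exact absurd h3 hi
    · exact sub_eq_zero.1 h3
  refine ⟨i, hαi, c i, hi, fun x => ?_⟩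
  rw [hc x]
  refine Finset.sum_eq_single i (fun k _ hk => ?_) (fun h3 => absurd (Finset.mem_univ i) h3)
  rcases mul_eq_zero.1 (h2 k) with h3 | h3
  · rw [h3, zero_mul]
  · exact absurd (E.inj ((sub_eq_zero.1 h3).trans hαi.symm)) hk

/-- The `φ i` are not zero. Proof. `indep` for `c = Pi.single i 1`. -/
theorem EigSys.φ_ne_zero (E : EigSys (L := L) e ι) (i : ι) : E.φ i ≠ 0 := by
  intro h0
  have h1 := E.indep (Pi.single i 1) (fun x => by
    refine Finset.sum_eq_zero fun k _ => ?_
    by_cases hk : k = i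
    · subst hk
      rw [h0, LinearMap.zero_apply, mul_zero]
    · rw [Pi.single_eq_of_ne hk, zero_mul]) i
  rw [Pi.single_eq_same] at h1
  exact one_ne_zero h1

/-- The eigenfunctionals separate points.

Proof. For `x ≠ 0` there is a `K`-linear `f : V → K` with `f x ≠ 0`
(`Module.forall_dual_apply_eq_zero_iff`). Apply `span` to `algebraMap K L ∘ f`. -/
theorem EigSys.eq_zero (E : EigSys (L := L) e ι) (x : V) (h : ∀ i, E.φ i x = 0) : x = 0 := by
  by_contra hx
  obtain ⟨f, hf⟩ : ∃ f : Module.Dual K V, f x ≠ 0 := by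
    by_contra hcon
    push Not at hcon
    exact hx ((Module.forall_dual_apply_eq_zero_iff K x).1 hcon)
  obtain ⟨c, hc⟩ := E.span ((Algebra.linearMap K L).comp f)
  have h1 := hc x
  rw [Finset.sum_eq_zero (fun i _ => by rw [h i, mul_zero])] at h1
  rw [LinearMap.comp_apply, Algebra.linearMap_apply] at h1
  exact hf ((algebraMap K L).injective (h1.trans (map_zero _).symm))

/-- `σ` permutes the eigenfunctionals up to scalars.

Proof. `φ i ≠ 0`. The map `ψ_i = σ ∘ φ_i` is `K`-linear (`σ` is a `K`-algebra automorphism),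
nonzero, and `ψ_i (e x) = σ(α_i) ψ_i x`. By `EigSys.eq_smul` there is `i'` with `α_{i'} = σ(α_i)` and
`ψ_i = t φ_{i'}`, `t ≠ 0`. The map `i ↦ i'` is injective (`σ` and `α` are), so it is a permutation
of the finite type `ι`. -/
theorem EigSys.exists_perm (E : EigSys (L := L) e ι) (σ : L ≃ₐ[K] L) :
    ∃ π : Equiv.Perm ι, (∀ i, E.α (π i) = σ (E.α i)) ∧
      ∀ i, ∃ t : L, t ≠ 0 ∧ ∀ x, σ (E.φ i x) = t * E.φ (π i) x := by
  have hex : ∀ i, ∃ i', E.α i' = σ (E.α i) ∧ ∃ t : L, t ≠ 0 ∧ ∀ x, σ (E.φ i x) = t * E.φ i' x := by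
    intro i
    have hne : (σ.toLinearMap.comp (E.φ i)) ≠ 0 := by
      intro h0
      apply E.φ_ne_zero i
      ext x
      have h1 := LinearMap.congr_fun h0 x
      rw [LinearMap.comp_apply, LinearMap.zero_apply] at h1
      rw [LinearMap.zero_apply]
      exact σ.injective (h1.trans (map_zero σ).symm)
    obtain ⟨i', h1, t, ht, h2⟩ := E.eq_smul (σ.toLinearMap.comp (E.φ i)) hne (σ (E.α i)) (fun x => by
      rw [LinearMap.comp_apply, LinearMap.comp_apply, E.eig]
      exact map_mul σ _ _)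
    exact ⟨i', h1, t, ht, h2⟩
  choose f hf1 t ht hf2 using hex
  have hinj : Function.Injective f := by
    intro a b hab
    have h1 : σ (E.α a) = σ (E.α b) := by rw [← hf1, ← hf1, hab]
    exact E.inj (σ.injective h1)
  have hbij : Function.Bijective f := Finite.injective_iff_bijective.1 hinj
  exact ⟨Equiv.ofBijective f hbij, hf1, fun i => ⟨t i, ht i, hf2 i⟩⟩

/-- Every eigenfunctional of an operator which preserves a decomposition `V = A ⊕ B` vanishes on one
of the two summands.

Proof. Let `p : V → V` be the projection onto `A` along `B` (`Submodule.IsCompl.projection` or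
`Submodule.linearProjOfIsCompl`). It commutes with `e`. So `φ_i ∘ p` satisfies
`(φ_i ∘ p)(e x) = α_i (φ_i ∘ p)(x)`; by `EigSys.eq_smul` (and injectivity of `α`) either
`φ_i ∘ p = 0`, and then `φ_i` vanishes on `A`, or `φ_i ∘ p = t φ_i` with `t ≠ 0`, and then `φ_i`
vanishes on `B` (`t φ_i b = φ_i (p b) = 0`). -/
theorem EigSys.exists_par (E : EigSys (L := L) e ι) (A B : Submodule K V) (hAB : IsCompl A B)
    (hA : ∀ x ∈ A, e x ∈ A) (hB : ∀ x ∈ B, e x ∈ B) (i : ι) :
    (∀ x ∈ A, E.φ i x = 0) ∨ (∀ x ∈ B, E.φ i x = 0) := by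
  have hprA : ∀ x ∈ A, A.projection B hAB x = x := fun x hx =>
    Submodule.projection_apply_of_mem_left hAB hx
  have hprB : ∀ x ∈ B, A.projection B hAB x = 0 := fun x hx =>
    (Submodule.projection_apply_eq_zero_iff hAB).2 hx
  have hcomm : ∀ x, A.projection B hAB (e x) = e (A.projection B hAB x) := by
    intro x
    have hx : x ∈ A ⊔ B := by
      rw [hAB.sup_eq_top]
      exact Submodule.mem_top
    obtain ⟨a, ha, b, hb, rfl⟩ := Submodule.mem_sup.1 hx
    rw [map_add, map_add, map_add, hprA _ (hA a ha), hprB _ (hB b hb), hprA a ha, hprB b hb,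
      add_zero, add_zero]
  by_cases h0 : (E.φ i).comp (A.projection B hAB) = 0
  · left
    intro x hx
    have h1 := LinearMap.congr_fun h0 x
    rw [LinearMap.comp_apply, hprA x hx, LinearMap.zero_apply] at h1
    exact h1
  · right
    obtain ⟨k, hk, t, ht, h1⟩ := E.eq_smul _ h0 (E.α i) (fun x => by
      rw [LinearMap.comp_apply, LinearMap.comp_apply, hcomm, E.eig])
    have hki : k = i := E.inj hk
    subst hki
    intro x hx
    have h2 := h1 x
    rw [LinearMap.comp_apply, hprB x hx, map_zero] at h2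
    rcases mul_eq_zero.1 h2.symm with h3 | h3
    · exact absurd h3 ht
    · exact h3

end Pool.Agent.H62D
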