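import Pool.Agent.W_f569db_h62.EigDefs

/-! Expansion of bilinear forms in eigenfunctionals. -/

namespace Pool.Agent.H62D

open Polynomial

universe u v w

variable {K : Type u} {L : Type v} {V : Type w} {ι : Type} [Field K] [Field L] [Algebra K L]
  [AddCommGroup V] [Module K V] [FiniteDimensional K V] [Fintype ι] [DecidableEq ι]
  {e : V →ₗ[K] V}

omit [DecidableEq ι] in
/-- uniqueness of the coefficients -/
theorem EigC_uniq (E : EigSys (L := L) e ι) {c d : ι → L}
    (h : ∀ x, ∑ i, c i * E.φ i x = ∑ i, d i * E.φ i x) (i : ι) : c i = d i := by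
  have h1 := E.indep (fun i => c i - d i) (fun x => by
    rw [Finset.sum_congr rfl fun i _ => sub_mul (c i) (d i) (E.φ i x), Finset.sum_sub_distrib, h x,
      sub_self]) i
  exact sub_eq_zero.1 h1

omit [FiniteDimensional K V] in
/-- the functional `x ↦ Q x y` in `L` -/
theorem EigC_fun (Q : V →ₗ[K] V →ₗ[K] K) (y : V) :
    ∃ ψ : V →ₗ[K] L, ∀ x, ψ x = algebraMap K L (Q x y) :=
  ⟨(Algebra.linearMap K L).comp (Q.flip y), fun _ => rfl⟩

omit [DecidableEq ι] in
/-- the coefficient functionals -/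
theorem EigC_coef (E : EigSys (L := L) e ι) (Q : V →ₗ[K] V →ₗ[K] K) :
    ∃ q : ι → (V →ₗ[K] L), ∀ x y, algebraMap K L (Q x y) = ∑ i, q i y * E.φ i x := by
  have h1 : ∀ y, ∃ c : ι → L, ∀ x, algebraMap K L (Q x y) = ∑ i, c i * E.φ i x := by
    intro y
    obtain ⟨ψ, hψ⟩ := EigC_fun (L := L) Q y
    obtain ⟨c, hc⟩ := E.span ψ
    exact ⟨c, fun x => by rw [← hψ, hc]⟩
  choose q hq using h1
  refine ⟨fun i => { toFun := fun y => q y i, map_add' := ?_, map_smul' := ?_ }, fun x y => hq y x⟩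
  · intro y y'
    refine EigC_uniq E (c := q (y + y')) (d := fun i => q y i + q y' i) (fun x => ?_) i
    rw [← hq (y + y') x, Finset.sum_congr rfl fun i _ => add_mul (q y i) (q y' i) (E.φ i x),
      Finset.sum_add_distrib, ← hq y x, ← hq y' x, ← map_add, ← map_add]
  · intro a y
    refine EigC_uniq E (c := q (a • y)) (d := fun i => a • q y i) (fun x => ?_) i
    rw [← hq (a • y) x, Finset.sum_congr rfl fun i _ => smul_mul_assoc a (q y i) (E.φ i x),
      ← Finset.smul_sum, ← hq y x, map_smul, smul_eq_mul, map_mul, Algebra.smul_def]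

/-- Expansion of a form whose adjoint acts on eigenfunctionals through `σ`.

`Q` is a bilinear form on `V` such that every `K`-linear functional on `V` is `Q(·, y)` for some
`y`, `Q(e x, y) = Q(x, e' y)`, and `e'` acts on eigenfunctionals by the `σ`-conjugate eigenvalue.

Proof. For fixed `y` the functional `x ↦ Q(x, y)` in `L` is `∑_i q_i(y) φ_i(x)` with unique
`q_i(y)` (`span`, `indep`); by uniqueness `q_i` is `K`-linear. From `Q(e x, y) = Q(x, e' y)` and
uniqueness, `q_i(e' y) = α_i q_i(y)`. Write `q_i = ∑_k t_{ik} φ_k`. By `he'` applied to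
`ψ = φ_k`, `β = α_k`: `q_i(e' y) = ∑_k t_{ik} σ(α_k) φ_k(y)`, so `t_{ik} (σ(α_k) - α_i) = 0` for all
`k` by `indep`. As `σ(α_k) = α_{π k}` and `α` is injective, `t_{ik} = 0` unless `i = π k`, that is
`k = π⁻¹ i`. Hence `q_i = c_i φ_{π⁻¹ i}` with `c_i = t_{i, π⁻¹ i}`.
If `c_{i0} = 0` then by `hQ` every `K`-linear `f : V → K` satisfies
`f(x) = ∑_{i ≠ i0} c_i φ_{π⁻¹ i}(y) φ_i(x)` for some `y`, so `algebraMap ∘ f` lies in the `L`-span of
the `φ_i`, `i ≠ i0`; since the `L`-span of the functionals `algebraMap ∘ f` is everything (coordinate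
functionals `f_k` of a `K`-basis `b` of `V`: `ψ x = ∑_k ψ(b_k) f_k(x)`), `φ_{i0}` is in that span,
contradicting `indep`. -/
theorem EigSys.form_expansion (E : EigSys (L := L) e ι) (σ : L ≃ₐ[K] L)
    (π : Equiv.Perm ι)
    (hπ : ∀ i, E.α (π i) = σ (E.α i)) (Q : V →ₗ[K] V →ₗ[K] K) (e' : V →ₗ[K] V)
    (hadj : ∀ x y, Q (e x) y = Q x (e' y))
    (hQ : ∀ f : V →ₗ[K] K, ∃ y, ∀ x, f x = Q x y)
    (he' : ∀ (ψ : V →ₗ[K] L) (β : L), (∀ x, ψ (e x) = β * ψ x) → ∀ x, ψ (e' x) = σ β * ψ x) :
    ∃ c : ι → L, (∀ i, c i ≠ 0) ∧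
      ∀ x y, algebraMap K L (Q x y) = ∑ i, c i * E.φ i x * E.φ (π.symm i) y := by
  obtain ⟨q, hq⟩ := EigC_coef E Q
  have h3 : ∀ i y, q i (e' y) = E.α i * q i y := by
    intro i y
    refine EigC_uniq E (c := fun i => q i (e' y)) (d := fun i => E.α i * q i y) (fun x => ?_) i
    rw [← hq x (e' y), ← hadj, hq (e x) y]
    refine Finset.sum_congr rfl fun j _ => ?_
    rw [E.eig]
    ring
  have h4 : ∀ i, ∃ t : ι → L, ∀ y, q i y = ∑ k, t k * E.φ k y := fun i => E.span (q i)
  choose t ht using h4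
  have h5 : ∀ i k, t i k * σ (E.α k) = E.α i * t i k := by
    intro i k
    refine EigC_uniq E (c := fun k => t i k * σ (E.α k)) (d := fun k => E.α i * t i k)
      (fun y => ?_) k
    have h6 := h3 i y
    rw [ht i (e' y), ht i y] at h6
    rw [Finset.sum_congr rfl fun k _ => mul_assoc (E.α i) (t i k) (E.φ k y), ← Finset.mul_sum,
      ← h6]
    refine Finset.sum_congr rfl fun k _ => ?_
    rw [he' (E.φ k) (E.α k) (E.eig k) y]
    ring
  have h7 : ∀ i k, k ≠ π.symm i → t i k = 0 := by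
    intro i k hk
    by_contra hne
    have h8 := h5 i k
    rw [mul_comm (E.α i)] at h8
    have h9 := mul_left_cancel₀ hne h8
    rw [← hπ] at h9
    have h10 := E.inj h9
    exact hk (by rw [← h10, Equiv.symm_apply_apply])
  have h8 : ∀ i y, q i y = t i (π.symm i) * E.φ (π.symm i) y := by
    intro i y
    rw [ht i y]
    refine Finset.sum_eq_single (π.symm i) (fun k _ hk => ?_) (fun h => absurd (Finset.mem_univ _) h)
    rw [h7 i k hk, zero_mul]
  refine ⟨fun i => t i (π.symm i), ?_, fun x y => ?_⟩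
  · intro i0 h0
    change t i0 (π.symm i0) = 0 at h0
    have h9 : ∀ f : V →ₗ[K] K, ∃ c : ι → L, c i0 = 0 ∧
        ∀ x, algebraMap K L (f x) = ∑ i, c i * E.φ i x := by
      intro f
      obtain ⟨y, hy⟩ := hQ f
      refine ⟨fun i => q i y, ?_, fun x => ?_⟩
      · show q i0 y = 0
        rw [h8, h0, zero_mul]
      · rw [hy x, hq x y]
    choose C hC1 hC2 using h9
    let b := Module.finBasis K V
    have h10 : ∀ x, E.φ i0 x = ∑ i, (∑ k, E.φ i0 (b k) * C (b.coord k) i) * E.φ i x := by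
      intro x
      have h11 : E.φ i0 x = ∑ k, E.φ i0 (b k) * algebraMap K L (b.coord k x) := by
        conv_lhs => rw [← b.sum_repr x]
        rw [map_sum]
        refine Finset.sum_congr rfl fun k _ => ?_
        rw [map_smul, Algebra.smul_def, mul_comm]
        rfl
      rw [h11]
      rw [Finset.sum_congr rfl fun i _ => Finset.sum_mul _ _ _, Finset.sum_comm]
      refine Finset.sum_congr rfl fun k _ => ?_
      rw [hC2 (b.coord k) x, Finset.mul_sum]
      exact Finset.sum_congr rfl fun i _ => by ring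
    have h12 := EigC_uniq E (c := fun i => if i = i0 then 1 else 0)
      (d := fun i => ∑ k, E.φ i0 (b k) * C (b.coord k) i) (fun x => by
        rw [← h10 x]
        simp) i0
    simp only [if_true, hC1, mul_zero, Finset.sum_const_zero] at h12
    exact one_ne_zero h12
  · rw [hq x y]
    refine Finset.sum_congr rfl fun i _ => ?_
    rw [h8]
    ring

end Pool.Agent.H62D
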