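import Mathlib

/-! Complete systems of eigenfunctionals: definition. -/

namespace Pool.Agent.H62D

open Polynomial

universe u v w

/-- A complete system of eigenfunctionals: `φ i : V → L` is `K`-linear, `φ i ∘ e = α i • φ i`, the
`α i` are distinct, and the `φ i` form an `L`-basis of `Hom_K(V, L)`. -/
structure EigSys {K : Type u} {L : Type v} {V : Type w} [Field K] [Field L] [Algebra K L]
    [AddCommGroup V] [Module K V] [FiniteDimensional K V] (e : V →ₗ[K] V) (ι : Type)
    [Fintype ι] where
  α : ι → L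
  φ : ι → (V →ₗ[K] L)
  inj : Function.Injective α
  eig : ∀ i x, φ i (e x) = α i * φ i x
  span : ∀ ψ : V →ₗ[K] L, ∃ c : ι → L, ∀ x, ψ x = ∑ i, c i * φ i x
  indep : ∀ c : ι → L, (∀ x, ∑ i, c i * φ i x = 0) → ∀ i, c i = 0

end Pool.Agent.H62D
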