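import Pool.Agent.W_f569db_h62.NTDefs

/-! Multiset sums. -/

namespace Pool.Agent.H62D

open scoped ENNReal

theorem NTA_left_inl {A B : Type} (m : Multiset A) :
    (m.map (Sum.inl : A → A ⊕ B)).filterMap Sum.getLeft? = m := by
  induction m using Multiset.induction with
  | empty => simp
  | cons a m ih => simpa using ih

theorem NTA_right_inr {A B : Type} (m : Multiset B) :
    (m.map (Sum.inr : B → A ⊕ B)).filterMap Sum.getRight? = m := by
  induction m using Multiset.induction with
  | empty => simp
  | cons a m ih => simpa using ih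

theorem NTA_left_inr {A B : Type} (m : Multiset B) :
    (m.map (Sum.inr : B → A ⊕ B)).filterMap Sum.getLeft? = 0 := by
  induction m using Multiset.induction with
  | empty => simp
  | cons a m ih =>
    rw [Multiset.map_cons, Multiset.filterMap_cons_none _ _ (by rfl)]
    exact ih

theorem NTA_right_inl {A B : Type} (m : Multiset A) :
    (m.map (Sum.inl : A → A ⊕ B)).filterMap Sum.getRight? = 0 := by
  induction m using Multiset.induction with
  | empty => simp
  | cons a m ih =>
    rw [Multiset.map_cons, Multiset.filterMap_cons_none _ _ (by rfl)]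
    exact ih

/-- multisets of a sum type -/
noncomputable def NTA_equiv (A B : Type) : Multiset (A ⊕ B) ≃ Multiset A × Multiset B where
  toFun m := (m.filterMap Sum.getLeft?, m.filterMap Sum.getRight?)
  invFun p := p.1.map Sum.inl + p.2.map Sum.inr
  left_inv m := by
    induction m using Multiset.induction with
    | empty => simp
    | cons a m ih =>
      rcases a with a | b
      · show (Multiset.filterMap Sum.getLeft? (Sum.inl a ::ₘ m)).map Sum.inl +
          (Multiset.filterMap Sum.getRight? (Sum.inl a ::ₘ m)).map Sum.inr = Sum.inl a ::ₘ m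
        rw [Multiset.filterMap_cons_some _ _ _ (show Sum.getLeft? (Sum.inl a : A ⊕ B) = some a from rfl),
          Multiset.filterMap_cons_none _ _ (show Sum.getRight? (Sum.inl a : A ⊕ B) = none from rfl),
          Multiset.map_cons, Multiset.cons_add]
        exact congrArg _ ih
      · show (Multiset.filterMap Sum.getLeft? (Sum.inr b ::ₘ m)).map Sum.inl +
          (Multiset.filterMap Sum.getRight? (Sum.inr b ::ₘ m)).map Sum.inr = Sum.inr b ::ₘ m
        rw [Multiset.filterMap_cons_some _ _ _
            (show Sum.getRight? (Sum.inr b : A ⊕ B) = some b from rfl),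
          Multiset.filterMap_cons_none _ _ (show Sum.getLeft? (Sum.inr b : A ⊕ B) = none from rfl),
          Multiset.map_cons, Multiset.add_cons]
        exact congrArg _ ih
  right_inv p := by
    obtain ⟨m, n⟩ := p
    simp [Multiset.filterMap_add, NTA_left_inl, NTA_left_inr, NTA_right_inl, NTA_right_inr]

/-- Proof. `Multiset (A ⊕ B) ≃ Multiset A × Multiset B` (split by `Sum.inl`, `Sum.inr`; inverse
`(m, n) ↦ m.map inl + n.map inr`), the product of the weights is multiplicative, and
`∑' (m, n), f m * g n = (∑' f) * (∑' g)` in `ℝ≥0∞` (`ENNReal.tsum_prod`, `ENNReal.tsum_mul_left`). -/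
theorem Zms_sum {A B : Type} (w : A → ℝ≥0∞) (v : B → ℝ≥0∞) :
    Zms (Sum.elim w v) = Zms w * Zms v := by
  unfold Zms
  have h1 : ∑' c : Multiset A × Multiset B,
      (Multiset.map (Sum.elim w v) ((NTA_equiv A B).symm c)).prod =
      ∑' (m : Multiset A) (n : Multiset B),
        (Multiset.map (Sum.elim w v) ((NTA_equiv A B).symm (m, n))).prod :=
    ENNReal.tsum_prod (f := fun (m : Multiset A) (n : Multiset B) =>
      (Multiset.map (Sum.elim w v) ((NTA_equiv A B).symm (m, n))).prod)
  rw [← (NTA_equiv A B).symm.tsum_eq, h1, ← ENNReal.tsum_mul_right]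
  refine tsum_congr fun m => ?_
  rw [← ENNReal.tsum_mul_left]
  refine tsum_congr fun n => ?_
  show (((m.map Sum.inl + n.map Sum.inr : Multiset (A ⊕ B))).map (Sum.elim w v)).prod = _
  rw [Multiset.map_add, Multiset.prod_add, Multiset.map_map, Multiset.map_map]
  rfl

/-- Proof. `m ↦ m.map f` is injective (`Multiset.map_injective`), `ENNReal.tsum_comp_le_tsum_of_injective`,
and the products are comparable (`Multiset.prod_map_le_prod_map` or induction). -/
theorem Zms_le {A B : Type} (w : A → ℝ≥0∞) (v : B → ℝ≥0∞) (f : A → B)
    (hf : Function.Injective f) (h : ∀ a, w a ≤ v (f a)) : Zms w ≤ Zms v := by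
  unfold Zms
  refine le_trans ?_ (ENNReal.tsum_comp_le_tsum_of_injective (Multiset.map_injective hf)
    (fun m => (m.map v).prod))
  refine ENNReal.tsum_le_tsum fun m => ?_
  induction m using Multiset.induction with
  | empty => simp
  | cons a m ih =>
    simp only [Multiset.map_cons, Multiset.prod_cons]
    exact mul_le_mul' (h a) ih

/-- Invariance under bijections. Proof: `Zms_le` twice or `Equiv.tsum_eq`. -/
theorem Zms_equiv {A B : Type} (w : A → ℝ≥0∞) (v : B → ℝ≥0∞) (f : A ≃ B)
    (h : ∀ a, w a = v (f a)) : Zms w = Zms v := by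
  refine le_antisymm (Zms_le w v f f.injective fun a => (h a).le)
    (Zms_le v w f.symm f.symm.injective fun b => ?_)
  rw [h (f.symm b), Equiv.apply_symm_apply]

end Pool.Agent.H62D
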