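import Mathlib

/-! Number theory part: definitions. -/

namespace Pool.Agent.H62D

open NumberField IsDedekindDomain Polynomial
open scoped ENNReal

/-- The sum of the products of weights over all finite multisets of elements of `A`. -/
noncomputable def Zms {A : Type} (w : A → ℝ≥0∞) : ℝ≥0∞ := ∑' m : Multiset A, (m.map w).prod

/-- The weight `N(𝔭)^(-s)` of a prime ideal. -/
noncomputable def wt (F : Type) [Field F] [NumberField F] (s : ℝ)
    (p : HeightOneSpectrum (𝓞 F)) : ℝ≥0∞ :=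
  ENNReal.ofReal ((Ideal.absNorm p.asIdeal : ℝ) ^ (-s))

/-- Sum of `N(I)^(-s)` over the nonzero ideals of the ring of integers. -/
noncomputable def Zid (F : Type) [Field F] [NumberField F] (s : ℝ) : ℝ≥0∞ :=
  ∑' I : {I : Ideal (𝓞 F) // I ≠ ⊥}, ENNReal.ofReal ((Ideal.absNorm I.1 : ℝ) ^ (-s))

/-- The automorphism `c` of the number field `M` is induced by an automorphism of the algebraic
closure of `Q_l` over `Q_l` through some embedding of `M`. -/
def Good (M : Type) [Field M] [NumberField M] (c : M ≃ₐ[ℚ] M) (l : ℕ) [Fact l.Prime] : Prop :=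
  ∃ (τ : M →+* AlgebraicClosure ℚ_[l])
    (σ : AlgebraicClosure ℚ_[l] ≃ₐ[ℚ_[l]] AlgebraicClosure ℚ_[l]), ∀ x, σ (τ x) = τ (c x)

/-- The set of primes `l` which are `Good` for `(M, c)`. -/
def GoodSet (M : Type) [Field M] [NumberField M] (c : M ≃ₐ[ℚ] M) : Set ℕ :=
  {l | ∃ h : l.Prime, haveI : Fact l.Prime := ⟨h⟩; Good M c l}

/-- The primes `l` for which some automorphism `σ` of the algebraic closure of `Q_l` over `Q_l`
acts on the roots of every `P i` as `β ↦ (g i)(β)`. -/
def ConjSet {r : ℕ} (P g : Fin r → ℚ[X]) : Set ℕ :=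
  {l | ∃ h : l.Prime, haveI : Fact l.Prime := ⟨h⟩;
    ∃ σ : AlgebraicClosure ℚ_[l] ≃ₐ[ℚ_[l]] AlgebraicClosure ℚ_[l],
      ∀ i, ∀ β : AlgebraicClosure ℚ_[l], aeval β (P i) = 0 → σ β = aeval β (g i)}

end Pool.Agent.H62D
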