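import Pool.Agent.W_f569db_h62.NTB

/-! Exponential bound for multiset sums. -/

namespace Pool.Agent.H62D

open scoped ENNReal

/-- Proof. `g x = x + x ^ 2 + log (1 - x)` is `≥ 0` on `[0, 1/2]`: `g 0 = 0` and
`g' x = 1 + 2 x - 1 / (1 - x) = x (1 - 2 x) / (1 - x) ≥ 0`. (Or from the Mathlib bounds for
`Real.log`, or `1 ≤ (1 - x) * exp (x + x ^ 2)` because `exp t ≥ 1 + t + t ^ 2 / 2` for `t ≥ 0` and
`(1 - x) * (1 + (x + x ^ 2) + (x + x ^ 2) ^ 2 / 2) ≥ 1` is a polynomial inequality on `[0, 1/2]`.) -/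
theorem inv_one_sub_le_exp (x : ℝ) (h0 : 0 ≤ x) (h1 : x ≤ 1 / 2) :
    (1 - x)⁻¹ ≤ Real.exp (x + x ^ 2) := by
  have h2 : 0 < 1 - x := by linarith
  have h3 : 1 + (x + x ^ 2) + (x + x ^ 2) ^ 2 / 2 ≤ Real.exp (x + x ^ 2) :=
    Real.quadratic_le_exp_of_nonneg (by positivity)
  have h4 : 0 ≤ x ^ 2 * (1 - x - x ^ 2 - x ^ 3) := by
    apply mul_nonneg (sq_nonneg x)
    have h5 : x ^ 2 ≤ 1 / 4 := by nlinarith
    have h6 : x ^ 3 ≤ 1 / 8 := by nlinarith [mul_nonneg h0 (sq_nonneg x)]
    linarith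
  have h7 : 1 ≤ (1 - x) * (1 + (x + x ^ 2) + (x + x ^ 2) ^ 2 / 2) := by nlinarith
  rw [inv_le_iff_one_le_mul₀' h2]
  exact h7.trans (mul_le_mul_of_nonneg_left h3 h2.le)

/-- The multiset sum over a one element type. Proof. `Multiset Unit ≃ ℕ` (cardinality),
`∑_k x ^ k = (1 - x)⁻¹` (`ENNReal.tsum_geometric`); only `≤` is needed, and this is `NTB_le` for
`A = Unit`. -/
theorem Zms_unit_le (x : ℝ) (h0 : 0 ≤ x) (h1 : x ≤ 1 / 2) :
    Zms (fun _ : Unit => ENNReal.ofReal x) ≤ ENNReal.ofReal (Real.exp (x + x ^ 2)) := by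
  refine (NTB_le _).trans ?_
  have h2 : 0 < 1 - x := by linarith
  have h3 : ∑' _ : Unit, ENNReal.ofReal x = ENNReal.ofReal x := by
    rw [tsum_fintype]
    simp
  rw [h3, ENNReal.tsum_geometric, ← ENNReal.ofReal_one, ← ENNReal.ofReal_sub 1 h0,
    ← ENNReal.ofReal_inv_of_pos h2]
  exact ENNReal.ofReal_le_ofReal (inv_one_sub_le_exp x h0 h1)

/-- The bound for finite types.

Proof. Induction on the number of elements (`Finite.induction_empty_option` as in the proof of
`Zms_lt_top` in `NTB.lean`): `Zms_equiv`, `Zms_sum`, `Zms_unit_le`, `Real.exp_add`. -/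
theorem Zms_fintype_le {B : Type} [Fintype B] (w : B → ℝ) (h0 : ∀ b, 0 ≤ w b)
    (h1 : ∀ b, w b ≤ 1 / 2) :
    Zms (fun b => ENNReal.ofReal (w b)) ≤ ENNReal.ofReal (Real.exp (∑ b, (w b + w b ^ 2))) := by
  have key : ∀ (B : Type) [Finite B], ∀ (_ : Fintype B) (w : B → ℝ), (∀ b, 0 ≤ w b) →
      (∀ b, w b ≤ 1 / 2) → Zms (fun b => ENNReal.ofReal (w b)) ≤
        ENNReal.ofReal (Real.exp (∑ b, (w b + w b ^ 2))) := by
    intro B hB
    refine Finite.induction_empty_option (P := fun B : Type => ∀ (_ : Fintype B) (w : B → ℝ),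
      (∀ b, 0 ≤ w b) → (∀ b, w b ≤ 1 / 2) → Zms (fun b => ENNReal.ofReal (w b)) ≤
        ENNReal.ofReal (Real.exp (∑ b, (w b + w b ^ 2)))) ?_ ?_ ?_ B
    · intro α β e hα hβ v hv0 hv1
      letI : Fintype α := Fintype.ofEquiv β e.symm
      rw [← Zms_equiv (fun a => ENNReal.ofReal (v (e a))) (fun b => ENNReal.ofReal (v b)) e
        fun a => rfl]
      have h1 := hα inferInstance (fun a => v (e a)) (fun a => hv0 _) (fun a => hv1 _)
      have h2 : ∑ a, (v (e a) + v (e a) ^ 2) = ∑ b, (v b + v b ^ 2) :=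
        Equiv.sum_comp e fun b => v b + v b ^ 2
      rwa [h2] at h1
    · intro _ v _ _
      refine (NTB_le _).trans ?_
      have h2 : ∑' a : PEmpty, ENNReal.ofReal (v a) = 0 := tsum_empty
      rw [h2, ENNReal.tsum_geometric, Finset.univ_eq_empty, Finset.sum_empty, Real.exp_zero]
      simp
    · intro α _ hα hO v hv0 hv1
      rw [Zms_equiv (fun b => ENNReal.ofReal (v b))
        (Sum.elim (fun a => ENNReal.ofReal (v (some a))) (fun _ : Unit => ENNReal.ofReal (v none)))
        (Equiv.optionEquivSumPUnit α) (by rintro (_ | a) <;> rfl), Zms_sum]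
      have h2 : ∑ b, (v b + v b ^ 2) =
          ∑ x : α ⊕ Unit, Sum.elim (fun a => v (some a) + v (some a) ^ 2)
            (fun _ => v none + v none ^ 2) x := by
        refine Fintype.sum_equiv (Equiv.optionEquivSumPUnit α) _ _ ?_
        rintro (_ | a) <;> rfl
      rw [h2, Fintype.sum_sum_type]
      simp only [Sum.elim_inl, Sum.elim_inr, Finset.univ_unique, Finset.sum_singleton]
      rw [Real.exp_add, ENNReal.ofReal_mul (Real.exp_pos _).le]
      exact mul_le_mul' (hα _ _ (fun a => hv0 _) fun a => hv1 _) (Zms_unit_le _ (hv0 _) (hv1 _))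
  exact key B _ w h0 h1

/-- The general bound.

Proof. `Zms w` is the supremum of the sums over finite sets of multisets
(`ENNReal.tsum_eq_iSup_sum`); all elements of the multisets in such a finite set lie in a finite
set `F ⊆ A`, so the finite sum is `≤ Zms (w restricted to F)` (the multisets with elements in `F` are
the images of multisets on the subtype `F`; `Multiset.attach` or `Multiset.filterMap`). By
`Zms_fintype_le` for the subtype `F` it is `≤ exp (∑_F (w + w ^ 2)) ≤ exp (S + T)`. -/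
theorem Zms_le_exp {A : Type} (w : A → ℝ) (h0 : ∀ b, 0 ≤ w b) (h1 : ∀ b, w b ≤ 1 / 2)
    (S T : ℝ) (hS : ∑' a, ENNReal.ofReal (w a) ≤ ENNReal.ofReal S)
    (hT : ∑' a, ENNReal.ofReal (w a ^ 2) ≤ ENNReal.ofReal T) (hS0 : 0 ≤ S) (hT0 : 0 ≤ T) :
    Zms (fun a => ENNReal.ofReal (w a)) ≤ ENNReal.ofReal (Real.exp (S + T)) := by
  classical
  unfold Zms
  rw [ENNReal.tsum_eq_iSup_sum]
  refine iSup_le fun s => ?_
  set F : Finset A := s.biUnion Multiset.toFinset with hF
  have hinj : Function.Injective (Multiset.map (Subtype.val : {x // x ∈ F} → A)) :=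
    Multiset.map_injective Subtype.val_injective
  have hmem : ∀ m ∈ s, m ∈ Set.range (Multiset.map (Subtype.val : {x // x ∈ F} → A)) := by
    intro m hm
    have h2 : ∀ a ∈ m, a ∈ F := by
      intro a ha
      rw [hF, Finset.mem_biUnion]
      exact ⟨m, hm, Multiset.mem_toFinset.2 ha⟩
    refine ⟨m.attach.map fun a => ⟨a.1, h2 a.1 a.2⟩, ?_⟩
    rw [Multiset.map_map]
    exact Multiset.attach_map_val m
  have h3 := Finset.sum_preimage (Multiset.map (Subtype.val : {x // x ∈ F} → A)) s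
    hinj.injOn (fun m => (m.map fun a => ENNReal.ofReal (w a)).prod)
    (fun m hm hm' => absurd (hmem m hm) hm')
  rw [← h3]
  have h4 : ∑ x ∈ s.preimage (Multiset.map (Subtype.val : {x // x ∈ F} → A)) hinj.injOn,
      ((x.map Subtype.val).map fun a => ENNReal.ofReal (w a)).prod ≤
      Zms (fun b : {x // x ∈ F} => ENNReal.ofReal (w b)) := by
    unfold Zms
    refine le_trans (le_of_eq ?_) (ENNReal.sum_le_tsum
      (s.preimage (Multiset.map (Subtype.val : {x // x ∈ F} → A)) hinj.injOn))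
    refine Finset.sum_congr rfl fun m _ => ?_
    rw [Multiset.map_map]
    rfl
  refine h4.trans ((Zms_fintype_le (fun b : {x // x ∈ F} => w b) (fun b => h0 _)
    fun b => h1 _).trans ?_)
  apply ENNReal.ofReal_le_ofReal
  apply Real.exp_le_exp.2
  rw [Finset.sum_add_distrib]
  apply add_le_add
  · have h5 : ENNReal.ofReal (∑ b : {x // x ∈ F}, w b) ≤ ENNReal.ofReal S := by
      rw [ENNReal.ofReal_sum_of_nonneg fun b _ => h0 _]
      refine le_trans ?_ hS
      rw [← tsum_fintype (L := SummationFilter.unconditional _)]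
      exact ENNReal.tsum_comp_le_tsum_of_injective Subtype.val_injective
        fun a => ENNReal.ofReal (w a)
    exact (ENNReal.ofReal_le_ofReal_iff hS0).1 h5
  · have h5 : ENNReal.ofReal (∑ b : {x // x ∈ F}, w b ^ 2) ≤ ENNReal.ofReal T := by
      rw [ENNReal.ofReal_sum_of_nonneg fun b _ => sq_nonneg _]
      refine le_trans ?_ hT
      rw [← tsum_fintype (L := SummationFilter.unconditional _)]
      exact ENNReal.tsum_comp_le_tsum_of_injective Subtype.val_injective
        fun a => ENNReal.ofReal (w a ^ 2)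
    exact (ENNReal.ofReal_le_ofReal_iff hT0).1 h5

end Pool.Agent.H62D
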