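import Pool.Agent.W_f569db_h62.NTE

/-! Uniform bounds for the sum over the primes of higher degree and the primes above a set. -/

namespace Pool.Agent.H62D

open NumberField IsDedekindDomain
open scoped ENNReal

/-- Sum over the fibres of the map to the rational primes. -/
theorem QB_sum_le (F : Type) [Field F] [NumberField F] (T : Set (HeightOneSpectrum (𝓞 F)))
    (w : HeightOneSpectrum (𝓞 F) → ℝ≥0∞) (B : ℕ → ℝ≥0∞)
    (h : ∀ P ∈ T, ∀ p k : ℕ, p.Prime → 1 ≤ k → Ideal.absNorm P.asIdeal = p ^ k → w P ≤ B p) :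
    ∑' P : T, w P.1 ≤ (Module.finrank ℚ F : ℝ≥0∞) * ∑' p : ℕ, B p := by
  choose c k hc hk hck hcP using fun P : T => absNorm_prime_pow F P.1
  have h1 : ∑' P : T, w P.1 ≤ ∑' P : T, B (c P) :=
    ENNReal.tsum_le_tsum fun P => h P.1 P.2 (c P) (k P) (hc P) (hk P) (hck P)
  have hfib : ∀ p : ℕ, (c ⁻¹' {p}).encard ≤ (Module.finrank ℚ F : ℕ∞) := by
    intro p
    rcases (c ⁻¹' {p}).eq_empty_or_nonempty with h | ⟨P, hP⟩
    · rw [h, Set.encard_empty]
      exact zero_le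
    · have hp : p.Prime := by
        have : c P = p := hP
        rw [← this]
        exact hc P
      refine le_trans ?_ (card_primes_over_le F p hp)
      rw [← Subtype.val_injective.encard_image]
      apply Set.encard_le_encard
      rintro _ ⟨Q, hQ, rfl⟩
      have hQ' : c Q = p := hQ
      show (p : 𝓞 F) ∈ Q.1.asIdeal
      rw [← hQ']
      exact hcP Q
  have h2 : ∑' P : T, B (c P) ≤ ∑' p : ℕ, (Module.finrank ℚ F : ℝ≥0∞) * B p := by
    rw [← ENNReal.tsum_fiberwise (fun P => B (c P)) c]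
    refine ENNReal.tsum_le_tsum fun p => ?_
    have h3 : ∀ P : c ⁻¹' {p}, B (c P.1) = B p := by
      intro P
      have : c P.1 = p := P.2
      rw [this]
    rw [tsum_congr h3, ENNReal.tsum_set_const]
    gcongr
    have h4 := ENat.toENNReal_le.2 (hfib p)
    simpa using h4
  refine (h1.trans h2).trans ?_
  rw [ENNReal.tsum_mul_left]

/-- The elementary estimate `(p ^ k) ^ (-s) ≤ 1 / p ^ j` for `j ≤ k` and `1 ≤ s`. -/
theorem QB_rpow_le {p k j : ℕ} (hp : p.Prime) (hj : j ≤ k) {s : ℝ} (hs : 1 ≤ s) :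
    (((p ^ k : ℕ) : ℝ)) ^ (-s) ≤ 1 / (p : ℝ) ^ j := by
  have hp1 : (1 : ℝ) ≤ p := by exact_mod_cast hp.one_lt.le
  have hp0 : (0 : ℝ) < p := by linarith
  have h1 : (1 : ℝ) ≤ ((p ^ k : ℕ) : ℝ) := by
    push_cast
    exact one_le_pow₀ hp1
  refine (Real.rpow_le_rpow_of_exponent_le h1 (neg_le_neg hs)).trans ?_
  rw [Real.rpow_neg_one, one_div]
  push_cast
  exact inv_anti₀ (by positivity) (pow_le_pow_right₀ hp1 hj)

/-- Proof. The same proof as `tsum_bad_lt_top` in `NTE.lean` with the exponent `s` kept: for a prime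
`P` above `p` with `N P = p ^ k`: if `k ≥ 2` then `N P ^ (-s) ≤ (p ^ 2) ^ (-1) = 1 / p ^ 2`; if `k = 1` and
`N P = p ∈ G` then `N P ^ (-s) = p ^ (-s)`. So
`wt F s P ≤ G.indicator (fun l => l ^ (-s)) p + 1 / p ^ 2`, and the fibres have at most `[F : ℚ]` elements
(`card_primes_over_le`). Take `C = [F : ℚ] * ∑' p : ℕ, 1 / p ^ 2`. -/
theorem tsum_bad_le (F : Type) [Field F] [NumberField F] :
    ∃ C : ℝ, 0 ≤ C ∧ ∀ (G : Set ℕ) (s : ℝ), 1 ≤ s →
      ∑' P : {P : HeightOneSpectrum (𝓞 F) //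
        ¬ (Ideal.absNorm P.asIdeal).Prime ∨ Ideal.absNorm P.asIdeal ∈ G}, wt F s P.1 ≤
      ENNReal.ofReal C + (Module.finrank ℚ F : ℝ≥0∞) *
        ∑' p : ℕ, G.indicator (fun l : ℕ => ENNReal.ofReal ((l : ℝ) ^ (-s))) p := by
  refine ⟨Module.finrank ℚ F * ∑' p : ℕ, 1 / (p : ℝ) ^ 2,
    mul_nonneg (Nat.cast_nonneg _) (tsum_nonneg fun p => by positivity), fun G s hs => ?_⟩
  have h1 := QB_sum_le F {P | ¬ (Ideal.absNorm P.asIdeal).Prime ∨ Ideal.absNorm P.asIdeal ∈ G}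
    (wt F s) (fun p => G.indicator (fun l : ℕ => ENNReal.ofReal ((l : ℝ) ^ (-s))) p
      + ENNReal.ofReal (1 / (p : ℝ) ^ 2)) (by
    intro P hP p k hp hk h
    unfold wt
    rw [h]
    rcases Nat.lt_or_ge k 2 with h2 | h2
    · have hk1 : k = 1 := by omega
      subst hk1
      rw [pow_one] at h ⊢
      have hG : p ∈ G := by
        rcases hP with hP | hP
        · rw [h] at hP
          exact absurd hp hP
        · rwa [h] at hP
      rw [Set.indicator_of_mem hG]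
      exact le_self_add
    · exact le_trans (ENNReal.ofReal_le_ofReal (QB_rpow_le hp h2 hs)) le_add_self)
  refine le_trans h1 (le_of_eq ?_)
  rw [ENNReal.tsum_add, mul_add, add_comm]
  congr 1
  rw [ENNReal.ofReal_mul (Nat.cast_nonneg _), ENNReal.ofReal_natCast,
    ENNReal.ofReal_tsum_of_nonneg (fun p => by positivity)
      (Real.summable_one_div_nat_pow.2 (by norm_num))]

/-- Proof. `N P ^ (-2 s) ≤ N P ^ (-2) ≤ 1 / p ^ 2` and the fibres of `P ↦ p` have at most `[F : ℚ]`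
elements (`card_primes_over_le`, `absNorm_prime_pow`). -/
theorem tsum_sq_le (F : Type) [Field F] [NumberField F] :
    ∃ C : ℝ, 0 ≤ C ∧ ∀ s : ℝ, 1 ≤ s →
      ∑' P : HeightOneSpectrum (𝓞 F), (wt F s P) ^ 2 ≤ ENNReal.ofReal C := by
  refine ⟨Module.finrank ℚ F * ∑' p : ℕ, 1 / (p : ℝ) ^ 2,
    mul_nonneg (Nat.cast_nonneg _) (tsum_nonneg fun p => by positivity), fun s hs => ?_⟩
  have h1 := QB_sum_le F Set.univ (fun P => (wt F s P) ^ 2)
    (fun p => ENNReal.ofReal (1 / (p : ℝ) ^ 2)) (by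
    intro P _ p k hp hk h
    unfold wt
    rw [h, ← ENNReal.ofReal_pow (by positivity)]
    refine ENNReal.ofReal_le_ofReal ?_
    have h2 := QB_rpow_le hp hk hs
    rw [pow_one] at h2
    calc ((((p ^ k : ℕ) : ℝ)) ^ (-s)) ^ 2 ≤ (1 / (p : ℝ)) ^ 2 :=
          pow_le_pow_left₀ (by positivity) h2 2
      _ = 1 / (p : ℝ) ^ 2 := by rw [one_div, inv_pow, one_div])
  rw [tsum_univ (fun P => (wt F s P) ^ 2)] at h1
  refine le_trans h1 (le_of_eq ?_)
  rw [ENNReal.ofReal_mul (Nat.cast_nonneg _), ENNReal.ofReal_natCast,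
    ENNReal.ofReal_tsum_of_nonneg (fun p => by positivity)
      (Real.summable_one_div_nat_pow.2 (by norm_num))]

end Pool.Agent.H62D
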