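import Pool.Agent.W_f569db_h62.NTJ
import Pool.Agent.W_f569db_h62.QA
import Pool.Agent.W_f569db_h62.QB

/-! The set of good primes has positive lower Dirichlet density. -/

namespace Pool.Agent.H62D

open NumberField IsDedekindDomain Polynomial
open scoped ENNReal

/-- The sum `∑_{l ∈ G} l ^ (-s)`. -/
noncomputable def psum (G : Set ℕ) (s : ℝ) : ℝ≥0∞ :=
  ∑' p : ℕ, G.indicator (fun l : ℕ => ENNReal.ofReal ((l : ℝ) ^ (-s))) p

/-- Upper bound for the Euler product over bad primes.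

Proof. `Zms_le_exp` with `w P = (N P) ^ (-s) ≤ 1/2` (`N P ≥ 2`, `NTJ_absNorm_ge`),
`S = C₁ + [F : ℚ] * (psum G s).toReal` and `T = C₂` from `tsum_bad_le` and `tsum_sq_le` (the sum of the
squares over the subtype is at most the full sum, `ENNReal.tsum_comp_le_tsum_of_injective`);
if `psum G s = ∞` there is nothing to prove (the case does not occur). -/
theorem Zms_bad_le (F : Type) [Field F] [NumberField F] :
    ∃ C : ℝ, ∀ (G : Set ℕ) (s : ℝ), 1 < s → psum G s ≠ ∞ →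
      Zms (fun P : {P : HeightOneSpectrum (𝓞 F) //
        ¬ (Ideal.absNorm P.asIdeal).Prime ∨ Ideal.absNorm P.asIdeal ∈ G} => wt F s P.1) ≤
      ENNReal.ofReal (Real.exp (C + Module.finrank ℚ F * (psum G s).toReal)) := by
  obtain ⟨C₁, hC₁, h₁⟩ := tsum_bad_le F
  obtain ⟨C₂, hC₂, h₂⟩ := tsum_sq_le F
  refine ⟨C₁ + C₂, fun G s hs hG => ?_⟩
  have hx : (0 : ℝ) ≤ (psum G s).toReal := ENNReal.toReal_nonneg
  have key := Zms_le_exp
    (A := {P : HeightOneSpectrum (𝓞 F) //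
        ¬ (Ideal.absNorm P.asIdeal).Prime ∨ Ideal.absNorm P.asIdeal ∈ G})
    (fun P => (Ideal.absNorm P.1.asIdeal : ℝ) ^ (-s)) ?_ ?_
    (C₁ + Module.finrank ℚ F * (psum G s).toReal) C₂ ?_ ?_ (by positivity) hC₂
  · refine le_trans key ?_
    apply ENNReal.ofReal_le_ofReal
    apply le_of_eq
    congr 1
    ring
  · intro P
    positivity
  · intro P
    have h2 := NTJ_absNorm_ge F P.1
    have h3 : (2 : ℝ) ≤ (Ideal.absNorm P.1.asIdeal : ℝ) := by exact_mod_cast h2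
    calc (Ideal.absNorm P.1.asIdeal : ℝ) ^ (-s) ≤ (Ideal.absNorm P.1.asIdeal : ℝ) ^ (-1 : ℝ) :=
          Real.rpow_le_rpow_of_exponent_le (by linarith) (by linarith)
      _ = (Ideal.absNorm P.1.asIdeal : ℝ)⁻¹ := Real.rpow_neg_one _
      _ ≤ 1 / 2 := by
          rw [one_div]
          exact inv_anti₀ (by norm_num) h3
  · refine le_trans (h₁ G s hs.le) ?_
    rw [ENNReal.ofReal_add hC₁ (by positivity), ENNReal.ofReal_mul (by positivity),
      ENNReal.ofReal_natCast, ENNReal.ofReal_toReal hG]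
    exact le_rfl
  · refine le_trans ?_ (h₂ s hs.le)
    refine le_trans (le_of_eq ?_) (ENNReal.tsum_comp_le_tsum_of_injective
      (f := (Subtype.val : {P : HeightOneSpectrum (𝓞 F) //
        ¬ (Ideal.absNorm P.asIdeal).Prime ∨ Ideal.absNorm P.asIdeal ∈ G} → _))
      Subtype.val_injective (fun P => (wt F s P) ^ 2))
    refine tsum_congr fun P => ?_
    show ENNReal.ofReal (((Ideal.absNorm P.1.asIdeal : ℝ) ^ (-s)) ^ 2) =
      (ENNReal.ofReal ((Ideal.absNorm P.1.asIdeal : ℝ) ^ (-s))) ^ 2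
    rw [ENNReal.ofReal_pow (by positivity)]

/-- Proof. `∑ n ^ (-s)` converges for `s > 1` (`Real.summable_nat_rpow`). -/
theorem psum_ne_top (G : Set ℕ) (s : ℝ) (hs : 1 < s) : psum G s ≠ ∞ := by
  have h1 : Summable (fun n : ℕ => (n : ℝ) ^ (-s)) := Real.summable_nat_rpow.2 (by linarith)
  refine ne_top_of_le_ne_top h1.tsum_ofReal_ne_top ?_
  unfold psum
  refine ENNReal.tsum_le_tsum fun l => ?_
  exact Set.indicator_le_self' (fun _ _ => zero_le) l

theorem QC_term_le_one (l : ℕ) (s : ℝ) (hs : 1 < s) : ENNReal.ofReal ((l : ℝ) ^ (-s)) ≤ 1 := by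
  rw [ENNReal.ofReal_le_one]
  rcases Nat.eq_zero_or_pos l with h | h
  · subst h
    rw [Nat.cast_zero, Real.zero_rpow (by linarith)]
    exact zero_le_one
  · have h1 : (1 : ℝ) ≤ (l : ℝ) := by exact_mod_cast h
    exact Real.rpow_le_one_of_one_le_of_nonpos h1 (by linarith)

theorem QC_psum_union (A : Set ℕ) (S : Finset ℕ) (s : ℝ) (hs : 1 < s) :
    (psum (A ∪ (S : Set ℕ)) s).toReal ≤ (psum A s).toReal + S.card := by
  classical
  have h1 : psum (A ∪ (S : Set ℕ)) s ≤ psum A s + S.card := by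
    have h2 : (S.card : ℝ≥0∞) = ∑' p : ℕ, (S : Set ℕ).indicator (fun _ => (1 : ℝ≥0∞)) p := by
      rw [tsum_eq_sum (s := S)]
      · rw [Finset.sum_congr rfl (fun p hp => Set.indicator_of_mem (Finset.mem_coe.2 hp) _),
          Finset.sum_const, nsmul_eq_mul, mul_one]
      · intro b hb
        exact Set.indicator_of_notMem (fun h => hb (Finset.mem_coe.1 h)) _
    rw [h2]
    unfold psum
    rw [← ENNReal.tsum_add]
    refine ENNReal.tsum_le_tsum fun l => ?_
    by_cases hl : l ∈ A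
    · rw [Set.indicator_of_mem (Set.mem_union_left _ hl), Set.indicator_of_mem hl]
      exact le_self_add
    · by_cases hl' : l ∈ (S : Set ℕ)
      · rw [Set.indicator_of_mem (Set.mem_union_right _ hl'), Set.indicator_of_mem hl']
        exact le_trans (QC_term_le_one l s hs) le_add_self
      · rw [Set.indicator_of_notMem (fun h => h.elim hl hl')]
        exact zero_le
  have h3 : psum A s + S.card ≠ ∞ :=
    ENNReal.add_ne_top.2 ⟨psum_ne_top A s hs, ENNReal.natCast_ne_top _⟩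
  have h4 := ENNReal.toReal_mono h3 h1
  rwa [ENNReal.toReal_add (psum_ne_top A s hs) (ENNReal.natCast_ne_top _),
    ENNReal.toReal_natCast] at h4

/-- the comparison with the factor of the bad primes kept -/
theorem QC_compare (K M : Type) [Field K] [NumberField K] [Field M] [NumberField M]
    (pB : HeightOneSpectrum (𝓞 K) → Prop)
    (P₁ P₂ : {P : HeightOneSpectrum (𝓞 K) // ¬ pB P} → HeightOneSpectrum (𝓞 M))
    (h1 : ∀ P Q, P₁ P = P₁ Q → P = Q) (h2 : ∀ P Q, P₂ P = P₂ Q → P = Q)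
    (h12 : ∀ P Q, P₁ P ≠ P₂ Q)
    (n1 : ∀ P, Ideal.absNorm (P₁ P).asIdeal = Ideal.absNorm P.1.asIdeal)
    (n2 : ∀ P, Ideal.absNorm (P₂ P).asIdeal = Ideal.absNorm P.1.asIdeal) (s : ℝ) :
    (Zid K s) ^ 2 ≤ (Zms (fun P : {P : HeightOneSpectrum (𝓞 K) // pB P} => wt K s P.1)) ^ 2 *
      Zid M s := by
  classical
  have e1 : Zid K s =
      Zms (fun P : {P : HeightOneSpectrum (𝓞 K) // pB P} => wt K s P.1) *
      Zms (fun P : {P : HeightOneSpectrum (𝓞 K) // ¬ pB P} => wt K s P.1) := by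
    rw [Zid_eq_Zms, ← Zms_sum]
    refine (Zms_equiv _ _ (Equiv.sumCompl pB) ?_).symm
    rintro (a | a)
    · rfl
    · rfl
  have e3 : (Zms (fun P : {P : HeightOneSpectrum (𝓞 K) // ¬ pB P} => wt K s P.1)) ^ 2 ≤
      Zid M s := by
    rw [Zid_eq_Zms, sq, ← Zms_sum]
    refine Zms_le _ _ (Sum.elim P₁ P₂) ?_ ?_
    · rintro (a | a) (b | b) hab
      · exact congrArg Sum.inl (h1 a b hab)
      · exact absurd hab (h12 a b)
      · exact absurd hab.symm (h12 b a)
      · exact congrArg Sum.inr (h2 a b hab)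
    · rintro (a | a)
      · show wt K s a.1 ≤ wt M s (P₁ a)
        unfold wt
        rw [n1 a]
      · show wt K s a.1 ≤ wt M s (P₂ a)
        unfold wt
        rw [n2 a]
  rw [e1, mul_pow]
  exact mul_le_mul' le_rfl e3

theorem QC_num (c₁ C₂ t y : ℝ) (hc₁ : 0 < c₁) (hC₂ : 0 < C₂) (ht : 0 < t)
    (h : (c₁ / t) ^ 2 ≤ (Real.exp y) ^ 2 * (C₂ / t)) :
    Real.log (1 / t) ≤ 2 * y + Real.log C₂ - 2 * Real.log c₁ := by
  have h1 := Real.log_le_log (by positivity) h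
  rw [Real.log_pow, Real.log_mul (by positivity) (by positivity), Real.log_pow, Real.log_exp,
    Real.log_div hc₁.ne' ht.ne', Real.log_div hC₂.ne' ht.ne'] at h1
  rw [one_div, Real.log_inv]
  push_cast at h1
  linarith

/-- All primes: positive Dirichlet density.

Proof. For `G` = all primes the subtype in `Zms_bad_le` is everything, so (`Zid_eq_Zms`,
`Zms_equiv`) `Zid F s ≤ exp (C + [F : ℚ] * (psum G s).toReal)`; with `Zid_asymp` for `F`
`c / (s - 1) ≤ exp (...)`, take logarithms; `δ = 1 / [F : ℚ]`. Use `F = ℚ`. -/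
theorem all_density : ∃ δ C s₀ : ℝ, 0 < δ ∧ 1 < s₀ ∧ ∀ s, 1 < s → s < s₀ →
    δ * Real.log (1 / (s - 1)) ≤ C + (psum {l | l.Prime} s).toReal := by
  obtain ⟨C, hC⟩ := Zms_bad_le ℚ
  obtain ⟨c, C', s₀, hc, _, hs₀, H⟩ := Zid_asymp ℚ
  have hd : (0 : ℝ) < Module.finrank ℚ ℚ := by exact_mod_cast Module.finrank_pos
  generalize (Module.finrank ℚ ℚ : ℝ) = d at *
  refine ⟨1 / d, (C - Real.log c) / d, s₀, by positivity, hs₀, fun s h1 h2 => ?_⟩
  have h3 := hC {l | l.Prime} s h1 (psum_ne_top _ s h1)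
  have h4 : Zid ℚ s ≤ Zms (fun P : {P : HeightOneSpectrum (𝓞 ℚ) //
        ¬ (Ideal.absNorm P.asIdeal).Prime ∨ Ideal.absNorm P.asIdeal ∈ {l : ℕ | l.Prime}} =>
        wt ℚ s P.1) := by
    rw [Zid_eq_Zms]
    refine Zms_le _ _ (fun P => ⟨P, (em _).symm⟩) ?_ (fun P => le_rfl)
    intro P Q hPQ
    exact congrArg Subtype.val hPQ
  have h5 := ((H s h1 h2).1.trans h4).trans h3
  rw [ENNReal.ofReal_le_ofReal_iff (Real.exp_pos _).le] at h5
  have ht : 0 < s - 1 := by linarith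
  have h6 := Real.log_le_log (by positivity) h5
  rw [Real.log_exp, Real.log_div hc.ne' ht.ne'] at h6
  rw [one_div (s - 1), Real.log_inv, div_mul_eq_mul_div, one_mul, div_add' _ _ _ hd.ne',
    div_le_div_iff_of_pos_right hd]
  linarith

/-- The good primes have positive lower Dirichlet density.

Proof. As in the proof of `not_summable_good` in `NTJ.lean` let `S` be the finite set of
`split_of_bad`, `G = GoodSet ∪ S`, `K₀` the fixed field, and `P₁, P₂` the two primes above a prime of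
`K₀` which is not bad. The argument of `NTJ_compare` (with the factor
`Zms (wt K₀ s restricted to bad)` kept instead of bounding it by the value at `s = 1`; please prove
this variant of `NTJ_compare` first) gives
`(Zid K₀ s) ^ 2 ≤ (Zms (wt K₀ s | bad)) ^ 2 * Zid M s`. With `Zid_asymp` and `Zms_bad_le`:
`(c₁ / (s - 1)) ^ 2 ≤ exp (2 * (C + [K₀ : ℚ] * (psum G s).toReal)) * (C₂ / (s - 1))`, so
`exp (2 * (C + [K₀ : ℚ] * (psum G s).toReal)) ≥ (c₁ ^ 2 / C₂) / (s - 1)`; take logarithms: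
`2 * C + 2 * [K₀ : ℚ] * (psum G s).toReal ≥ log (1 / (s - 1)) + log (c₁ ^ 2 / C₂)`. Finally
`(psum G s).toReal ≤ (psum (GoodSet M c) s).toReal + S.card` (each `l ^ (-s) ≤ 1` for `l ≥ 1`; for
`l = 0` the value `0 ^ (-s)` is `0`). `δ = 1 / (2 * [K₀ : ℚ])`. -/
theorem good_density (M : Type) [Field M] [NumberField M] (c : M ≃ₐ[ℚ] M) (hc : c ≠ 1)
    (hc2 : ∀ x, c (c x) = x) : ∃ δ C s₀ : ℝ, 0 < δ ∧ 1 < s₀ ∧ ∀ s, 1 < s → s < s₀ →
    δ * Real.log (1 / (s - 1)) ≤ C + (psum (GoodSet M c) s).toReal := by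
  obtain ⟨S, hS⟩ := split_of_bad M c hc hc2
  set K₀ := IntermediateField.fixedField (Subgroup.zpowers c) with hK₀
  set G : Set ℕ := GoodSet M c ∪ (S : Set ℕ) with hGdef
  obtain ⟨C, hC⟩ := Zms_bad_le K₀
  obtain ⟨c₁, C₁, s₁, hc₁, hC₁, hs₁, H₁⟩ := Zid_asymp K₀
  obtain ⟨c₂, C₂, s₂, hc₂, hC₂, hs₂, H₂⟩ := Zid_asymp M
  have hd : (0 : ℝ) < Module.finrank ℚ K₀ := by exact_mod_cast Module.finrank_pos
  set pB : HeightOneSpectrum (𝓞 K₀) → Prop := fun P =>
    ¬ (Ideal.absNorm P.asIdeal).Prime ∨ Ideal.absNorm P.asIdeal ∈ G with hpB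
  have hA : ∀ P : {P : HeightOneSpectrum (𝓞 K₀) // ¬ pB P},
      ∃ P₁ P₂ : HeightOneSpectrum (𝓞 M), P₁ ≠ P₂ ∧
            Ideal.absNorm P₁.asIdeal = Ideal.absNorm P.1.asIdeal ∧
            Ideal.absNorm P₂.asIdeal = Ideal.absNorm P.1.asIdeal ∧
            P₁.asIdeal.comap (algebraMap (𝓞 K₀) (𝓞 M)) = P.1.asIdeal ∧
            P₂.asIdeal.comap (algebraMap (𝓞 K₀) (𝓞 M)) = P.1.asIdeal := by
    rintro ⟨P, hP⟩
    have hP' := not_or.1 hP
    have hpr : (Ideal.absNorm P.asIdeal).Prime := not_not.1 hP'.1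
    exact hS (Ideal.absNorm P.asIdeal) (fun h => hP'.2 (Or.inr (Finset.mem_coe.2 h)))
      (fun h => hP'.2 (Or.inl h)) P rfl hpr
  choose P₁ P₂ hne hn1 hn2 hc1 hc2' using hA
  have hext : ∀ P Q : {P : HeightOneSpectrum (𝓞 K₀) // ¬ pB P},
      P.1.asIdeal = Q.1.asIdeal → P = Q := fun P Q h =>
    Subtype.ext (HeightOneSpectrum.ext h)
  have hcmp := QC_compare K₀ M pB P₁ P₂
    (fun P Q h => hext P Q (by rw [← hc1 P, ← hc1 Q, h]))
    (fun P Q h => hext P Q (by rw [← hc2' P, ← hc2' Q, h]))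
    (fun P Q h => by
      have h1 : P = Q := hext P Q (by rw [← hc1 P, ← hc2' Q, h])
      subst h1
      exact hne P h)
    hn1 hn2
  generalize (Module.finrank ℚ K₀ : ℝ) = d at *
  refine ⟨1 / (2 * d), (2 * C + Real.log C₂ - 2 * Real.log c₁) / (2 * d) + S.card, min s₁ s₂,
    by positivity, lt_min hs₁ hs₂, fun s h1 h2 => ?_⟩
  have ht : 0 < s - 1 := by linarith
  have a1 := (H₁ s h1 (lt_of_lt_of_le h2 (min_le_left _ _))).1
  have a2 := (H₂ s h1 (lt_of_lt_of_le h2 (min_le_right _ _))).2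
  have a3 := hC G s h1 (psum_ne_top _ s h1)
  set y : ℝ := C + d * (psum G s).toReal with hy
  have a4 : (ENNReal.ofReal (c₁ / (s - 1))) ^ 2 ≤
      (ENNReal.ofReal (Real.exp y)) ^ 2 * ENNReal.ofReal (C₂ / (s - 1)) := by
    calc (ENNReal.ofReal (c₁ / (s - 1))) ^ 2 ≤ (Zid K₀ s) ^ 2 := pow_le_pow_left₀ zero_le a1 2
      _ ≤ _ := hcmp s
      _ ≤ (ENNReal.ofReal (Real.exp y)) ^ 2 * ENNReal.ofReal (C₂ / (s - 1)) :=
          mul_le_mul' (pow_le_pow_left₀ zero_le a3 2) a2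
  rw [← ENNReal.ofReal_pow (by positivity), ← ENNReal.ofReal_pow (Real.exp_pos _).le,
    ← ENNReal.ofReal_mul (by positivity), ENNReal.ofReal_le_ofReal_iff (by positivity)] at a4
  have a5 := QC_num c₁ C₂ (s - 1) y hc₁ hC₂ ht a4
  have a6 := QC_psum_union (GoodSet M c) S s h1
  rw [← hGdef] at a6
  have a7 : 1 / (2 * d) * Real.log (1 / (s - 1)) ≤
      1 / (2 * d) * (2 * y + Real.log C₂ - 2 * Real.log c₁) :=
    mul_le_mul_of_nonneg_left a5 (by positivity)
  have a8 : 1 / (2 * d) * (2 * y + Real.log C₂ - 2 * Real.log c₁) =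
      (2 * C + Real.log C₂ - 2 * Real.log c₁) / (2 * d) + (psum G s).toReal := by
    rw [hy]
    field_simp
    ring
  linarith

end Pool.Agent.H62D
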