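import Pool.Agent.W_f569db_h62.SysDefs

/-! A system of eigenfunctionals implies the standard conjecture `D(X)`. -/

namespace Pool.Agent.H62D

open Pool.Agent.WeilH_h6 Pool.Agent.WeilH_h6.VarClass

universe u v w w'

/-- The functionals of a system separate points.

Proof. For `x ≠ 0` there is a `K`-linear `f : H(X) → K` with `f x ≠ 0`
(`Module.forall_dual_apply_eq_zero_iff`). Apply `span` to `algebraMap K L ∘ f`
(`(Algebra.linearMap K L).comp f`). -/
theorem NSys.eq_zero {k : Type u} [Field k] {𝒱 : VarClass k} {K : Type v} [Field K]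
    {W : Weil.{u, v, w} 𝒱 K} {X : 𝒱.Obj} {L : Type w'} [Field L] [Algebra K L]
    {σ : L ≃ₐ[K] L} (S : NSys W X σ) (x : W.H X) (h : ∀ i, S.φ i x = 0) : x = 0 := by
  by_contra hx
  have h1 : ∃ f : Module.Dual K (W.H X), f x ≠ 0 := by
    by_contra hc
    push Not at hc
    exact hx ((Module.forall_dual_apply_eq_zero_iff K x).1 hc)
  obtain ⟨f, hf⟩ := h1
  obtain ⟨c, hc⟩ := S.span ((Algebra.linearMap K L).comp f)
  have h2 := hc x
  simp only [h, mul_zero, Finset.sum_const_zero, LinearMap.comp_apply,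
    Algebra.linearMap_apply] at h2
  exact hf ((FaithfulSMul.algebraMap_eq_zero_iff K L).1 h2)

/-- A system of eigenfunctionals implies `D(X)`.

Proof. By `Weil.homEqNum_of_nondeg` let `a ∈ algSpan X` with `tr (a * b) = 0` for all
`b ∈ algSpan X`. For `g : S.G` the element `S.star (S.op g a)` is in `algSpan X` by
`Weil.algHom_apply_mem` (twice). So by `form` and `eig`
`0 = ∑ i, c i * φ i a * φ (π.symm i) (op g a) = ∑ i, c i * φ i a * (χ (π.symm i) g * φ (π.symm i) a)`;
reindex by `i = π j` (`Equiv.sum_comp`):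
`0 = ∑ j, (c (π j) * φ (π j) a * φ j a) * χ j g` for all `g`. By `indep`,
`c (π j) * φ (π j) a * φ j a = 0`, so `φ (π j) a = 0` or `φ j a = 0`. By `gal`
`σ (φ j a) = t * φ (π j) a`, so in the first case `σ (φ j a) = 0` and `φ j a = 0` as well. By
`NSys.eq_zero`, `a = 0`. -/
theorem NSys.homEqNum {k : Type u} [Field k] {𝒱 : VarClass k} {K : Type v} [Field K]
    {W : Weil.{u, v, w} 𝒱 K} {X : 𝒱.Obj} {L : Type w'} [Field L] [Algebra K L]
    {σ : L ≃ₐ[K] L} (S : NSys W X σ) : W.HomEqNum X := by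
  apply Weil.homEqNum_of_nondeg
  intro a ha htr
  have h0 : ∀ g : S.G, ∑ j, (S.c (S.π j) * S.φ (S.π j) a * S.φ j a) * S.χ j g = 0 := by
    intro g
    have hmem : S.star (S.op g a) ∈ W.algSpan X :=
      W.algHom_apply_mem S.star_alg (W.algHom_apply_mem (S.op_alg g) ha)
    have h1 := S.form a (S.op g a)
    rw [htr _ hmem, map_zero] at h1
    rw [← (Equiv.sum_comp S.π (fun i => S.c i * S.φ i a * S.φ (S.π.symm i) (S.op g a)))] at h1
    rw [h1]
    apply Finset.sum_congr rfl
    intro j _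
    rw [Equiv.symm_apply_apply, S.eig]
    ring
  have h1 := S.indep _ h0
  apply S.eq_zero
  intro j
  have h2 := h1 j
  rcases mul_eq_zero.1 h2 with h3 | h3
  · rcases mul_eq_zero.1 h3 with h4 | h4
    · exact absurd h4 (S.c_ne _)
    · obtain ⟨t, ht, hgal⟩ := S.gal j
      have h5 := hgal a
      rw [h4, mul_zero] at h5
      exact (map_eq_zero_iff σ σ.injective).1 h5
  · exact h3

end Pool.Agent.H62D
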