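import Pool.Agent.WeilH_h6.Ext

/-! Systems of eigenfunctionals on the cohomology of a variety, definition. -/

namespace Pool.Agent.H62D

open Pool.Agent.WeilH_h6 Pool.Agent.WeilH_h6.VarClass

universe u v w w'

/-- A system of functionals `φ i : H(X) → L` which spans `Hom_K(H(X), L)`, consists of common
eigenvectors of algebraic operators `op g` with linearly independent eigencharacters, is permuted
by `σ` up to scalars, and diagonalises the form `tr (x · star y)` for an algebraic operator `star`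
along the permutation `π`. -/
structure NSys {k : Type u} [Field k] {𝒱 : VarClass k} {K : Type v} [Field K]
    (W : Weil.{u, v, w} 𝒱 K) (X : 𝒱.Obj) {L : Type w'} [Field L] [Algebra K L]
    (σ : L ≃ₐ[K] L) where
  ι : Type
  [fin : Fintype ι]
  [dec : DecidableEq ι]
  /-- the functionals -/
  φ : ι → (W.H X →ₗ[K] L)
  span : ∀ ψ : W.H X →ₗ[K] L, ∃ c : ι → L, ∀ x, ψ x = ∑ i, c i * φ i x
  /-- the parity of a functional -/
  sgn : ι → ℕ
  parity : ∀ i x, φ i (W.par X x) = (-1) ^ sgn i * φ i x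
  /-- index set of the operators -/
  G : Type
  op : G → (W.H X →ₗ[K] W.H X)
  op_alg : ∀ g, op g ∈ W.algHom X X
  χ : ι → G → L
  eig : ∀ i g x, φ i (op g x) = χ i g * φ i x
  indep : ∀ c : ι → L, (∀ g, ∑ i, c i * χ i g = 0) → ∀ i, c i = 0
  π : Equiv.Perm ι
  gal : ∀ i, ∃ t : L, t ≠ 0 ∧ ∀ x, σ (φ i x) = t * φ (π i) x
  star : W.H X →ₗ[K] W.H X
  star_alg : star ∈ W.algHom X X
  c : ι → L
  c_ne : ∀ i, c i ≠ 0
  form : ∀ x y, algebraMap K L (W.tr X (x * star y)) = ∑ i, c i * φ i x * φ (π.symm i) y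

attribute [instance] NSys.fin NSys.dec

end Pool.Agent.H62D
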