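import Pool.Agent.W_f569db_h62.SysC

/-! Products of systems. -/

namespace Pool.Agent.H62D

open Pool.Agent.WeilH_h6 Pool.Agent.WeilH_h6.VarClass
open scoped TensorProduct

universe u v w w'

/-- The product of two systems. -/
noncomputable def NSys.prod {k : Type u} [Field k] {𝒱 : VarClass k} {K : Type v} [Field K]
    [CharZero K]
    {W : Weil.{u, v, w} 𝒱 K} {X Y : 𝒱.Obj} {L : Type w'} [Field L] [Algebra K L]
    {σ : L ≃ₐ[K] L} (SX : NSys W X σ) (SY : NSys W Y σ) : NSys W (X.prod Y) σ where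
  ι := SX.ι × SY.ι
  φ p := boxFun W (SX.φ p.1) (SY.φ p.2)
  span := boxFun_span W SX.φ SY.φ SX.span SY.span
  sgn p := SX.sgn p.1 + SY.sgn p.2
  parity p u := boxFun_par W _ _ _ _ (SX.parity p.1) (SY.parity p.2) u
  G := SX.G × SY.G
  op g := W.extHom (SX.op g.1) (SY.op g.2)
  op_alg g := W.extHom_mem_algHom (SX.op_alg g.1) (SY.op_alg g.2)
  χ p g := SX.χ p.1 g.1 * SY.χ p.2 g.2
  eig p g u := boxFun_extHom W _ _ _ _ _ _ (SX.eig p.1 g.1) (SY.eig p.2 g.2) u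
  indep c hc p := indep_prod SX.χ SY.χ SX.indep SY.indep c hc p
  π := SX.π.prodCongr SY.π
  gal p := by
    obtain ⟨s, hs, h1⟩ := SX.gal p.1
    obtain ⟨t, ht, h2⟩ := SY.gal p.2
    exact ⟨s * t, mul_ne_zero hs ht, fun u => boxFun_gal W σ _ _ _ _ s t h1 h2 u⟩
  star := W.extHom SX.star SY.star
  star_alg := W.extHom_mem_algHom SX.star_alg SY.star_alg
  c p := (-1) ^ (SY.sgn p.2 * SX.sgn (SX.π.symm p.1)) * (SX.c p.1 * SY.c p.2)
  c_ne p := mul_ne_zero (pow_ne_zero _ (neg_ne_zero.2 one_ne_zero))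
    (mul_ne_zero (SX.c_ne p.1) (SY.c_ne p.2))
  form u u' := form_prod SX SY u u'

end Pool.Agent.H62D
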