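import Pool.Agent.W_f569db_h62.SysF0
import Pool.Agent.W_f569db_h62.EigA
import Pool.Agent.W_f569db_h62.EigB
import Pool.Agent.W_f569db_h62.EigC

/-! The system attached to one endomorphism. -/

namespace Pool.Agent.H62D

open Polynomial Pool.Agent.WeilH_h6 Pool.Agent.WeilH_h6.VarClass

universe u v w w'
theorem SysF_poly {L : Type w'} [Field L] {ι : Type} [Fintype ι] (α : ι → L)
    (c : ι → L) (hc : ∀ n : ℕ, ∑ i, c i * α i ^ n = 0) (p : L[X]) :
    ∑ i, c i * p.eval (α i) = 0 := by
  induction p using Polynomial.induction_on' with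
  | add p q hp hq =>
    simp only [eval_add, mul_add, Finset.sum_add_distrib, hp, hq, add_zero]
  | monomial n a =>
    have h1 : ∀ i, c i * (monomial n a).eval (α i) = a * (c i * α i ^ n) := by
      intro i
      rw [eval_monomial]
      ring
    simp only [h1, ← Finset.mul_sum, hc, mul_zero]

/-- Distinct elements have linearly independent sequences of powers.

Proof. By induction or linearity `∑ i, c i * p.eval (α i) = 0` for all polynomials `p`; take
`p = ∏ j ≠ i (X - C (α j))`. (Or `Matrix.det_vandermonde_ne_zero_iff`, or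
`linearIndependent_monoidHom` for the homomorphisms `powersHom`.) -/
theorem indep_pow {L : Type w'} [Field L] {ι : Type} [Fintype ι] [DecidableEq ι] (α : ι → L)
    (hα : Function.Injective α) (c : ι → L) (hc : ∀ n : ℕ, ∑ i, c i * α i ^ n = 0) (i : ι) :
    c i = 0 := by
  have h := SysF_poly α c hc (∏ j ∈ Finset.univ.erase i, (X - C (α j)))
  rw [Finset.sum_eq_single i] at h
  · rcases mul_eq_zero.1 h with h1 | h1
    · exact h1
    · exfalso
      rw [eval_prod, Finset.prod_eq_zero_iff] at h1
      obtain ⟨j, hj, hj0⟩ := h1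
      rw [eval_sub, eval_X, eval_C, sub_eq_zero] at hj0
      exact (Finset.mem_erase.1 hj).1 (hα hj0).symm
  · intro k _ hk
    have h2 : (∏ j ∈ Finset.univ.erase i, (X - C (α j))).eval (α k) = 0 := by
      rw [eval_prod]
      refine Finset.prod_eq_zero (Finset.mem_erase.2 ⟨hk, Finset.mem_univ k⟩) ?_
      rw [eval_sub, eval_X, eval_C, sub_self]
    rw [h2, mul_zero]
  · intro h2
    exact absurd (Finset.mem_univ i) h2

/-- The adjoint acts on eigenfunctionals by the conjugate eigenvalue.

Proof. If `ψ = 0` this is clear. By induction on polynomials `ψ (aeval e p x) = p(β) ψ x` for every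
`p : ℚ[X]` (coefficients act through `K → L`; `h` gives `ψ (e ^ n x) = β ^ n * ψ x`). For
`p = P` (mapped to `K` it is the characteristic polynomial of `e`, so `aeval e P = 0` by
Cayley-Hamilton, `LinearMap.aeval_self_charpoly`) we get `P(β) ψ x = 0` for all `x`, hence
`aeval β P = 0`, and `σ β = aeval β g` by `hσ`. For `p = g` we get the claim. Here
`aeval e (g.map (algebraMap ℚ K))` is evaluated over `K`. -/
theorem adj_eig {K : Type v} [Field K] [CharZero K] {V : Type w} [AddCommGroup V] [Module K V]
    [FiniteDimensional K V] {L : Type w'} [Field L] [Algebra K L] (σ : L ≃ₐ[K] L)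
    (e : V →ₗ[K] V) (P g : ℚ[X]) (hP : e.charpoly = P.map (algebraMap ℚ K))
    (hσ : ∀ β : L, (P.map ((algebraMap K L).comp (algebraMap ℚ K))).eval β = 0 →
      σ β = (g.map ((algebraMap K L).comp (algebraMap ℚ K))).eval β)
    (ψ : V →ₗ[K] L) (β : L) (h : ∀ x, ψ (e x) = β * ψ x) (x : V) :
    ψ (aeval e (g.map (algebraMap ℚ K)) x) = σ β * ψ x := by
  by_cases hψ : ∃ y, ψ y ≠ 0
  · obtain ⟨y, hy⟩ := hψ
    have h1 := SysF_aeval e ψ β h e.charpoly y
    rw [LinearMap.aeval_self_charpoly, LinearMap.zero_apply, map_zero, hP,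
      Polynomial.map_map] at h1
    have h2 : (P.map ((algebraMap K L).comp (algebraMap ℚ K))).eval β = 0 := by
      rcases mul_eq_zero.1 h1.symm with h3 | h3
      · exact h3
      · exact absurd h3 hy
    rw [hσ β h2, SysF_aeval e ψ β h, Polynomial.map_map]
  · push Not at hψ
    rw [hψ, hψ, mul_zero]

/-- The system attached to an algebraic endomorphism `e` with separable characteristic polynomial
`P` and a polynomial adjoint.

Proof. `e.charpoly` is separable (`Polynomial.Separable.map`), so `exists_eigSys` gives a complete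
system `E` of eigenfunctionals, `ι = Fin (finrank K (H X))`. Put `φ = E.φ`, `span = E.span`,
`π` from `E.exists_perm σ` (this gives `gal`). `G = ℕ`, `op n = e ^ n` (in `algHom` by induction:
`Weil.id_mem_algHom`, `Weil.comp_mem_algHom`; `e ^ (n+1) = e ∘ₗ e ^ n`), `χ i n = α i ^ n`, `indep` is
`indep_pow`. `star = s`. The form `Q x y = tr (x * s y)`
(`(LinearMap.mul K (W.H X)).compr₂ (W.tr X) |>.compl₂ s`) satisfies the hypotheses of
`EigSys.form_expansion` with `e' = aeval e (g.map _)`: `hQ` is `exists_rep`, `he'` is `adj_eig`.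
This gives `c`, `c_ne`, `form`.
Parity: `par` commutes with `e` (`Weil.par_algHom`), so `φ i ∘ par` is an eigenfunctional with
eigenvalue `α i`; it is nonzero (`par (par x) = x` is `Weil.par_par` and `E.φ_ne_zero`), so by
`E.eq_smul` and injectivity of `α` there is `t ≠ 0` with `φ i (par x) = t * φ i x`; applying it twice
`t ^ 2 = 1`, so `t = 1 = (-1) ^ 0` or `t = -1 = (-1) ^ 1`. Choose `sgn i` accordingly. -/
theorem exists_nsys {k : Type u} [Field k] {𝒱 : VarClass k} {K : Type v} [Field K] [CharZero K]
    (W : Weil.{u, v, w} 𝒱 K) (X : 𝒱.Obj) {L : Type w'} [Field L] [IsAlgClosed L] [Algebra K L]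
    (σ : L ≃ₐ[K] L) (P g : ℚ[X]) (hsep : P.Separable)
    (hσ : ∀ β : L, (P.map ((algebraMap K L).comp (algebraMap ℚ K))).eval β = 0 →
      σ β = (g.map ((algebraMap K L).comp (algebraMap ℚ K))).eval β)
    (e s : W.H X →ₗ[K] W.H X) (he : W.IsAlgEnd X e) (hs : W.IsAlgEnd X s)
    (hsb : Function.Bijective s) (hP : e.charpoly = P.map (algebraMap ℚ K))
    (hadj : ∀ x y, W.tr X (e x * s y) = W.tr X (x * s (aeval e (g.map (algebraMap ℚ K)) y))) :
    Nonempty (NSys W X σ) := by
  classical
  have he' : e ∈ W.algHom X X := W.isAlgEnd_iff.1 he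
  have hs' : s ∈ W.algHom X X := W.isAlgEnd_iff.1 hs
  obtain ⟨E⟩ := exists_eigSys (L := L) e (by rw [hP]; exact hsep.map)
  obtain ⟨π, hπ1, hπ2⟩ := E.exists_perm σ
  obtain ⟨c, hc, hform⟩ := E.form_expansion σ π hπ1
    (((LinearMap.mul K (W.H X)).compr₂ (W.tr X)).compl₂ s)
    (aeval e (g.map (algebraMap ℚ K))) (fun x y => hadj x y)
    (fun f => exists_rep W X s hsb f)
    (fun ψ β h x => adj_eig σ e P g hP hσ ψ β h x)
  have hpar : ∀ i, ∃ n : ℕ, ∀ x, E.φ i (W.par X x) = (-1) ^ n * E.φ i x := by
    intro i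
    have hne : ∃ y, E.φ i y ≠ 0 := by
      by_contra hcon
      push Not at hcon
      exact E.φ_ne_zero i (LinearMap.ext hcon)
    obtain ⟨y, hy⟩ := hne
    have h1 : (E.φ i ∘ₗ W.par X) ≠ 0 := by
      intro h0
      apply hy
      have h2 := LinearMap.congr_fun h0 (W.par X y)
      rw [LinearMap.comp_apply, W.par_par] at h2
      exact h2
    obtain ⟨j, hj, t, ht, htx⟩ := E.eq_smul (E.φ i ∘ₗ W.par X) h1 (E.α i) (fun x => by
      rw [LinearMap.comp_apply, LinearMap.comp_apply, ← W.par_algHom he', E.eig])
    have hji : j = i := E.inj hj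
    subst hji
    have h3 : t * t = 1 := by
      have h4 := htx (W.par X y)
      rw [LinearMap.comp_apply, W.par_par] at h4
      have h5 := htx y
      rw [LinearMap.comp_apply] at h5
      rw [h5, ← mul_assoc] at h4
      have h6 : (t * t - 1) * E.φ j y = 0 := by
        rw [sub_mul, ← h4, one_mul, sub_self]
      rcases mul_eq_zero.1 h6 with h7 | h7
      · exact sub_eq_zero.1 h7
      · exact absurd h7 hy
    rcases mul_self_eq_one_iff.1 h3 with h4 | h4
    · refine ⟨0, fun x => ?_⟩
      rw [pow_zero, ← h4]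
      exact htx x
    · refine ⟨1, fun x => ?_⟩
      rw [pow_one, ← h4]
      exact htx x
  choose sgn hsgn using hpar
  refine ⟨{
    ι := Fin (Module.finrank K (W.H X))
    φ := E.φ
    span := E.span
    sgn := sgn
    parity := hsgn
    G := ℕ
    op := fun n => e ^ n
    op_alg := ?_
    χ := fun i n => E.α i ^ n
    eig := ?_
    indep := fun c hc i => indep_pow E.α E.inj c hc i
    π := π
    gal := hπ2
    star := s
    star_alg := hs'
    c := c
    c_ne := hc
    form := fun x y => hform x y }⟩
  · intro n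
    induction n with
    | zero => exact W.id_mem_algHom X
    | succ n ih =>
      show e ^ (n + 1) ∈ W.algHom X X
      rw [pow_succ]
      exact W.comp_mem_algHom he' ih
  · intro i n x
    show E.φ i ((e ^ n) x) = E.α i ^ n * E.φ i x
    induction n with
    | zero => simp
    | succ n ih =>
      rw [pow_succ', Module.End.mul_apply, E.eig, ih, pow_succ']
      ring

end Pool.Agent.H62D
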