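import Pool.Agent.W_f569db_h62.SysDefs

/-! Representation of functionals by the trace form; polynomials and eigenfunctionals. -/

namespace Pool.Agent.H62D

open Polynomial Pool.Agent.WeilH_h6 Pool.Agent.WeilH_h6.VarClass

universe u v w w'
/-- Every functional is `x ↦ tr (x * s y)` for some `y`, if `s` is bijective.

Proof. `W.pd X : H(X) ≃ Dual`, `w ↦ (x ↦ tr (w * x))`. The map `T : z ↦ (x ↦ tr (x * z))` from
`H(X)` to its dual is injective: if `tr (x * z) = 0` for all `x` then every functional (it is
`W.pd X x` for some `x`) vanishes at `z`, so `z = 0` (`Module.forall_dual_apply_eq_zero_iff`). The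
dimensions are equal (`Subspace.dual_finrank_eq`), so `T` is surjective
(`LinearMap.injective_iff_surjective_of_finrank_eq_finrank`); and `s` is surjective. -/
theorem exists_rep {k : Type u} [Field k] {𝒱 : VarClass k} {K : Type v} [Field K]
    (W : Weil.{u, v, w} 𝒱 K) (X : 𝒱.Obj) (s : W.H X →ₗ[K] W.H X) (hs : Function.Bijective s)
    (f : W.H X →ₗ[K] K) : ∃ y, ∀ x, f x = W.tr X (x * s y) := by
  let T : W.H X →ₗ[K] Module.Dual K (W.H X) := ((LinearMap.mul K (W.H X)).compr₂ (W.tr X)).flip
  have hT : ∀ z x, T z x = W.tr X (x * z) := fun z x => rfl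
  have hinj : Function.Injective T := by
    rw [injective_iff_map_eq_zero]
    intro z hz
    refine (Module.forall_dual_apply_eq_zero_iff K z).1 fun f' => ?_
    obtain ⟨x, rfl⟩ := (W.pd X).surjective f'
    rw [W.pd_apply, ← hT, hz]
    rfl
  have hsurj : Function.Surjective T :=
    (LinearMap.injective_iff_surjective_of_finrank_eq_finrank
      (Subspace.dual_finrank_eq (K := K) (V := W.H X)).symm).1 hinj
  obtain ⟨z, hz⟩ := hsurj f
  obtain ⟨y, hy⟩ := hs.2 z
  refine ⟨y, fun x => ?_⟩
  rw [hy, ← hT, hz]

theorem SysF_aeval {K : Type v} [Field K] {V : Type w} [AddCommGroup V] [Module K V]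
    {L : Type w'} [Field L] [Algebra K L] (e : V →ₗ[K] V)
    (ψ : V →ₗ[K] L) (β : L) (h : ∀ x, ψ (e x) = β * ψ x) (q : K[X]) (x : V) :
    ψ (aeval e q x) = (q.map (algebraMap K L)).eval β * ψ x := by
  induction q using Polynomial.induction_on' with
  | add p q hp hq =>
    rw [map_add, LinearMap.add_apply, map_add, hp, hq, Polynomial.map_add, eval_add, add_mul]
  | monomial n a =>
    have h1 : ∀ n : ℕ, ψ ((e ^ n) x) = β ^ n * ψ x := by
      intro n
      induction n with
      | zero => simp
      | succ n ih =>
        rw [pow_succ', Module.End.mul_apply, h, ih, pow_succ']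
        ring
    rw [aeval_monomial, Module.algebraMap_end_eq_smul_id, Polynomial.map_monomial, eval_monomial,
      Module.End.mul_apply, LinearMap.smul_apply, LinearMap.id_apply, map_smul, h1,
      Algebra.smul_def, mul_assoc]

end Pool.Agent.H62D
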